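import Mathlib

set_option autoImplicit false

namespace Pool.Agent.Helper87.DMLP

open Polynomial

/-- Dividing by a monic linear factor does not increase the size of the higher coefficients. -/
lemma coeff_bound_of_mul {p : ℕ} [Fact p.Prime] (t : ℚ_[p]) (ht : ‖t‖ ≤ 1)
    (Q : ℚ_[p][X]) (k : ℕ) (r : ℝ) (hr : 0 ≤ r)
    (h : ∀ j, k + 1 ≤ j → ‖((X - C t) * Q).coeff j‖ ≤ r) :
    ∀ j, k ≤ j → ‖Q.coeff j‖ ≤ r := by
  have key : ∀ m j, Q.natDegree + 1 - j ≤ m → k ≤ j → ‖Q.coeff j‖ ≤ r := by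
    intro m
    induction m with
    | zero =>
      intro j hj _
      have : Q.coeff j = 0 := Polynomial.coeff_eq_zero_of_natDegree_lt (by omega)
      simpa [this] using hr
    | succ m ih =>
      intro j hj hk
      by_cases hlt : Q.natDegree < j
      · have : Q.coeff j = 0 := Polynomial.coeff_eq_zero_of_natDegree_lt hlt
        simpa [this] using hr
      · have h1 := ih (j + 1) (by omega) (by omega)
        have h2 := h (j + 1) (by omega)
        have h3 : ((X - C t) * Q).coeff (j + 1) = Q.coeff j - t * Q.coeff (j + 1) := by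
          rw [sub_mul, coeff_sub, coeff_X_mul, coeff_C_mul]
        have h4 : Q.coeff j = ((X - C t) * Q).coeff (j + 1) + t * Q.coeff (j + 1) := by
          rw [h3]; ring
        rw [h4]
        refine (Padic.nonarchimedean _ _).trans (max_le h2 ?_)
        rw [norm_mul]
        calc ‖t‖ * ‖Q.coeff (j + 1)‖ ≤ 1 * r := by
              apply mul_le_mul ht h1 (norm_nonneg _) zero_le_one
          _ = r := one_mul r
  intro j hj
  exact key _ j le_rfl hj

lemma coeff_bound_of_prod {p : ℕ} [Fact p.Prime] (S : Finset ℕ)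
    (Q : ℚ_[p][X]) (k : ℕ) (r : ℝ) (hr : 0 ≤ r)
    (h : ∀ j, k + S.card ≤ j → ‖((∏ t ∈ S, (X - C (t : ℚ_[p]))) * Q).coeff j‖ ≤ r) :
    ∀ j, k ≤ j → ‖Q.coeff j‖ ≤ r := by
  classical
  induction S using Finset.induction_on generalizing k with
  | empty => simpa using h
  | insert a S ha ih =>
    intro j hj
    apply ih k _ j hj
    intro j hj
    have := coeff_bound_of_mul (p := p) (a : ℚ_[p]) (by
      simpa using Padic.norm_int_le_one (p := p) (a : ℤ))
      ((∏ t ∈ S, (X - C (t : ℚ_[p]))) * Q) (k + S.card) r hr (by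
        intro j hj
        have := h j (by rw [Finset.card_insert_of_notMem ha]; omega)
        rw [Finset.prod_insert ha, mul_assoc] at this
        exact this)
    exact this j hj

/-- The polynomial interpolating `∑ C(n,i) p^i d_i`. -/
noncomputable def hanselPoly (p : ℕ) [Fact p.Prime] (d : ℕ → ℤ_[p]) (n : ℕ) : ℚ_[p][X] :=
  ∑ i ∈ Finset.range (n + 1), C ((p : ℚ_[p]) ^ i * (d i : ℚ_[p]) / (i.factorial : ℚ_[p])) *
    descPochhammer ℚ_[p] i

lemma hanselPoly_eval (p : ℕ) [Fact p.Prime] (d : ℕ → ℤ_[p]) (n t : ℕ) (ht : t ≤ n) :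
    (hanselPoly p d n).eval (t : ℚ_[p]) =
      ((∑ i ∈ Finset.range (t + 1), (t.choose i : ℤ_[p]) * (p : ℤ_[p]) ^ i * d i : ℤ_[p]) : ℚ_[p]) := by
  unfold hanselPoly
  rw [Polynomial.eval_finsetSum]
  have h0 : ((∑ i ∈ Finset.range (t + 1), (t.choose i : ℤ_[p]) * (p : ℤ_[p]) ^ i * d i : ℤ_[p]) : ℚ_[p])
      = ∑ i ∈ Finset.range (t + 1), (t.choose i : ℚ_[p]) * (p : ℚ_[p]) ^ i * (d i : ℚ_[p]) := by
    have h00 := map_sum (PadicInt.Coe.ringHom (p := p))
      (fun i => (t.choose i : ℤ_[p]) * (p : ℤ_[p]) ^ i * d i) (Finset.range (t + 1))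
    refine Eq.trans h00 ?_
    apply Finset.sum_congr rfl
    intro i _
    rw [map_mul, map_mul, map_pow, map_natCast, map_natCast]
    rfl
  rw [h0]
  have h1 : ∀ i ∈ Finset.range (n + 1),
      (C ((p : ℚ_[p]) ^ i * (d i : ℚ_[p]) / (i.factorial : ℚ_[p])) *
        descPochhammer ℚ_[p] i).eval (t : ℚ_[p]) = (t.choose i : ℚ_[p]) * (p : ℚ_[p]) ^ i * d i := by
    intro i _
    rw [eval_mul, eval_C, descPochhammer_eval_eq_descFactorial,
      Nat.descFactorial_eq_factorial_mul_choose]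
    have : (i.factorial : ℚ_[p]) ≠ 0 := by exact_mod_cast Nat.factorial_ne_zero i
    push_cast
    field_simp
  rw [Finset.sum_congr rfl h1]
  symm
  apply Finset.sum_subset
  · intro i hi
    simp only [Finset.mem_range] at hi ⊢
    omega
  · intro i _ hi
    simp only [Finset.mem_range, not_lt] at hi
    rw [Nat.choose_eq_zero_of_lt (by omega)]
    simp

lemma norm_pow_div_factorial (p : ℕ) [hp : Fact p.Prime] (hp3 : 3 ≤ p) (i : ℕ) :
    ‖((p : ℚ_[p]) ^ i / (i.factorial : ℚ_[p]))‖ ≤ ((p : ℝ)⁻¹) ^ (i / 2) := by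
  have hfac : (i.factorial : ℚ_[p]) ≠ 0 := by exact_mod_cast Nat.factorial_ne_zero i
  have hp0 : (0 : ℝ) < p := by exact_mod_cast hp.out.pos
  have h1 : (p - 1) * padicValNat p i.factorial ≤ i := by
    rw [sub_one_mul_padicValNat_factorial]; omega
  have h2 : 2 * padicValNat p i.factorial ≤ i := by
    calc 2 * padicValNat p i.factorial ≤ (p - 1) * padicValNat p i.factorial :=
          Nat.mul_le_mul_right _ (by omega)
      _ ≤ i := h1
  rw [norm_div, norm_pow, Padic.norm_p]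
  have h3 : ‖(i.factorial : ℚ_[p])‖ = ((p : ℝ)⁻¹) ^ (padicValNat p i.factorial) := by
    rw [Padic.norm_eq_zpow_neg_valuation hfac]
    rw [Padic.valuation_natCast]
    simp
  rw [h3]
  have hpi : (0 : ℝ) < (p : ℝ)⁻¹ := inv_pos.mpr hp0
  rw [div_le_iff₀ (pow_pos hpi _), ← pow_add]
  apply pow_le_pow_of_le_one hpi.le
  · rw [inv_le_one₀ hp0]; exact_mod_cast hp.out.one_lt.le
  · omega

lemma norm_coeff_descPochhammer (p : ℕ) [Fact p.Prime] (i j : ℕ) :
    ‖(descPochhammer ℚ_[p] i).coeff j‖ ≤ 1 := by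
  rw [← descPochhammer_map (Int.castRingHom ℚ_[p]), Polynomial.coeff_map]
  simpa using Padic.norm_int_le_one (p := p) ((descPochhammer ℤ i).coeff j)

lemma hanselPoly_coeff (p : ℕ) [hp : Fact p.Prime] (hp3 : 3 ≤ p) (d : ℕ → ℤ_[p]) (n k : ℕ) :
    ∀ j, k ≤ j → ‖(hanselPoly p d n).coeff j‖ ≤ ((p : ℝ)⁻¹) ^ (k / 2) := by
  intro j hj
  have hp0 : (0 : ℝ) < p := by exact_mod_cast hp.out.pos
  have hpi : (0 : ℝ) < (p : ℝ)⁻¹ := inv_pos.mpr hp0
  unfold hanselPoly
  rw [Polynomial.finsetSum_coeff]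
  apply IsUltrametricDist.norm_sum_le_of_forall_le_of_nonneg (pow_nonneg hpi.le _)
  intro i _
  rw [coeff_C_mul]
  by_cases hij : i < j
  · have : (descPochhammer ℚ_[p] i).coeff j = 0 := by
      apply Polynomial.coeff_eq_zero_of_natDegree_lt
      rwa [descPochhammer_natDegree]
    rw [this]
    simp only [mul_zero, norm_zero]
    exact pow_nonneg hpi.le _
  · have h1 : (p : ℚ_[p]) ^ i * (d i : ℚ_[p]) / (i.factorial : ℚ_[p]) *
        (descPochhammer ℚ_[p] i).coeff j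
        = ((p : ℚ_[p]) ^ i / (i.factorial : ℚ_[p])) * ((d i : ℚ_[p]) *
          (descPochhammer ℚ_[p] i).coeff j) := by ring
    rw [h1, norm_mul, norm_mul]
    have h2 := norm_pow_div_factorial p hp3 i
    have h3 : ‖(d i : ℚ_[p])‖ ≤ 1 := (d i).2
    have h4 := norm_coeff_descPochhammer p i j
    have h5 : ‖(d i : ℚ_[p])‖ * ‖(descPochhammer ℚ_[p] i).coeff j‖ ≤ 1 := by
      calc _ ≤ 1 * 1 := mul_le_mul h3 h4 (norm_nonneg _) zero_le_one
        _ = 1 := one_mul 1
    calc _ ≤ ((p : ℝ)⁻¹) ^ (i / 2) * 1 :=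
          mul_le_mul h2 h5 (mul_nonneg (norm_nonneg _) (norm_nonneg _)) (pow_nonneg hpi.le _)
      _ = ((p : ℝ)⁻¹) ^ (i / 2) := mul_one _
      _ ≤ ((p : ℝ)⁻¹) ^ (k / 2) := by
        apply pow_le_pow_of_le_one hpi.le
        · rw [inv_le_one₀ hp0]; exact_mod_cast hp.out.one_lt.le
        · exact Nat.div_le_div_right (by omega)

/-- Hansel's lemma: if `b n = ∑ C(n,i) p^i d_i` with integers `d_i` and `p ≥ 3`, and `b` has infinitely
many zeros, then `b = 0`. -/
theorem hansel (p : ℕ) [hp : Fact p.Prime] (hp3 : 3 ≤ p) (d : ℕ → ℤ_[p]) (b : ℕ → ℤ_[p])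
    (hb : ∀ n, b n = ∑ i ∈ Finset.range (n + 1), (n.choose i : ℤ_[p]) * (p : ℤ_[p]) ^ i * d i)
    (hinf : {n | b n = 0}.Infinite) : ∀ n, b n = 0 := by
  classical
  intro t
  have hp0 : (0 : ℝ) < p := by exact_mod_cast hp.out.pos
  have hpi : (0 : ℝ) < (p : ℝ)⁻¹ := inv_pos.mpr hp0
  have hp1 : (p : ℝ)⁻¹ < 1 := by
    apply inv_lt_one_of_one_lt₀; exact_mod_cast hp.out.one_lt
  have key : ∀ k : ℕ, ‖(b t : ℚ_[p])‖ ≤ ((p : ℝ)⁻¹) ^ (k / 2) := by
    intro k
    obtain ⟨S, hS, hcard⟩ := hinf.exists_subset_card_eq k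
    set n := t + S.sup id with hn
    have hroot : ∀ s ∈ S, (hanselPoly p d n).IsRoot (s : ℚ_[p]) := by
      intro s hs
      have hsn : s ≤ n := by
        have : s ≤ S.sup id := Finset.le_sup (f := id) hs
        omega
      have hbs : b s = 0 := hS hs
      rw [Polynomial.IsRoot, hanselPoly_eval p d n s hsn, ← hb s, hbs]
      simp
    have hdvd : (∏ s ∈ S, (X - C (s : ℚ_[p]))) ∣ hanselPoly p d n := by
      apply Finset.prod_dvd_of_coprime
      · intro a _ c _ hac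
        apply Polynomial.pairwise_coprime_X_sub_C (s := fun s : ℕ => (s : ℚ_[p])) (by
          intro x y hxy
          exact Nat.cast_injective hxy) hac
      · intro s hs
        exact Polynomial.dvd_iff_isRoot.mpr (hroot s hs)
    obtain ⟨Q, hQ⟩ := hdvd
    have hQc := coeff_bound_of_prod (p := p) S Q 0 (((p : ℝ)⁻¹) ^ (k / 2)) (pow_nonneg hpi.le _) (by
      intro j hj
      rw [← hQ]
      exact hanselPoly_coeff p hp3 d n k j (by omega))
    have hev : (b t : ℚ_[p]) = (hanselPoly p d n).eval (t : ℚ_[p]) := by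
      rw [hanselPoly_eval p d n t (by omega), hb t]
    rw [hev, hQ, Polynomial.eval_mul, norm_mul]
    have h1 : ‖(∏ s ∈ S, (X - C (s : ℚ_[p]))).eval (t : ℚ_[p])‖ ≤ 1 := by
      rw [Polynomial.eval_prod]
      have : ∀ s ∈ S, ‖(X - C (s : ℚ_[p])).eval (t : ℚ_[p])‖ ≤ 1 := by
        intro s _
        have : (X - C (s : ℚ_[p])).eval (t : ℚ_[p]) = (((t : ℤ) - (s : ℤ) : ℤ) : ℚ_[p]) := by
          simp
        rw [this]
        exact Padic.norm_int_le_one _
      rw [norm_prod]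
      exact Finset.prod_le_one (fun _ _ => norm_nonneg _) this
    have h2 : ‖Q.eval (t : ℚ_[p])‖ ≤ ((p : ℝ)⁻¹) ^ (k / 2) := by
      rw [Polynomial.eval_eq_sum_range]
      apply IsUltrametricDist.norm_sum_le_of_forall_le_of_nonneg (pow_nonneg hpi.le _)
      intro i _
      rw [norm_mul, norm_pow]
      have h3 : ‖(t : ℚ_[p])‖ ≤ 1 := by
        simpa using Padic.norm_int_le_one (p := p) (t : ℤ)
      calc _ ≤ ((p : ℝ)⁻¹) ^ (k / 2) * 1 :=
            mul_le_mul (hQc i (Nat.zero_le _)) (pow_le_one₀ (norm_nonneg _) h3)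
              (pow_nonneg (norm_nonneg _) _) (pow_nonneg hpi.le _)
        _ = _ := mul_one _
    calc _ ≤ 1 * ((p : ℝ)⁻¹) ^ (k / 2) := mul_le_mul h1 h2 (norm_nonneg _) zero_le_one
      _ = _ := one_mul _
  have hlim : ‖(b t : ℚ_[p])‖ ≤ 0 := by
    have ht : Filter.Tendsto (fun m : ℕ => ((p : ℝ)⁻¹) ^ m) Filter.atTop (nhds 0) :=
      tendsto_pow_atTop_nhds_zero_of_lt_one hpi.le hp1
    apply ge_of_tendsto' ht
    intro m
    have := key (2 * m)
    simpa using this
  have : (b t : ℚ_[p]) = 0 := norm_le_zero_iff.mp hlim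
  exact Subtype.ext this

end Pool.Agent.Helper87.DMLP
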