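import Mathlib
import Pool.Agent.Helper87.DMLP.Hansel

set_option autoImplicit false

namespace Pool.Agent.Helper87.DMLP

open MvPolynomial

variable {σ : Type} [Fintype σ] [DecidableEq σ]

section General

variable {R : Type} [CommRing R]

/-- The self-map of `R^σ` given by a tuple of polynomials. -/
noncomputable def evalMap (Φ : σ → MvPolynomial σ R) (x : σ → R) : σ → R :=
  fun i => MvPolynomial.eval x (Φ i)

omit [Fintype σ] [DecidableEq σ] in
lemma eval_bind (ψ : σ → MvPolynomial σ R) (G : MvPolynomial σ R) (y : σ → R) :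
    eval y (bind₁ ψ G) = eval (evalMap ψ y) G := by
  exact MvPolynomial.eval₂Hom_bind₁ (RingHom.id R) y ψ G

omit [Fintype σ] [DecidableEq σ] in
lemma eval_iterate_bind (ψ : σ → MvPolynomial σ R) (G : MvPolynomial σ R) (n : ℕ) (y : σ → R) :
    eval y ((((bind₁ ψ).toLinearMap : Module.End R (MvPolynomial σ R)) ^ n) G) =
      eval ((evalMap ψ)^[n] y) G := by
  induction n generalizing y with
  | zero => simp
  | succ n ih =>
    rw [pow_succ', Module.End.mul_apply, Function.iterate_succ_apply, ← ih]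
    simp only [AlgHom.toLinearMap_apply]
    rw [eval_bind]

omit [Fintype σ] [DecidableEq σ] in
lemma diff_dvd {k : Type} [CommRing k] (π : R →+* k) (ϖ : R) (hπ : ∀ r, π r = 0 ↔ ϖ ∣ r)
    (ψ : σ → MvPolynomial σ R)
    (hψ : ∀ i, map π (ψ i) = X i) (G : MvPolynomial σ R) :
    C ϖ ∣ bind₁ ψ G - G := by
  rw [C_dvd_iff_map_hom_eq_zero π ϖ hπ, map_sub, map_bind₁, sub_eq_zero]
  have : (fun i => map π (ψ i)) = X := funext hψ
  rw [this]
  simp

omit [Fintype σ] [DecidableEq σ] in
lemma interp {k : Type} [CommRing k] (π : R →+* k) (ϖ : R) (hπ : ∀ r, π r = 0 ↔ ϖ ∣ r)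
    (ψ : σ → MvPolynomial σ R)
    (hψ : ∀ i, map π (ψ i) = X i) (G : MvPolynomial σ R)
    (y : σ → R) : ∃ d : ℕ → R, ∀ n, eval ((evalMap ψ)^[n] y) G =
      ∑ i ∈ Finset.range (n + 1), (n.choose i : R) * ϖ ^ i * d i := by
  set S : Module.End R (MvPolynomial σ R) := (bind₁ ψ).toLinearMap with hS
  set T : Module.End R (MvPolynomial σ R) := S - 1 with hT
  have hTi : ∀ i : ℕ, ∃ H : MvPolynomial σ R, (T ^ i) G = C (ϖ ^ i) * H := by
    intro i
    induction i with
    | zero => exact ⟨G, by simp⟩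
    | succ i ih =>
      obtain ⟨H, hH⟩ := ih
      obtain ⟨H', hH'⟩ := diff_dvd π ϖ hπ ψ hψ H
      refine ⟨H', ?_⟩
      rw [pow_succ', Module.End.mul_apply, hH]
      have : T (C (ϖ ^ i) * H) = C (ϖ ^ i) * (bind₁ ψ H - H) := by
        rw [hT, LinearMap.sub_apply, hS]
        simp only [AlgHom.toLinearMap_apply, map_mul, Module.End.one_apply]
        rw [show (bind₁ ψ) (C (ϖ ^ i)) = C (ϖ ^ i) from by simp]
        ring
      rw [this, hH', ← mul_assoc, ← C_mul, pow_succ]
  choose H hH using hTi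
  refine ⟨fun i => eval y (H i), fun n => ?_⟩
  rw [← eval_iterate_bind, ← hS]
  have h1 : S = T + 1 := by rw [hT]; abel
  rw [h1, (Commute.one_right T).add_pow]
  simp only [one_pow, mul_one]
  rw [LinearMap.sum_apply, map_sum]
  apply Finset.sum_congr rfl
  intro m _
  have h2 : (T ^ m * (n.choose m : Module.End R (MvPolynomial σ R))) G
      = (n.choose m : R) • (T ^ m) G := by
    rw [Module.End.mul_apply]
    have : ((n.choose m : Module.End R (MvPolynomial σ R))) G = (n.choose m : R) • G := by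
      rw [Module.End.natCast_apply, Nat.cast_smul_eq_nsmul]
    rw [this, map_smul]
  rw [h2, hH, smul_eval]
  simp only [map_mul, eval_C]
  ring

omit [Fintype σ] [DecidableEq σ] in
lemma evalMap_comp (h h' : σ → MvPolynomial σ R) (y : σ → R) :
    evalMap (fun i => bind₁ h' (h i)) y = evalMap h (evalMap h' y) := by
  funext i
  simp only [evalMap, eval_bind]

/-- Iterated composition of polynomial maps. -/
noncomputable def polyIter (h : σ → MvPolynomial σ R) : ℕ → (σ → MvPolynomial σ R)
  | 0 => X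
  | (m + 1) => fun i => bind₁ (polyIter h m) (h i)

omit [Fintype σ] [DecidableEq σ] in
lemma evalMap_polyIter (h : σ → MvPolynomial σ R) (m : ℕ) (y : σ → R) :
    evalMap (polyIter h m) y = (evalMap h)^[m] y := by
  induction m with
  | zero => funext i; simp [polyIter, evalMap]
  | succ m ih =>
    rw [Function.iterate_succ_apply', ← ih]
    exact evalMap_comp h (polyIter h m) y

/-- First order Taylor expansion on the disc `x + p y`. -/
lemma taylor (p : R) (x : σ → R) (F : MvPolynomial σ R) :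
    ∃ T : MvPolynomial σ R, bind₁ (fun j => C (x j) + C p * X j) F =
      C (eval x F) + C p * (∑ j, C (eval x (pderiv j F)) * X j + C p * T) := by
  induction F using MvPolynomial.induction_on with
  | C a =>
    refine ⟨0, ?_⟩
    simp
  | add F G hF hG =>
    obtain ⟨T, hT⟩ := hF
    obtain ⟨T', hT'⟩ := hG
    refine ⟨T + T', ?_⟩
    rw [map_add, hT, hT']
    simp only [map_add, add_mul, Finset.sum_add_distrib]
    ring
  | mul_X F i hF =>
    obtain ⟨T, hT⟩ := hF
    refine ⟨T * (C (x i) + C p * X i) + (∑ j, C (eval x (pderiv j F)) * X j) * X i, ?_⟩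
    rw [map_mul, hT, bind₁_X_right]
    have h1 : ∑ j, C (eval x (pderiv j (F * X i))) * X j =
        C (x i) * (∑ j, C (eval x (pderiv j F)) * X j) + C (eval x F) * (X i : MvPolynomial σ R) := by
      have : ∀ j, C (eval x (pderiv j (F * X i))) * (X j : MvPolynomial σ R) =
          C (x i) * (C (eval x (pderiv j F)) * X j) +
            (if i = j then C (eval x F) * (X i : MvPolynomial σ R) else 0) := by
        intro j
        rw [Derivation.leibniz]
        simp only [pderiv_X, smul_eq_mul, map_add, map_mul, eval_X]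
        by_cases hij : i = j
        · subst hij
          simp
          ring
        · rw [Pi.single_eq_of_ne hij]
          simp [hij]
          ring
      rw [Finset.sum_congr rfl (fun j _ => this j), Finset.sum_add_distrib, Finset.mul_sum]
      simp
    rw [h1]
    simp only [map_mul, eval_X]
    ring

/-- A polynomial map whose reduction is an invertible affine map. -/
def AffInv {k : Type} [CommRing k] (π : R →+* k) (h : σ → MvPolynomial σ R) : Prop :=
  ∃ (A : Matrix σ σ k) (b : σ → k), IsUnit A ∧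
    ∀ i, map π (h i) = C (b i) + ∑ j, C (A i j) * X j

variable {k : Type} [CommRing k] {π : R →+* k}

lemma AffInv.comp {h h' : σ → MvPolynomial σ R} (H : AffInv π h) (H' : AffInv π h') :
    AffInv π (fun i => bind₁ h' (h i)) := by
  obtain ⟨A, b, hA, hh⟩ := H
  obtain ⟨A', b', hA', hh'⟩ := H'
  refine ⟨A * A', A.mulVec b' + b, hA.mul hA', fun i => ?_⟩
  rw [map_bind₁, hh i]
  simp only [map_add, map_sum, map_mul, bind₁_X_right, algHom_C, algebraMap_eq]
  simp only [hh']
  simp only [mul_add, Finset.sum_add_distrib, Pi.add_apply, map_add]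
  have h1 : ∑ x, C (A i x) * C (b' x) = (C (A.mulVec b' i) : MvPolynomial σ k) := by
    simp [Matrix.mulVec, dotProduct, map_sum]
  have h2 : ∑ x, C (A i x) * ∑ j, C (A' x j) * X j =
      ∑ j, (C ((A * A') i j) : MvPolynomial σ k) * X j := by
    simp only [Finset.mul_sum]
    rw [Finset.sum_comm]
    apply Finset.sum_congr rfl
    intro j _
    rw [Matrix.mul_apply, map_sum, Finset.sum_mul]
    apply Finset.sum_congr rfl
    intro x _
    rw [C_mul]; ring
  rw [h1, h2]
  ring

lemma AffInv.add_const {h : σ → MvPolynomial σ R} (H : AffInv π h) (w : σ → R) :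
    AffInv π (fun i => C (w i) + h i) := by
  obtain ⟨A, b, hA, hh⟩ := H
  refine ⟨A, fun i => π (w i) + b i, hA, fun i => ?_⟩
  rw [map_add, hh i, map_C, map_add]
  ring

lemma AffInv.id (π : R →+* k) : AffInv π (X : σ → MvPolynomial σ R) := by
  refine ⟨1, 0, isUnit_one, fun i => ?_⟩
  simp [Matrix.one_apply]

lemma map_polyIter {h : σ → MvPolynomial σ R} {A : Matrix σ σ k} {b : σ → k}
    (hh : ∀ i, map π (h i) = C (b i) + ∑ j, C (A i j) * X j) (m : ℕ) :
    ∀ i, map π (polyIter h m i) =
      C ((∑ l ∈ Finset.range m, (A ^ l).mulVec b) i) + ∑ j, C ((A ^ m) i j) * X j := by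
  induction m with
  | zero =>
    intro i
    simp [polyIter, Matrix.one_apply]
  | succ m ih =>
    intro i
    rw [polyIter, map_bind₁, hh i]
    simp only [map_add, map_sum, map_mul, bind₁_X_right, algHom_C, algebraMap_eq]
    simp only [ih]
    simp only [mul_add, Finset.sum_add_distrib]
    have h1 : ∑ x, C (A i x) * C ((∑ l ∈ Finset.range m, (A ^ l).mulVec b) x) =
        (C (A.mulVec (∑ l ∈ Finset.range m, (A ^ l).mulVec b) i) : MvPolynomial σ k) := by
      simp [Matrix.mulVec, dotProduct, map_sum]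
    have h2 : ∑ x, C (A i x) * ∑ j, C ((A ^ m) x j) * X j =
        ∑ j, (C ((A ^ (m + 1)) i j) : MvPolynomial σ k) * X j := by
      simp only [Finset.mul_sum]
      rw [Finset.sum_comm]
      apply Finset.sum_congr rfl
      intro j _
      rw [pow_succ', Matrix.mul_apply, map_sum, Finset.sum_mul]
      apply Finset.sum_congr rfl
      intro x _
      rw [C_mul]; ring
    rw [h1, h2, ← add_assoc, ← C_add]
    congr 2
    rw [Finset.sum_range_succ', Pi.add_apply]
    simp only [pow_zero, Matrix.one_mulVec]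
    rw [Matrix.mulVec_sum]
    simp only [Matrix.mulVec_mulVec, ← pow_succ']
    ring

omit [Fintype σ] [DecidableEq σ] in
lemma eval_disc (p : R) (x y : σ → R) (G : MvPolynomial σ R) :
    eval (fun i => x i + p * y i) G = eval y (bind₁ (fun j => C (x j) + C p * X j) G) := by
  rw [eval_bind]
  congr 1
  congr 1
  funext i
  simp [evalMap]

/-- The Jacobian matrix reduced by `π`. -/
noncomputable def jacMod (π : R →+* k) (Φ : σ → MvPolynomial σ R) (x : σ → R) : Matrix σ σ k :=
  Matrix.of fun i j => π (eval x (pderiv j (Φ i)))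

lemma disc_step (ϖ : R) (hϖ : π ϖ = 0) (Φ : σ → MvPolynomial σ R) (x : σ → R)
    (hJ : IsUnit (jacMod π Φ x)) :
    ∃ h : σ → MvPolynomial σ R, AffInv π h ∧
      ∀ y : σ → R, evalMap Φ (fun i => x i + ϖ * y i) = fun i => evalMap Φ x i + ϖ * evalMap h y i := by
  have ht := fun i => taylor ϖ x (Φ i)
  choose T hT using ht
  refine ⟨fun i => ∑ j, C (eval x (pderiv j (Φ i))) * X j + C ϖ * T i, ?_, ?_⟩
  · refine ⟨jacMod π Φ x, 0, hJ, fun i => ?_⟩
    simp only [map_add, map_sum, map_mul, map_X, map_C, jacMod, Matrix.of_apply,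
      Pi.zero_apply, C_0, zero_add, hϖ]
    simp
  · intro y
    funext i
    simp only [evalMap]
    rw [eval_disc, hT i]
    simp

lemma disc_iter (ϖ : R) (hϖ : π ϖ = 0) (Φ : σ → MvPolynomial σ R) (L : ℕ) (x : σ → R)
    (hJ : ∀ m < L, IsUnit (jacMod π Φ ((evalMap Φ)^[m] x))) :
    ∃ h : σ → MvPolynomial σ R, AffInv π h ∧
      ∀ y : σ → R, (evalMap Φ)^[L] (fun i => x i + ϖ * y i) =
        fun i => (evalMap Φ)^[L] x i + ϖ * evalMap h y i := by
  induction L with
  | zero =>
    refine ⟨X, AffInv.id π, fun y => ?_⟩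
    funext i
    simp [evalMap]
  | succ L ih =>
    obtain ⟨h, hh, hy⟩ := ih (fun m hm => hJ m (by omega))
    obtain ⟨h', hh', hy'⟩ := disc_step ϖ hϖ Φ ((evalMap Φ)^[L] x) (hJ L (by omega))
    refine ⟨fun i => bind₁ h (h' i), hh'.comp hh, fun y => ?_⟩
    rw [Function.iterate_succ_apply', hy y, hy', evalMap_comp, Function.iterate_succ_apply']

end General

/-- Uniform exponent killing all invertible affine maps over `ZMod p`. -/
noncomputable def affExp (p : ℕ) [Fact p.Prime] (σ : Type) [Fintype σ] [DecidableEq σ] : ℕ :=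
  Fintype.card (Matrix σ σ (ZMod p))ˣ * p

lemma affExp_pos (p : ℕ) [hp : Fact p.Prime] : 0 < affExp p σ :=
  Nat.mul_pos Fintype.card_pos hp.out.pos

lemma polyIter_affExp {R : Type} [CommRing R] {p : ℕ} [hp : Fact p.Prime] {π : R →+* ZMod p}
    {h : σ → MvPolynomial σ R} (H : AffInv π h) :
    ∀ i, map π (polyIter h (affExp p σ) i) = X i := by
  obtain ⟨A, b, hA, hh⟩ := H
  intro i
  rw [map_polyIter hh]
  obtain ⟨u, rfl⟩ := hA
  set g := Fintype.card (Matrix σ σ (ZMod p))ˣ with hg
  have hug : (u : Matrix σ σ (ZMod p)) ^ g = 1 := by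
    rw [← Units.val_pow_eq_pow_val, hg, pow_card_eq_one]; rfl
  have h1 : (u : Matrix σ σ (ZMod p)) ^ (affExp p σ) = 1 := by
    rw [affExp, ← hg, pow_mul, hug, one_pow]
  have h2 : ∀ q : ℕ, ∑ l ∈ Finset.range (g * q), ((u : Matrix σ σ (ZMod p)) ^ l).mulVec b =
      q • ∑ l ∈ Finset.range g, ((u : Matrix σ σ (ZMod p)) ^ l).mulVec b := by
    intro q
    induction q with
    | zero => simp
    | succ q ih =>
      rw [Nat.mul_succ, Finset.sum_range_add, ih, succ_nsmul]
      congr 1
      apply Finset.sum_congr rfl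
      intro l _
      rw [pow_add, pow_mul, hug, one_pow, one_mul]
  have h3 : ∑ l ∈ Finset.range (affExp p σ), ((u : Matrix σ σ (ZMod p)) ^ l).mulVec b = 0 := by
    rw [affExp, ← hg, h2 p]
    funext i
    rw [Pi.smul_apply, Pi.zero_apply, nsmul_eq_mul, CharP.cast_eq_zero, zero_mul]
  rw [h1, h3]
  simp [Matrix.one_apply]

/-- Along a cycle mod `p` avoiding the critical locus, the orbit is given by iterating a polynomial
map congruent to the identity. -/
lemma cycle_interp {R : Type} [CommRing R] {p : ℕ} [Fact p.Prime] {π : R →+* ZMod p} (ϖ : R)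
    (hπ : ∀ r, π r = 0 ↔ ϖ ∣ r) (Φ : σ → MvPolynomial σ R) (L : ℕ) (x : σ → R)
    (hJ : ∀ m < L, IsUnit (jacMod π Φ ((evalMap Φ)^[m] x)))
    (hcyc : ∀ i, π ((evalMap Φ)^[L] x i) = π (x i)) :
    ∃ ψ : σ → MvPolynomial σ R, (∀ i, map π (ψ i) = X i) ∧
      ∀ k : ℕ, (evalMap Φ)^[L * affExp p σ * k] x =
        fun i => x i + ϖ * (evalMap ψ)^[k] 0 i := by
  obtain ⟨h, hh, hy⟩ := disc_iter ϖ ((hπ ϖ).mpr dvd_rfl) Φ L x hJ
  have hw : ∀ i, ∃ w : R, (evalMap Φ)^[L] x i = x i + ϖ * w := by
    intro i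
    have : π ((evalMap Φ)^[L] x i - x i) = 0 := by rw [map_sub, hcyc i, sub_self]
    obtain ⟨w, hw⟩ := (hπ _).mp this
    exact ⟨w, by rw [← hw]; ring⟩
  choose w hw using hw
  have hh' := hh.add_const w
  set h' : σ → MvPolynomial σ R := fun i => C (w i) + h i with hh'def
  have hs1 : Function.Semiconj (fun (y : σ → R) => (fun i => x i + ϖ * y i)) (evalMap h')
      ((evalMap Φ)^[L]) := by
    intro y
    rw [hy y]
    funext i
    rw [hw i]
    simp [evalMap, hh'def]
    ring
  refine ⟨polyIter h' (affExp p σ), polyIter_affExp hh', fun k => ?_⟩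
  have hs2 := hs1.iterate_right (affExp p σ)
  have hs3 : Function.Semiconj (fun (y : σ → R) => (fun i => x i + ϖ * y i))
      (evalMap (polyIter h' (affExp p σ))) ((evalMap Φ)^[L * affExp p σ]) := by
    have h1 : evalMap (polyIter h' (affExp p σ)) = (evalMap h')^[affExp p σ] :=
      funext (evalMap_polyIter h' (affExp p σ))
    rw [h1, Function.iterate_mul]
    exact hs2
  have hs4 := (hs3.iterate_right k) 0
  simp only [Pi.zero_apply, mul_zero, add_zero] at hs4
  rw [Function.iterate_mul]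
  exact hs4.symm

omit [Fintype σ] [DecidableEq σ] in
/-- The dichotomy for iterates of a `p`-adic polynomial map congruent to the identity. -/
lemma zeros_dichotomy (p : ℕ) [hp : Fact p.Prime] (hp3 : 3 ≤ p) (ψ : σ → MvPolynomial σ ℤ_[p])
    (hψ : ∀ i, map (PadicInt.toZMod (p := p)) (ψ i) = X i) (G : MvPolynomial σ ℤ_[p])
    (y : σ → ℤ_[p]) : {k : ℕ | eval ((evalMap ψ)^[k] y) G = 0}.Finite ∨
      ∀ k, eval ((evalMap ψ)^[k] y) G = 0 := by
  by_cases h : {k : ℕ | eval ((evalMap ψ)^[k] y) G = 0}.Finite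
  · exact Or.inl h
  · right
    have hπ : ∀ r : ℤ_[p], PadicInt.toZMod r = 0 ↔ (p : ℤ_[p]) ∣ r := by
      intro r
      rw [← RingHom.mem_ker, PadicInt.ker_toZMod, PadicInt.maximalIdeal_eq_span_p,
        Ideal.mem_span_singleton]
    obtain ⟨d, hd⟩ := interp PadicInt.toZMod (p : ℤ_[p]) hπ ψ hψ G y
    exact hansel p hp3 d (fun k => eval ((evalMap ψ)^[k] y) G) hd h

end Pool.Agent.Helper87.DMLP
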