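import Mathlib
import Pool.Agent.Helper87.DMLP.Disc

set_option autoImplicit false

namespace Pool.Agent.Helper87.DMLP

open MvPolynomial

variable {σ : Type} [Fintype σ] [DecidableEq σ]

/-- Base change of an integer polynomial map. -/
noncomputable def baseMap (S : Type) [CommRing S] (Φ : σ → MvPolynomial σ ℤ) :
    σ → MvPolynomial σ S := fun i => map (Int.castRingHom S) (Φ i)

omit [Fintype σ] [DecidableEq σ] in
lemma hom_evalMap {S T : Type} [CommRing S] [CommRing T] (φ : S →+* T)
    (Φ : σ → MvPolynomial σ ℤ) (x : σ → S) :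
    (fun i => φ (evalMap (baseMap S Φ) x i)) = evalMap (baseMap T Φ) (fun i => φ (x i)) := by
  funext i
  simp only [evalMap, baseMap]
  rw [eval_map, eval_map]
  have h1 := MvPolynomial.eval₂_comp_left φ (Int.castRingHom S) x (Φ i)
  rw [h1]
  have h2 : φ.comp (Int.castRingHom S) = Int.castRingHom T := RingHom.ext_int _ _
  rw [h2]
  rfl

omit [Fintype σ] [DecidableEq σ] in
lemma hom_evalMap_iterate {S T : Type} [CommRing S] [CommRing T] (φ : S →+* T)
    (Φ : σ → MvPolynomial σ ℤ) (x : σ → S) (n : ℕ) :
    (fun i => φ ((evalMap (baseMap S Φ))^[n] x i)) = (evalMap (baseMap T Φ))^[n] (fun i => φ (x i)) := by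
  induction n with
  | zero => rfl
  | succ n ih =>
    rw [Function.iterate_succ_apply', Function.iterate_succ_apply', ← ih]
    exact hom_evalMap φ Φ _

omit [Fintype σ] [DecidableEq σ] in
/-- The vanishing of a complex polynomial at points of `R^σ`, `R ⊂ ℂ` a subring, is the vanishing of
a family of polynomials over `R`. -/
lemma complex_zero_iff (R : Subring ℂ) (G : MvPolynomial σ ℂ) :
    ∃ (ι : Type) (H : ι → MvPolynomial σ R), ∀ x : σ → R,
      eval (fun i => (x i : ℂ)) G = 0 ↔ ∀ j, eval x (H j) = 0 := by
  classical
  let K := FractionRing R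
  have hinj : Function.Injective (R.subtype) := Subtype.val_injective
  let φ : K →+* ℂ := IsFractionRing.lift (A := R) (K := K) hinj
  have hφ : ∀ r : R, φ (algebraMap R K r) = (r : ℂ) := fun r => IsFractionRing.lift_algebraMap hinj r
  let _ : Algebra K ℂ := φ.toAlgebra
  set M : Submodule K ℂ := Submodule.span K ((G.support.image (fun s => coeff s G) : Finset ℂ) : Set ℂ)
    with hM
  have : Module.Finite K M := by
    rw [hM]
    exact Module.Finite.span_of_finite K (Finset.finite_toSet _)
  set b := Module.finBasis K M with hb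
  have hmem : ∀ s ∈ G.support, coeff s G ∈ M := by
    intro s hs
    apply Submodule.subset_span
    simp only [Finset.coe_image, Set.mem_image, Finset.mem_coe]
    exact ⟨s, hs, rfl⟩
  set c : (σ →₀ ℕ) → M := fun s => if h : s ∈ G.support then ⟨coeff s G, hmem s h⟩ else 0 with hc
  have hcs : ∀ s ∈ G.support, ((c s : M) : ℂ) = coeff s G := by
    intro s hs
    simp only [hc]
    rw [dif_pos hs]
  have hint : ∀ j, ∃ d : nonZeroDivisors R, ∀ s ∈ G.support,
      IsLocalization.IsInteger R ((d : R) • b.repr (c s) j) := by
    intro j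
    exact IsLocalization.exist_integer_multiples (nonZeroDivisors R) G.support
      (fun s => b.repr (c s) j)
  choose d hd using hint
  have hr : ∀ j s, ∃ r : R, s ∈ G.support → algebraMap R K r = (d j : R) • b.repr (c s) j := by
    intro j s
    by_cases hs : s ∈ G.support
    · obtain ⟨r, hr⟩ := hd j s hs
      exact ⟨r, fun _ => hr⟩
    · exact ⟨0, fun h => absurd h hs⟩
  choose r hr using hr
  refine ⟨_, fun j => ∑ s ∈ G.support, monomial s (r j s), fun x => ?_⟩
  set m : M := ∑ s ∈ G.support, (algebraMap R K (s.prod fun i e => x i ^ e)) • c s with hm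
  have h1 : (m : ℂ) = eval (fun i => (x i : ℂ)) G := by
    rw [MvPolynomial.eval_eq, hm, Submodule.coe_sum]
    apply Finset.sum_congr rfl
    intro s hs
    rw [Submodule.coe_smul, hcs s hs, Algebra.smul_def, RingHom.algebraMap_toAlgebra, hφ, mul_comm]
    congr 1
    simp [Finsupp.prod]
  have h2 : ∀ j, algebraMap R K (eval x (∑ s ∈ G.support, monomial s (r j s))) =
      algebraMap R K (d j : R) * b.repr m j := by
    intro j
    rw [map_sum, map_sum, hm, map_sum, Finsupp.finsetSum_apply, Finset.mul_sum]
    apply Finset.sum_congr rfl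
    intro s hs
    rw [map_smul, Finsupp.smul_apply, eval_monomial, map_mul, hr j s hs, smul_eq_mul,
      Algebra.smul_def]
    ring
  have hinjK : Function.Injective (algebraMap R K) := IsFractionRing.injective R K
  rw [← h1]
  constructor
  · intro h j
    have hm0 : m = 0 := (ZeroMemClass.coe_eq_zero).mp h
    apply hinjK
    rw [h2, hm0]
    simp
  · intro h
    have hm0 : m = 0 := by
      apply b.repr.injective
      ext j
      have h3 := h2 j
      rw [h j, map_zero] at h3
      have h4 : algebraMap R K (d j : R) ≠ 0 := by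
        intro h5
        have : (d j : R) = 0 := hinjK (by rw [h5, map_zero])
        exact nonZeroDivisors.ne_zero (d j).2 this
      have h6 : b.repr m j = 0 := by
        rcases mul_eq_zero.mp h3.symm with h7 | h7
        · exact absurd h7 h4
        · exact h7
      rw [h6]; simp
    rw [hm0]; rfl

end Pool.Agent.Helper87.DMLP
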