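import Mathlib
import Pool.Agent.Helper87.DMLP.Surj
import Pool.Agent.Helper87.DML.CountCyc

set_option autoImplicit false

namespace Pool.Agent.Helper87.DMLP

open MvPolynomial
open Pool.Agent.Helper87.DML (IsCyc goodPairs prob_goodPairs_ge)

variable {σ : Type} [Fintype σ] [DecidableEq σ]

/-- A set of natural numbers is finite or everything along each class `n + L k`, `n ≥ n₀`. -/
def FinOrAll (S : Set ℕ) (n₀ L : ℕ) : Prop :=
  ∀ n, n₀ ≤ n → {k | n + L * k ∈ S}.Finite ∨ ∀ k, n + L * k ∈ S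

lemma FinOrAll.inter {ι : Type*} {S : ι → Set ℕ} {n₀ L : ℕ} (h : ∀ i, FinOrAll (S i) n₀ L) :
    FinOrAll (⋂ i, S i) n₀ L := by
  intro n hn
  by_cases hall : ∀ i, ∀ k, n + L * k ∈ S i
  · right
    intro k
    exact Set.mem_iInter.mpr fun i => hall i k
  · left
    push Not at hall
    obtain ⟨i, k, hik⟩ := hall
    rcases h i n hn with h1 | h1
    · refine h1.subset ?_
      intro k hk
      exact Set.mem_iInter.mp hk i
    · exact absurd (h1 k) hik

lemma FinOrAll.mul {S : Set ℕ} {n₀ L : ℕ} (h : FinOrAll S n₀ L) {m : ℕ} (hm : 0 < m) :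
    FinOrAll S n₀ (L * m) := by
  intro n hn
  rcases h n hn with h1 | h1
  · left
    have hinj : Function.Injective (fun k : ℕ => m * k) := fun a b hab =>
      Nat.eq_of_mul_eq_mul_left hm hab
    refine (h1.preimage hinj.injOn).subset ?_
    intro k hk
    simp only [Set.mem_ofPred_eq, Set.mem_preimage] at hk ⊢
    rwa [← mul_assoc]
  · right
    intro k
    have := h1 (m * k)
    rwa [← mul_assoc] at this

lemma FinOrAll.explicit {S : Set ℕ} {n₀ L : ℕ} (hL : 0 < L) (h : FinOrAll S n₀ L) :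
    ∃ E A : Finset ℕ, S = {n : ℕ | n ∈ E ∨ ∃ a ∈ A, ∃ k : ℕ, n = a + L * k} := by
  classical
  set A : Finset ℕ := (Finset.Ico n₀ (n₀ + L)).filter (fun r => ∀ k, r + L * k ∈ S) with hA
  set E : Set ℕ := {n | n ∈ S ∧ ∀ r ∈ A, ∀ k, n ≠ r + L * k} with hE
  have hEfin : E.Finite := by
    have hsub : E ⊆ (Finset.range n₀ : Set ℕ) ∪
        ⋃ r ∈ (Finset.Ico n₀ (n₀ + L)).filter (fun r => ¬ ∀ k, r + L * k ∈ S),
          (fun k => r + L * k) '' {k | r + L * k ∈ S} := by
      intro n hn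
      obtain ⟨hnS, hnA⟩ := hn
      by_cases hlt : n < n₀
      · left; simpa using hlt
      · right
        push Not at hlt
        set r := n₀ + (n - n₀) % L with hr
        have hrlt : (n - n₀) % L < L := Nat.mod_lt _ hL
        have hnr : n = r + L * ((n - n₀) / L) := by
          have := Nat.mod_add_div (n - n₀) L
          omega
        simp only [Set.mem_iUnion]
        refine ⟨r, ?_, (n - n₀) / L, ?_, hnr.symm⟩
        · rw [Finset.mem_filter, Finset.mem_Ico]
          refine ⟨⟨by omega, by omega⟩, ?_⟩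
          intro hall
          apply hnA r _ ((n - n₀) / L) hnr
          rw [hA, Finset.mem_filter, Finset.mem_Ico]
          exact ⟨⟨by omega, by omega⟩, hall⟩
        · show r + L * ((n - n₀) / L) ∈ S
          rw [← hnr]; exact hnS
    refine Set.Finite.subset ?_ hsub
    apply Set.Finite.union (Finset.finite_toSet _)
    apply Set.Finite.biUnion (Finset.finite_toSet _)
    intro r hr
    apply Set.Finite.image
    rw [Finset.mem_coe, Finset.mem_filter, Finset.mem_Ico] at hr
    rcases h r hr.1.1 with h1 | h1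
    · exact h1
    · exact absurd h1 hr.2
  refine ⟨hEfin.toFinset, A, ?_⟩
  ext n
  simp only [Set.mem_ofPred_eq, Set.Finite.mem_toFinset]
  constructor
  · intro hn
    by_cases hnA : ∃ r ∈ A, ∃ k, n = r + L * k
    · exact Or.inr hnA
    · push Not at hnA
      exact Or.inl ⟨hn, hnA⟩
  · rintro (h1 | ⟨a, ha, k, rfl⟩)
    · exact h1.1
    · rw [hA, Finset.mem_filter] at ha
      exact ha.2 k

/-- The orbit of `z` under the reduction mod `p` is eventually on a cycle avoiding the critical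
locus. -/
def GoodOrbit (p : ℕ) (Φ : σ → MvPolynomial σ ℤ) (z : σ → ZMod p) (n₀ L : ℕ) : Prop :=
  ∀ n, n₀ ≤ n → IsUnit ((jet p Φ).2 (((jet p Φ).1)^[n] z)) ∧
    ((jet p Φ).1)^[n + L] z = ((jet p Φ).1)^[n] z

lemma goodOrbit_padic (p : ℕ) [hp : Fact p.Prime] (hp3 : 3 ≤ p) (Φ : σ → MvPolynomial σ ℤ)
    (y : σ → ℤ_[p]) (n₀ L : ℕ) (h : GoodOrbit p Φ (fun i => PadicInt.toZMod (y i)) n₀ L)
    (G : MvPolynomial σ ℤ_[p]) :
    FinOrAll {n | eval ((evalMap (baseMap ℤ_[p] Φ))^[n] y) G = 0} n₀ (L * affExp p σ) := by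
  intro n hn
  have hπ : ∀ r : ℤ_[p], PadicInt.toZMod r = 0 ↔ (p : ℤ_[p]) ∣ r := by
    intro r
    rw [← RingHom.mem_ker, PadicInt.ker_toZMod, PadicInt.maximalIdeal_eq_span_p,
      Ideal.mem_span_singleton]
  set x := (evalMap (baseMap ℤ_[p] Φ))^[n] y with hx
  obtain ⟨ψ, hψ, hk⟩ := cycle_interp (π := PadicInt.toZMod) (p : ℤ_[p]) hπ (baseMap ℤ_[p] Φ) L x (by
    intro m _
    rw [hx, ← Function.iterate_add_apply, ← jet_snd, ← jet_iterate]
    exact (h (m + n) (by omega)).1) (by
    intro i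
    have h1 := (h n hn).2
    rw [add_comm n L, jet_iterate, jet_iterate] at h1
    have h2 := congrFun h1 i
    rw [hx, ← Function.iterate_add_apply]
    exact h2)
  have hmem : ∀ k, (eval ((evalMap (baseMap ℤ_[p] Φ))^[n + L * affExp p σ * k] y) G = 0) ↔
      (eval ((evalMap ψ)^[k] 0) (bind₁ (fun j => C (x j) + C (p : ℤ_[p]) * X j) G) = 0) := by
    intro k
    rw [add_comm n, Function.iterate_add_apply, ← hx, hk k, eval_disc]
  rcases zeros_dichotomy p hp3 ψ hψ (bind₁ (fun j => C (x j) + C (p : ℤ_[p]) * X j) G) 0 with h1 | h1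
  · left
    refine h1.subset ?_
    intro k hk
    exact (hmem k).mp hk
  · right
    intro k
    exact (hmem k).mpr (h1 k)

/-- The return set of the closed subvariety of `𝔸^σ_ℂ` cut out by `V`. -/
def returnSet (Φ : σ → MvPolynomial σ ℤ) (α : σ → ℂ) (V : Set (MvPolynomial σ ℂ)) : Set ℕ :=
  {n | ∀ F ∈ V, eval ((evalMap (baseMap ℂ Φ))^[n] α) F = 0}

lemma goodOrbit_returnSet (p : ℕ) [Fact p.Prime] (hp3 : 3 ≤ p) (Φ : σ → MvPolynomial σ ℤ)
    (R : Subring ℂ) (ι : R →+* ℤ_[p]) (hι : Function.Injective ι) (α : σ → R) (n₀ L : ℕ)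
    (h : GoodOrbit p Φ (fun i => PadicInt.toZMod (ι (α i))) n₀ L) (V : Set (MvPolynomial σ ℂ)) :
    FinOrAll (returnSet Φ (fun i => (α i : ℂ)) V) n₀ (L * affExp p σ) := by
  have h1 : returnSet Φ (fun i => (α i : ℂ)) V =
      ⋂ F : V, {n | eval ((evalMap (baseMap ℂ Φ))^[n] (fun i => (α i : ℂ))) F.1 = 0} := by
    ext n
    simp [returnSet]
  rw [h1]
  apply FinOrAll.inter
  intro F
  obtain ⟨κ, H, hH⟩ := complex_zero_iff R F.1
  have h2 : {n | eval ((evalMap (baseMap ℂ Φ))^[n] (fun i => (α i : ℂ))) F.1 = 0} =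
      ⋂ j, {n | eval ((evalMap (baseMap ℤ_[p] Φ))^[n] (fun i => ι (α i))) (map ι (H j)) = 0} := by
    ext n
    simp only [Set.mem_ofPred_eq, Set.mem_iInter]
    have e1 : (evalMap (baseMap ℂ Φ))^[n] (fun i => (α i : ℂ)) =
        fun i => (((evalMap (baseMap R Φ))^[n] α i : R) : ℂ) := by
      exact (hom_evalMap_iterate R.subtype Φ α n).symm
    rw [e1, hH]
    apply forall_congr'
    intro j
    rw [← hom_evalMap_iterate ι Φ α n]
    have e2 : eval (fun i => ι ((evalMap (baseMap R Φ))^[n] α i)) (map ι (H j)) =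
        ι (eval ((evalMap (baseMap R Φ))^[n] α) (H j)) := by
      rw [eval_map]
      have := MvPolynomial.eval₂_comp_left ι (RingHom.id R) ((evalMap (baseMap R Φ))^[n] α) (H j)
      rw [eval₂_id, RingHom.comp_id] at this
      rw [this]
      rfl
    rw [e2]
    constructor
    · intro h; rw [h, map_zero]
    · intro h; exact hι (by rw [h, map_zero])
  rw [h2]
  apply FinOrAll.inter
  intro j
  exact goodOrbit_padic p hp3 Φ _ n₀ L h (map ι (H j))

/-- The conclusion of the dynamical Mordell-Lang conjecture with period `L`, for all initial points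
with coordinates in some subring of `ℂ` embeddable in `ℤ_p`, and all closed subvarieties. -/
def PadicDML (p : ℕ) [Fact p.Prime] (L : ℕ) (Φ : σ → MvPolynomial σ ℤ) : Prop :=
  ∀ (R : Subring ℂ) (ι : R →+* ℤ_[p]), Function.Injective ι →
    ∀ α : σ → ℂ, (∀ i, α i ∈ R) → ∀ V : Set (MvPolynomial σ ℂ),
      ∃ E A : Finset ℕ, returnSet Φ α V = {n : ℕ | n ∈ E ∨ ∃ a ∈ A, ∃ k : ℕ, n = a + L * k}

/-- In a finite set, iterates are periodic with period `card!` after `card` steps. -/
lemma iterate_periodic {X : Type} [Fintype X] (f : X → X) (x : X) (n : ℕ) (hn : Fintype.card X ≤ n) :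
    IsCyc f (f^[n] x) ∧ f^[n + (Fintype.card X).factorial] x = f^[n] x := by
  classical
  have h1 : ∃ i j : Fin (Fintype.card X + 1), i ≠ j ∧ f^[(i : ℕ)] x = f^[(j : ℕ)] x := by
    by_contra h
    push Not at h
    have : Function.Injective (fun i : Fin (Fintype.card X + 1) => f^[(i : ℕ)] x) := by
      intro i j hij
      by_contra hne
      exact h i j hne hij
    have := Fintype.card_le_of_injective _ this
    simp at this
  obtain ⟨i, j, hij, hx⟩ := h1
  wlog hlt : (i : ℕ) < j generalizing i j with H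
  · have : (j : ℕ) < i := by
      have : (i : ℕ) ≠ j := fun h => hij (Fin.ext h)
      omega
    exact H j i (Ne.symm hij) hx.symm this
  have hj : (j : ℕ) ≤ Fintype.card X := by omega
  set r := (j : ℕ) - i with hr
  have hr0 : 0 < r := by omega
  have h2 : ∀ m, (i : ℕ) ≤ m → f^[m + r] x = f^[m] x := by
    intro m hm
    have h3 : m + r = (m - i) + j := by omega
    have h4 : m = (m - i) + i := by omega
    rw [h3, Function.iterate_add_apply, ← hx, ← Function.iterate_add_apply, ← h4]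
  have h5 : ∀ q, f^[n + r * q] x = f^[n] x := by
    intro q
    induction q with
    | zero => rfl
    | succ q ih =>
      rw [Nat.mul_succ, ← add_assoc, h2 _ (by omega), ih]
  refine ⟨⟨r, hr0, ?_⟩, ?_⟩
  · rw [← Function.iterate_add_apply, add_comm]
    have := h5 1
    rwa [mul_one] at this
  · obtain ⟨q, hq⟩ := Nat.dvd_factorial hr0 (by omega : r ≤ Fintype.card X)
    rw [hq]
    exact h5 q

/-- The period attached to a prime. -/
noncomputable def perOf (σ : Type) [Fintype σ] [DecidableEq σ] (p : ℕ) [Fact p.Prime] : ℕ :=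
  (Fintype.card (σ → ZMod p)).factorial * affExp p σ

lemma perOf_pos (p : ℕ) [Fact p.Prime] : 0 < perOf σ p :=
  Nat.mul_pos (Nat.factorial_pos _) (affExp_pos p)

lemma padicDML_of_good (p : ℕ) [hp : Fact p.Prime] (hp3 : 3 ≤ p) (Φ : σ → MvPolynomial σ ℤ)
    (h : ∀ x, IsCyc (jet p Φ).1 x → IsUnit ((jet p Φ).2 x)) (m : ℕ) (hm : 0 < m) :
    PadicDML p (perOf σ p * m) Φ := by
  intro R ι hι α hα V
  set M := Fintype.card (σ → ZMod p) with hM
  have hgood : GoodOrbit p Φ (fun i => PadicInt.toZMod (ι ⟨α i, hα i⟩)) M M.factorial := by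
    intro n hn
    obtain ⟨h1, h2⟩ := iterate_periodic (jet p Φ).1 (fun i => PadicInt.toZMod (ι ⟨α i, hα i⟩)) n hn
    exact ⟨h _ h1, h2⟩
  have h1 := goodOrbit_returnSet p hp3 Φ R ι hι (fun i => ⟨α i, hα i⟩) M M.factorial hgood V
  exact (h1.mul hm).explicit (Nat.mul_pos (perOf_pos p) hm)

end Pool.Agent.Helper87.DMLP
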