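import Mathlib

set_option autoImplicit false

namespace Pool.Agent.Helper87.DMLP

open Finset

section Abs

variable {𝔸 Ω ι : Type} [AddCommGroup 𝔸] [AddCommGroup Ω] [Fintype Ω] [Fintype ι] [DecidableEq ι]
  [DecidableEq 𝔸] [DecidableEq Ω]

/-- A finite box in an additive group: the coordinates `π i` (dual to `e i`) can be moved freely in
`[-B i, B i]`. -/
structure IsBoxV (Box : Finset 𝔸) (e : ι → 𝔸) (π : ι → 𝔸 →+ ℤ) (B : ι → ℕ) : Prop where
  dual : ∀ i j, π i (e j) = if i = j then 1 else 0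
  bound : ∀ v ∈ Box, ∀ i, |π i v| ≤ B i
  move : ∀ v ∈ Box, ∀ i, ∀ c : ℤ, |c| ≤ B i → v + (c - π i v) • e i ∈ Box

variable {Box : Finset 𝔸} {e : ι → 𝔸} {π : ι → 𝔸 →+ ℤ} {B : ι → ℕ}

omit [Fintype ι] [DecidableEq 𝔸] in
lemma IsBoxV.slice_le (h : IsBoxV Box e π B) (i : ι) (c c' : ℤ) (hc' : |c'| ≤ B i) :
    (Box.filter (fun v => π i v = c)).card ≤ (Box.filter (fun v => π i v = c')).card := by
  apply card_le_card_of_injOn (fun v => v + (c' - c) • e i)
  · intro v hv
    rw [mem_coe, mem_filter] at hv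
    rw [mem_coe, mem_filter]
    constructor
    · have := h.move v hv.1 i c' hc'
      rwa [hv.2] at this
    · rw [map_add, map_zsmul, h.dual, hv.2]
      simp
  · intro v _ w _ hvw
    exact add_right_cancel hvw

omit [Fintype ι] [DecidableEq 𝔸] in
lemma IsBoxV.card_eq (h : IsBoxV Box e π B) (i : ι) (c : ℤ) (hc : |c| ≤ B i) :
    Box.card = (2 * B i + 1) * (Box.filter (fun v => π i v = c)).card := by
  have h1 : Box.card = ∑ c' ∈ Icc (-(B i : ℤ)) (B i), (Box.filter (fun v => π i v = c')).card := by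
    apply card_eq_sum_card_fiberwise
    intro v hv
    rw [mem_coe, mem_Icc]
    exact abs_le.mp (h.bound v hv i)
  rw [h1]
  have h2 : ∀ c' ∈ Icc (-(B i : ℤ)) (B i), (Box.filter (fun v => π i v = c')).card =
      (Box.filter (fun v => π i v = c)).card := by
    intro c' hc'
    rw [mem_Icc] at hc'
    exact le_antisymm (h.slice_le i c' c hc) (h.slice_le i c c' (abs_le.mpr hc'))
  rw [sum_congr rfl h2, sum_const, Int.card_Icc, smul_eq_mul]
  congr 1
  omega

omit [Fintype ι] [DecidableEq 𝔸] in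
lemma IsBoxV.top_le (h : IsBoxV Box e π B) (i : ι) (Q : ℕ) :
    (2 * B i + 1) * (Box.filter (fun v => (B i : ℤ) - Q < π i v)).card ≤ Q * Box.card := by
  have h1 : (Box.filter (fun v => (B i : ℤ) - Q < π i v)).card ≤
      ∑ c' ∈ Ioc ((B i : ℤ) - Q) (B i), (Box.filter (fun v => π i v = c')).card := by
    rw [card_eq_sum_card_fiberwise (f := fun v => π i v) (t := Ioc ((B i : ℤ) - Q) (B i))]
    · apply sum_le_sum
      intro c _
      apply card_le_card
      intro v hv
      rw [mem_filter, mem_filter] at hv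
      rw [mem_filter]
      exact ⟨hv.1.1, hv.2⟩
    · intro v hv
      rw [mem_coe, mem_filter] at hv
      rw [mem_coe, mem_Ioc]
      exact ⟨hv.2, (abs_le.mp (h.bound v hv.1 i)).2⟩
  have h2 : ∀ c' ∈ Ioc ((B i : ℤ) - Q) (B i), (Box.filter (fun v => π i v = c')).card ≤
      (Box.filter (fun v => π i v = 0)).card := by
    intro c' _
    exact h.slice_le i c' 0 (by simp)
  have h3 := h.card_eq i 0 (by simp)
  calc (2 * B i + 1) * (Box.filter (fun v => (B i : ℤ) - Q < π i v)).card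
      ≤ (2 * B i + 1) * (Q * (Box.filter (fun v => π i v = 0)).card) := by
        apply Nat.mul_le_mul_left
        refine h1.trans ((sum_le_sum h2).trans ?_)
        rw [sum_const, Int.card_Ioc, smul_eq_mul]
        apply Nat.mul_le_mul_right
        omega
    _ = Q * Box.card := by rw [h3]; ring

/-- The inner box. -/
noncomputable def innerV (Box : Finset 𝔸) (π : ι → 𝔸 →+ ℤ) (B : ι → ℕ) (Q : ℕ) : Finset 𝔸 := by
  classical
  exact Box.filter (fun v => ∀ i, π i v ≤ (B i : ℤ) - Q)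

omit [DecidableEq 𝔸] in
lemma IsBoxV.inner_card (h : IsBoxV Box e π B) (Q : ℕ) :
    (1 - ∑ i : ι, (Q : ℝ) / (2 * B i + 1)) * Box.card ≤ (innerV Box π B Q).card := by
  classical
  have h1 : Box ⊆ innerV Box π B Q ∪
      univ.biUnion (fun i => Box.filter (fun v => (B i : ℤ) - Q < π i v)) := by
    intro v hv
    rw [mem_union, mem_biUnion]
    by_cases hin : ∀ i, π i v ≤ (B i : ℤ) - Q
    · left
      rw [innerV, mem_filter]
      exact ⟨hv, hin⟩
    · right
      push Not at hin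
      obtain ⟨i, hi⟩ := hin
      exact ⟨i, mem_univ _, by rw [mem_filter]; exact ⟨hv, hi⟩⟩
  have h2 : Box.card ≤ (innerV Box π B Q).card +
      ∑ i : ι, (Box.filter (fun v => (B i : ℤ) - Q < π i v)).card :=
    (card_le_card h1).trans ((card_union_le _ _).trans (Nat.add_le_add_left card_biUnion_le _))
  have h3 : ∀ i, ((Box.filter (fun v => (B i : ℤ) - Q < π i v)).card : ℝ) ≤
      (Q : ℝ) / (2 * B i + 1) * Box.card := by
    intro i
    have h4 := h.top_le i Q
    have h5 : (2 * (B i : ℝ) + 1) * ((Box.filter (fun v => (B i : ℤ) - Q < π i v)).card : ℝ) ≤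
        Q * Box.card := by exact_mod_cast h4
    have h6 : (0 : ℝ) < 2 * B i + 1 := by positivity
    rw [div_mul_eq_mul_div, le_div_iff₀ h6]
    linarith
  have h4 : (Box.card : ℝ) ≤ (innerV Box π B Q).card +
      ∑ i : ι, ((Box.filter (fun v => (B i : ℤ) - Q < π i v)).card : ℝ) := by exact_mod_cast h2
  have h5 : ∑ i : ι, ((Box.filter (fun v => (B i : ℤ) - Q < π i v)).card : ℝ) ≤
      ∑ i : ι, (Q : ℝ) / (2 * B i + 1) * Box.card := sum_le_sum (fun i _ => h3 i)
  rw [← sum_mul] at h5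
  linarith

omit [DecidableEq 𝔸] in
lemma IsBoxV.shift_mem (h : IsBoxV Box e π B) {Q : ℕ} {v : 𝔸} (hv : v ∈ innerV Box π B Q)
    (a : ι → ℕ) (ha : ∀ i, a i ≤ Q) (s : Finset ι) : v + ∑ i ∈ s, a i • e i ∈ Box := by
  classical
  rw [innerV, mem_filter] at hv
  induction s using Finset.induction_on with
  | empty => simpa using hv.1
  | insert j s hj ih =>
    rw [sum_insert hj]
    have h1 : π j (v + ∑ i ∈ s, a i • e i) = π j v := by
      rw [map_add, map_sum]
      have : ∀ i ∈ s, π j (a i • e i) = 0 := by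
        intro i hi
        rw [map_nsmul, h.dual]
        have : j ≠ i := fun hji => hj (hji ▸ hi)
        simp [this]
      rw [sum_eq_zero this, add_zero]
    have h2 := h.move _ ih j (π j v + a j) (by
      have h3 := abs_le.mp (h.bound v hv.1 j)
      have h4 := hv.2 j
      have h5 : (a j : ℤ) ≤ Q := by exact_mod_cast ha j
      rw [abs_le]
      constructor <;> omega)
    rw [h1] at h2
    have h6 : v + (a j • e j + ∑ i ∈ s, a i • e i) =
        v + ∑ i ∈ s, a i • e i + (π j v + (a j : ℤ) - π j v) • e j := by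
      rw [add_sub_cancel_left, natCast_zsmul]
      abel
    rw [h6]
    exact h2

omit [DecidableEq 𝔸] in
/-- Near-equidistribution of a homomorphism on a box. -/
lemma IsBoxV.equi (h : IsBoxV Box e π B) (L : 𝔸 →+ Ω) (Q : ℕ)
    (hsurj : ∀ ω : Ω, ∃ a : ι → ℕ, (∀ i, a i ≤ Q) ∧ L (∑ i, a i • e i) = ω) (𝒢 : Finset Ω) :
    𝒢.card * (innerV Box π B Q).card ≤ Fintype.card Ω * (Box.filter (fun v => L v ∈ 𝒢)).card := by
  classical
  have h1 : ∀ ω ω' : Ω, ((innerV Box π B Q).filter (fun v => L v = ω')).card ≤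
      (Box.filter (fun v => L v = ω)).card := by
    intro ω ω'
    obtain ⟨a, ha, haL⟩ := hsurj (ω - ω')
    apply card_le_card_of_injOn (fun v => v + ∑ i, a i • e i)
    · intro v hv
      rw [mem_coe, mem_filter] at hv
      rw [mem_coe, mem_filter]
      refine ⟨h.shift_mem hv.1 a ha univ, ?_⟩
      rw [map_add, haL, hv.2]
      abel
    · intro v _ w _ hvw
      exact add_right_cancel hvw
  have h2 : ∀ ω : Ω, (innerV Box π B Q).card ≤
      Fintype.card Ω * (Box.filter (fun v => L v = ω)).card := by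
    intro ω
    rw [card_eq_sum_card_fiberwise (f := fun v => L v) (t := univ) (fun _ _ => mem_univ _)]
    calc ∑ ω', ((innerV Box π B Q).filter (fun v => L v = ω')).card
        ≤ ∑ _ω' : Ω, (Box.filter (fun v => L v = ω)).card := sum_le_sum (fun ω' _ => h1 ω ω')
      _ = _ := by rw [sum_const, card_univ, smul_eq_mul]
  have h3 : (Box.filter (fun v => L v ∈ 𝒢)).card = ∑ ω ∈ 𝒢, (Box.filter (fun v => L v = ω)).card := by
    rw [card_eq_sum_card_fiberwise (f := fun v => L v) (t := 𝒢)]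
    · apply sum_congr rfl
      intro ω hω
      congr 1
      ext v
      simp only [mem_filter]
      constructor
      · rintro ⟨⟨h4, _⟩, h5⟩; exact ⟨h4, h5⟩
      · rintro ⟨h4, h5⟩; exact ⟨⟨h4, h5 ▸ hω⟩, h5⟩
    · intro v hv
      rw [mem_coe, mem_filter] at hv
      exact hv.2
  rw [h3, mul_sum]
  calc 𝒢.card * (innerV Box π B Q).card = ∑ _ω ∈ 𝒢, (innerV Box π B Q).card := by
        rw [sum_const, smul_eq_mul]
    _ ≤ _ := sum_le_sum (fun ω _ => h2 ω)

omit [DecidableEq 𝔸] in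
/-- Real-number form: proportion of the box landing in `𝒢`. -/
lemma IsBoxV.proportion (h : IsBoxV Box e π B) (L : 𝔸 →+ Ω) (Q : ℕ)
    (hsurj : ∀ ω : Ω, ∃ a : ι → ℕ, (∀ i, a i ≤ Q) ∧ L (∑ i, a i • e i) = ω) (𝒢 : Finset Ω) :
    ((𝒢.card : ℝ) / Fintype.card Ω) * (1 - ∑ i : ι, (Q : ℝ) / (2 * B i + 1)) * Box.card ≤
      (Box.filter (fun v => L v ∈ 𝒢)).card := by
  have h1 := h.equi L Q hsurj 𝒢
  have h3 := h.inner_card Q
  have hΩ : (0 : ℝ) < Fintype.card Ω := by
    have : 0 < Fintype.card Ω := Fintype.card_pos_iff.mpr ⟨0⟩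
    exact_mod_cast this
  have h1' : (𝒢.card : ℝ) * (innerV Box π B Q).card ≤
      Fintype.card Ω * (Box.filter (fun v => L v ∈ 𝒢)).card := by exact_mod_cast h1
  calc ((𝒢.card : ℝ) / Fintype.card Ω) * (1 - ∑ i : ι, (Q : ℝ) / (2 * B i + 1)) * Box.card
      = ((𝒢.card : ℝ) / Fintype.card Ω) * ((1 - ∑ i : ι, (Q : ℝ) / (2 * B i + 1)) * Box.card) := by
        ring
    _ ≤ ((𝒢.card : ℝ) / Fintype.card Ω) * (innerV Box π B Q).card := by
        apply mul_le_mul_of_nonneg_left h3; positivity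
    _ = ((𝒢.card : ℝ) * (innerV Box π B Q).card) / Fintype.card Ω := by ring
    _ ≤ _ := by
        rw [div_le_iff₀ hΩ]
        linarith

end Abs

end Pool.Agent.Helper87.DMLP
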