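import Mathlib
import Pool.Agent.Helper87.DML.Cycle
import Pool.Agent.Helper87.DMLP.Good

set_option autoImplicit false

namespace Pool.Agent.Helper87.Hyper

open MvPolynomial
open Pool.Agent.Helper87.DML (evalMap jacMod GoodOrbit goodOrbit_returnSet returnSet affExp affExp_pos)

variable {σ : Type} [Fintype σ] [DecidableEq σ]

/-- the Jacobian determinant -/
noncomputable def jac (Φ : σ → MvPolynomial σ ℤ) : MvPolynomial σ ℤ :=
  (Matrix.of fun i j => pderiv j (Φ i)).det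

lemma isUnit_jacMod (p : ℕ) [Fact p.Prime] (Φ : σ → MvPolynomial σ ℤ) (x : σ → ℤ)
    (h : ¬ (p : ℤ) ∣ eval x (jac Φ)) : IsUnit (jacMod p Φ x) := by
  rw [Matrix.isUnit_iff_isUnit_det, isUnit_iff_ne_zero]
  intro h0
  apply h
  rw [← ZMod.intCast_zmod_eq_zero_iff_dvd, ← h0]
  have h1 : ((eval x (jac Φ) : ℤ) : ZMod p) = ((Int.castRingHom (ZMod p)).comp (eval x)) (jac Φ) := rfl
  rw [h1, jac, RingHom.map_det]
  congr 1

variable (Φ : σ → MvPolynomial σ ℤ) (F H : MvPolynomial σ ℤ)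

lemma eval_step (hF : bind₁ Φ F = F * H) (α : σ → ℤ) (n : ℕ) :
    eval ((evalMap Φ)^[n + 1] α) F = eval ((evalMap Φ)^[n] α) F * eval ((evalMap Φ)^[n] α) H := by
  rw [Function.iterate_succ_apply', ← Pool.Agent.Helper87.DML.eval_bind, hF, map_mul]

lemma dvd_mono (hF : bind₁ Φ F = F * H) (α : σ → ℤ) (q : ℤ) {m n : ℕ} (hmn : m ≤ n)
    (h : q ∣ eval ((evalMap Φ)^[m] α) F) : q ∣ eval ((evalMap Φ)^[n] α) F := by
  induction n, hmn using Nat.le_induction with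
  | base => exact h
  | succ n _ ih =>
    rw [eval_step Φ F H hF]
    exact Dvd.dvd.mul_right ih _

/-- for a prime `p ≥ 3` not dividing `Δ`, dividing some `F(Φⁿ(α))`, the orbit is good mod `p` -/
lemma good_of_dvd (hF : bind₁ Φ F = F * H) (B Cc : MvPolynomial σ ℤ) (Δ : ℤ)
    (hJ : B * jac Φ + Cc * F = C Δ) (α : σ → ℤ) (p : ℕ) [hp : Fact p.Prime]
    (hpΔ : ¬ (p : ℤ) ∣ Δ) (m : ℕ) (hm : (p : ℤ) ∣ eval ((evalMap Φ)^[m] α) F) :
    ∃ n₀ L, 0 < L ∧ GoodOrbit p Φ α n₀ L := by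
  set M := Fintype.card (σ → ZMod p) with hM
  refine ⟨max m M, M.factorial, Nat.factorial_pos _, fun n hn => ⟨?_, ?_⟩⟩
  · apply isUnit_jacMod
    intro hdvd
    apply hpΔ
    have h1 := dvd_mono Φ F H hF α p ((le_max_left _ _).trans hn) hm
    have h2 := congrArg (eval ((evalMap Φ)^[n] α)) hJ
    rw [map_add, map_mul, map_mul, eval_C] at h2
    rw [← h2]
    exact dvd_add (Dvd.dvd.mul_left hdvd _) (Dvd.dvd.mul_left h1 _)
  · obtain ⟨-, h2⟩ := Pool.Agent.Helper87.DMLP.iterate_periodic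
      ((Pool.Agent.Helper87.DMLP.jet p Φ).1) (fun i => ((α i : ℤ) : ZMod p)) n
      ((le_max_right _ _).trans hn)
    have h3 : ∀ k, ((Pool.Agent.Helper87.DMLP.jet p Φ).1)^[k] (fun i => ((α i : ℤ) : ZMod p)) =
        fun i => (((evalMap Φ)^[k] α i : ℤ) : ZMod p) := by
      intro k
      have h4 := Pool.Agent.Helper87.DMLP.jet_iterate p (Int.castRingHom (ZMod p)) Φ α k
      have h5 : Pool.Agent.Helper87.DMLP.baseMap ℤ Φ = Φ := by
        funext i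
        simp only [Pool.Agent.Helper87.DMLP.baseMap]
        have : Int.castRingHom ℤ = RingHom.id ℤ := RingHom.ext_int _ _
        rw [this, MvPolynomial.map_id]
      rw [h5] at h4
      exact h4
    rw [h3, h3] at h2
    intro i
    exact congrFun h2 i

/-- integers not dividing `Δ₂` eventually do not divide `H(Φⁿ(α))` -/
lemma eventually_not_dvd (hF : bind₁ Φ F = F * H) (B Cc : MvPolynomial σ ℤ) (Δ : ℤ)
    (hH : B * H + Cc * F = C Δ) (α : σ → ℤ) (q : ℤ) (hq : ¬ q ∣ Δ) :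
    ∃ n₁, ∀ n ≥ n₁, ¬ q ∣ eval ((evalMap Φ)^[n] α) H := by
  by_cases h : ∃ m, q ∣ eval ((evalMap Φ)^[m] α) F
  · obtain ⟨m, hm⟩ := h
    refine ⟨m, fun n hn hdvd => hq ?_⟩
    have h1 := dvd_mono Φ F H hF α q hn hm
    have h2 := congrArg (eval ((evalMap Φ)^[n] α)) hH
    rw [map_add, map_mul, map_mul, eval_C] at h2
    rw [← h2]
    exact dvd_add (Dvd.dvd.mul_left hdvd _) (Dvd.dvd.mul_left h1 _)
  · push Not at h
    refine ⟨0, fun n _ hdvd => h (n + 1) ?_⟩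
    rw [eval_step Φ F H hF]
    exact Dvd.dvd.mul_left hdvd _

/-- the dichotomy -/
theorem dichotomy (hF : bind₁ Φ F = F * H) (B₁ C₁ B₂ C₂ : MvPolynomial σ ℤ) (Δ₁ Δ₂ : ℤ)
    (hΔ₁ : Δ₁ ≠ 0) (hΔ₂ : Δ₂ ≠ 0) (hJ : B₁ * jac Φ + C₁ * F = C Δ₁)
    (hH : B₂ * H + C₂ * F = C Δ₂) (α : σ → ℤ) :
    (∃ p : ℕ, ∃ _ : Fact p.Prime, 3 ≤ p ∧ ∃ n₀ L, 0 < L ∧ GoodOrbit p Φ α n₀ L) ∨
    ∃ n₁, ∀ n ≥ n₁, eval ((evalMap Φ)^[n] α) H ∣ Δ₂ := by
  classical
  by_cases h : ∃ p : ℕ, p.Prime ∧ 3 ≤ p ∧ ¬ (p : ℤ) ∣ Δ₁ ∧ ∃ m, (p : ℤ) ∣ eval ((evalMap Φ)^[m] α) F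
  · left
    obtain ⟨p, hp, hp3, hpΔ, m, hm⟩ := h
    haveI : Fact p.Prime := ⟨hp⟩
    exact ⟨p, ⟨hp⟩, hp3, good_of_dvd Φ F H hF B₁ C₁ Δ₁ hJ α p hpΔ m hm⟩
  · right
    push Not at h
    set P : Finset ℕ := (2 * Δ₁).natAbs.primeFactors with hP
    have hnot : ∀ q : ℕ, q.Prime → ¬ ((q ^ ((Δ₂).natAbs.factorization q + 1) : ℕ) : ℤ) ∣ Δ₂ := by
      intro q hq hdvd
      rw [Int.natCast_dvd] at hdvd
      have := (Nat.Prime.pow_dvd_iff_le_factorization hq (Int.natAbs_ne_zero.2 hΔ₂)).1 hdvd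
      omega
    have hev : ∀ q ∈ P, ∃ n₁, ∀ n ≥ n₁, ¬ ((q ^ ((Δ₂).natAbs.factorization q + 1) : ℕ) : ℤ) ∣
        eval ((evalMap Φ)^[n] α) H := by
      intro q hq
      exact eventually_not_dvd Φ F H hF B₂ C₂ Δ₂ hH α _ (hnot q (Nat.prime_of_mem_primeFactors hq))
    choose! f hf using hev
    refine ⟨P.sup f, fun n hn => ?_⟩
    rw [← Int.natAbs_dvd_natAbs, Nat.dvd_iff_prime_pow_dvd_dvd]
    intro q k hq hk
    by_cases hqP : q ∈ P
    · by_contra hcon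
      have h1 := hf q hqP n ((Finset.le_sup hqP).trans hn)
      apply h1
      rw [Int.natCast_dvd]
      refine dvd_trans (pow_dvd_pow q ?_) hk
      by_contra hlt
      push Not at hlt
      apply hcon
      rw [Nat.Prime.pow_dvd_iff_le_factorization hq (Int.natAbs_ne_zero.2 hΔ₂)]
      omega
    · rcases Nat.eq_zero_or_pos k with rfl | hk0
      · simp
      exfalso
      have hqd : q ∣ (eval ((evalMap Φ)^[n] α) H).natAbs :=
        dvd_trans (dvd_pow_self q hk0.ne') hk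
      have hqF : (q : ℤ) ∣ eval ((evalMap Φ)^[n + 1] α) F := by
        rw [eval_step Φ F H hF]
        exact Dvd.dvd.mul_left (Int.natCast_dvd.2 hqd) _
      have hq2 : ¬ q ∣ (2 * Δ₁).natAbs := by
        intro hd
        apply hqP
        rw [hP, Nat.mem_primeFactors]
        exact ⟨hq, hd, Int.natAbs_ne_zero.2 (mul_ne_zero two_ne_zero hΔ₁)⟩
      have hq3 : 3 ≤ q := by
        by_contra hlt
        have : q = 2 := by
          have := hq.two_le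
          omega
        apply hq2
        rw [this, Int.natAbs_mul]
        exact Dvd.dvd.mul_right (by norm_num) _
      have hqΔ : ¬ (q : ℤ) ∣ Δ₁ := by
        intro hd
        apply hq2
        rw [← Int.natCast_dvd]
        exact Dvd.dvd.mul_left hd _
      exact h q hq hq3 hqΔ (n + 1) hqF

/-- the conclusion of the dynamical Mordell-Lang conjecture for one orbit, with one common
difference for all subvarieties -/
def OrbitDML (α : σ → ℤ) : Prop :=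
  ∃ L : ℕ, 0 < L ∧ ∀ V : Set (MvPolynomial σ ℂ), ∃ E A : Finset ℕ,
    returnSet Φ α V = {n : ℕ | n ∈ E ∨ ∃ a ∈ A, ∃ k : ℕ, n = a + L * k}

lemma orbitDML_of_good (α : σ → ℤ) (p : ℕ) [Fact p.Prime] (hp3 : 3 ≤ p) (n₀ L : ℕ) (hL : 0 < L)
    (h : GoodOrbit p Φ α n₀ L) : OrbitDML Φ α := by
  refine ⟨L * affExp p σ, Nat.mul_pos hL (affExp_pos p), fun V => ?_⟩
  have h1 : Pool.Agent.Helper87.DMLP.FinOrAll (returnSet Φ α V) n₀ (L * affExp p σ) :=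
    goodOrbit_returnSet p hp3 Φ α n₀ L h V
  exact h1.explicit (Nat.mul_pos hL (affExp_pos p))

/-- **main theorem** -/
theorem orbitDML (hF : bind₁ Φ F = F * H)
    (hJ : ∃ Δ : ℤ, Δ ≠ 0 ∧ C Δ ∈ Ideal.span {jac Φ, F})
    (hH : ∃ Δ : ℤ, Δ ≠ 0 ∧ C Δ ∈ Ideal.span {H, F}) (α : σ → ℤ)
    (hα : (Set.range fun n : ℕ => eval ((evalMap Φ)^[n] α) H).Infinite) : OrbitDML Φ α := by
  obtain ⟨Δ₁, hΔ₁, h1⟩ := hJ
  obtain ⟨Δ₂, hΔ₂, h2⟩ := hH
  rw [Ideal.mem_span_pair] at h1 h2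
  obtain ⟨B₁, C₁, h1⟩ := h1
  obtain ⟨B₂, C₂, h2⟩ := h2
  rcases dichotomy Φ F H hF B₁ C₁ B₂ C₂ Δ₁ Δ₂ hΔ₁ hΔ₂ h1 h2 α with h | h
  · obtain ⟨p, hp, hp3, n₀, L, hL, hg⟩ := h
    exact orbitDML_of_good Φ α p hp3 n₀ L hL hg
  · exfalso
    obtain ⟨n₁, hn₁⟩ := h
    apply hα
    have hfin : {d : ℤ | d ∣ Δ₂}.Finite := by
      refine Set.Finite.subset (Set.finite_Icc (-|Δ₂|) |Δ₂|) ?_
      intro d hd
      have h3 : |d| ≤ |Δ₂| := Int.le_of_dvd (abs_pos.2 hΔ₂) ((abs_dvd_abs d Δ₂).2 hd)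
      exact abs_le.1 h3
    refine ((Set.finite_Iio n₁).image (fun n : ℕ => eval ((evalMap Φ)^[n] α) H) |>.union hfin).subset ?_
    rintro _ ⟨n, rfl⟩
    rcases lt_or_ge n n₁ with h | h
    · left; exact ⟨n, h, rfl⟩
    · right; exact hn₁ n h

end Pool.Agent.Helper87.Hyper
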