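import Pool.Agent.Helper53.SCD.Zlog

/-!
# The primes of degree one of a number field have divergent reciprocal sum
-/

set_option autoImplicit false

open Filter Topology NumberField Ideal

namespace Pool.Agent.Helper87.DMLP

open Pool.Agent.Helper70.Art Pool.Agent.H53SCD

theorem cnt_le (K : Type*) [Field K] [NumberField K] (p : ℕ) [hp : Fact p.Prime] :
    cnt K p ≤ Module.finrank ℚ K := by
  rw [← card_norm_prime K p]
  refine le_trans ?_ (card_primesOver_le K p)
  rw [← Nat.card_eq_fintype_card]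
  exact Nat.card_le_card_of_injective _ Subtype.val_injective

theorem tendsto_log_one_div :
    Tendsto (fun s : ℝ => Real.log (1 / (s - 1))) (𝓝[>] (1 : ℝ)) atTop := by
  refine Real.tendsto_log_atTop.comp ?_
  have h1 : Tendsto (fun s : ℝ => s - 1) (𝓝[>] (1 : ℝ)) (𝓝[>] (0 : ℝ)) := by
    refine tendsto_nhdsWithin_iff.2 ⟨?_, ?_⟩
    · have h2 : Tendsto (fun s : ℝ => s - 1) (𝓝 (1 : ℝ)) (𝓝 (1 - 1)) :=
        (continuous_id.sub continuous_const).tendsto 1
      rw [sub_self] at h2
      exact h2.mono_left nhdsWithin_le_nhds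
    · filter_upwards [self_mem_nhdsWithin] with s hs
      have hs1 : (1 : ℝ) < s := hs
      exact sub_pos.2 hs1
  refine (tendsto_inv_nhdsGT_zero.comp h1).congr fun s => ?_
  simp

theorem not_summable_degree_one (K : Type*) [Field K] [NumberField K] (M : ℕ) (Pri : Set ℕ)
    (hPri : ∀ q : ℕ, q.Prime → M < q → cnt K q ≠ 0 → q ∈ Pri) :
    ¬ Summable (fun q : Pri => (1 : ℝ) / (q : ℕ)) := by
  classical
  intro hsum
  obtain ⟨C, hC⟩ := cntp_log K
  set g : Nat.Primes → ℝ := fun p => (if (p : ℕ) ≤ M then (1 : ℝ) else 0) +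
    (if (p : ℕ) ∈ Pri then (1 : ℝ) / (p : ℕ) else 0) with hg
  have hg0 : ∀ p, 0 ≤ g p := by
    intro p
    rw [hg]
    dsimp only
    split_ifs <;> positivity
  have hgs : Summable g := by
    refine Summable.add ?_ ?_
    · refine summable_of_finite_support ?_
      refine (((Set.finite_Iic M).preimage
        (f := fun p : Nat.Primes => (p : ℕ)) Subtype.val_injective.injOn)).subset ?_
      intro p hp
      by_contra h
      apply hp
      change (if (p : ℕ) ≤ M then (1 : ℝ) else 0) = 0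
      rw [if_neg]
      exact h
    · have h1 : Summable (Set.indicator Pri fun n : ℕ => (1 : ℝ) / n) :=
        summable_subtype_iff_indicator.1 hsum
      refine (h1.comp_injective (i := fun p : Nat.Primes => (p : ℕ))
        Subtype.val_injective).congr fun p => ?_
      simp only [Function.comp_apply, Set.indicator_apply]
  have hbound : ∀ s : ℝ, 1 < s →
      ∑' p : Nat.Primes, (cnt K p : ℝ) * (p : ℝ) ^ (-s) ≤ (Module.finrank ℚ K : ℝ) * ∑' p, g p := by
    intro s hs
    rw [← tsum_mul_left]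
    refine (summable_cntp K hs).tsum_le_tsum (fun p => ?_) (hgs.mul_left _)
    have hp : Fact (p : ℕ).Prime := ⟨p.2⟩
    have hp2 : (2 : ℝ) ≤ (p : ℕ) := by exact_mod_cast p.2.two_le
    by_cases hc : cnt K (p : ℕ) = 0
    · rw [hc, Nat.cast_zero, zero_mul]
      exact mul_nonneg (Nat.cast_nonneg _) (hg0 p)
    · have h1 : ((cnt K (p : ℕ) : ℕ) : ℝ) ≤ Module.finrank ℚ K := by
        exact_mod_cast cnt_le K (p : ℕ)
      have h2 : ((p : ℕ) : ℝ) ^ (-s) ≤ g p := by
        have h3 : ((p : ℕ) : ℝ) ^ (-s) ≤ 1 / (p : ℕ) := by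
          calc ((p : ℕ) : ℝ) ^ (-s) ≤ ((p : ℕ) : ℝ) ^ (-1 : ℝ) :=
                Real.rpow_le_rpow_of_exponent_le (by linarith) (by linarith)
            _ = 1 / (p : ℕ) := by rw [Real.rpow_neg_one, one_div]
        have h4 : (1 : ℝ) / (p : ℕ) ≤ 1 := by
          rw [div_le_one (by linarith)]
          linarith
        have h5 : (0 : ℝ) ≤ (1 : ℝ) / (p : ℕ) := by positivity
        rw [hg]
        dsimp only
        by_cases hM : (p : ℕ) ≤ M
        · rw [if_pos hM]
          split_ifs <;> linarith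
        · rw [if_neg hM, if_pos (hPri _ p.2 (not_le.1 hM) hc)]
          linarith
      exact mul_le_mul h1 h2 (by positivity) (Nat.cast_nonneg _)
  have h3 := tendsto_log_one_div.eventually_gt_atTop
    ((Module.finrank ℚ K : ℝ) * ∑' p, g p + C)
  obtain ⟨s, hs1, hs2, hs3⟩ := (hC.and (h3.and self_mem_nhdsWithin)).exists
  have hs : (1 : ℝ) < s := hs3
  have h4 := hbound s hs
  rw [abs_le] at hs1
  linarith [hs1.1]

theorem exists_hom_zmod (K : Type*) [Field K] [NumberField K] {q : ℕ} (hq : q.Prime)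
    (h : cnt K q ≠ 0) : Nonempty (𝓞 K →+* ZMod q) := by
  obtain ⟨⟨⟨I, hI⟩⟩, -⟩ := Nat.card_ne_zero.1 h
  have hc : Nat.card (𝓞 K ⧸ I) = q := by
    rw [← hI]
    exact (Ideal.absNorm_apply I).symm
  have hfin : Finite (𝓞 K ⧸ I) := Nat.finite_of_card_ne_zero (by rw [hc]; exact hq.ne_zero)
  have := Fintype.ofFinite (𝓞 K ⧸ I)
  rw [Nat.card_eq_fintype_card] at hc
  exact ⟨((ZMod.ringEquivOfPrime (𝓞 K ⧸ I) hq hc).symm : (𝓞 K ⧸ I) →+* ZMod q).comp
    (Ideal.Quotient.mk I)⟩

end Pool.Agent.Helper87.DMLP
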