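import Pool.Agent.Helper86.DML.Embed

/-!
# Embeddings of a finitely generated ring into the `q`-adic integers
-/

set_option autoImplicit false

open NumberField MvPolynomial Cardinal

namespace Pool.Agent.Helper87.DMLP

open Pool.Agent.Helper86.DML

/-- Bezout identity for a monic separable polynomial -/
theorem exists_bezout {S : Type*} [CommRing S] [IsDomain S] (g : Polynomial S)
    (hg : IsCoprime (g.map (algebraMap S (FractionRing S)))
      (Polynomial.derivative (g.map (algebraMap S (FractionRing S))))) :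
    ∃ (U V : Polynomial S) (D : S), D ≠ 0 ∧ U * g + V * Polynomial.derivative g = Polynomial.C D := by
  obtain ⟨a, b, hab⟩ := hg
  obtain ⟨d₁, h1⟩ := IsLocalization.integerNormalization_map_to_map (nonZeroDivisors S) a
  obtain ⟨d₂, h2⟩ := IsLocalization.integerNormalization_map_to_map (nonZeroDivisors S) b
  refine ⟨Polynomial.C (d₂ : S) * IsLocalization.integerNormalization (nonZeroDivisors S) a,
    Polynomial.C (d₁ : S) * IsLocalization.integerNormalization (nonZeroDivisors S) b,
    (d₁ : S) * d₂, mul_ne_zero (nonZeroDivisors.coe_ne_zero d₁) (nonZeroDivisors.coe_ne_zero d₂), ?_⟩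
  apply Polynomial.map_injective _ (IsFractionRing.injective S (FractionRing S))
  rw [Polynomial.map_add, Polynomial.map_mul, Polynomial.map_mul, Polynomial.map_mul,
    Polynomial.map_mul, h1, h2, Polynomial.map_C, Polynomial.map_C, Polynomial.map_C,
    ← Polynomial.derivative_map]
  have h3 : ∀ (d : S) (c : Polynomial (FractionRing S)),
      d • c = Polynomial.C (algebraMap S (FractionRing S) d) * c := by
    intro d c
    rw [← algebraMap_smul (FractionRing S) d c, Polynomial.smul_eq_C_mul]
  rw [h3, h3, map_mul, map_mul]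
  linear_combination (Polynomial.C (algebraMap S (FractionRing S) (d₁ : S)) *
    Polynomial.C (algebraMap S (FractionRing S) (d₂ : S))) * hab

theorem exists_number_field (A : Finset ℂ) :
    ∃ (K : Type) (_ : Field K) (_ : NumberField K) (M : ℕ), ∀ (q : ℕ) [Fact q.Prime],
      M < q → Nonempty (𝓞 K →+* ZMod q) →
      ∃ ι : Subring.closure (A : Set ℂ) →+* ℤ_[q], Function.Injective ι := by
  classical
  obtain ⟨t, ht⟩ := exists_isTranscendenceBasis ℤ ℂ
  let i1 : Algebra (MvPolynomial t ℤ) ℂ := (aeval ((↑) : t → ℂ)).toRingHom.toAlgebra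
  have hi1 : ∀ f : MvPolynomial t ℤ, algebraMap (MvPolynomial t ℤ) ℂ f = aeval ((↑) : t → ℂ) f :=
    fun f => rfl
  have hinj1 : Function.Injective (algebraMap (MvPolynomial t ℤ) ℂ) :=
    algebraicIndependent_iff_injective_aeval.mp ht.1
  have halg : Algebra.IsAlgebraic (MvPolynomial t ℤ) ℂ := by
    have h1 := ht.isAlgebraic
    constructor
    intro z
    obtain ⟨P, hP, hPz⟩ := h1.1 z
    let e := ht.1.aevalEquiv
    refine ⟨P.map (e.symm : _ →+* MvPolynomial t ℤ), ?_, ?_⟩
    · rw [Ne, Polynomial.map_eq_zero_iff e.symm.injective]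
      exact hP
    · rw [Polynomial.aeval_def, Polynomial.eval₂_map]
      rw [Polynomial.aeval_def] at hPz
      rw [← hPz]
      congr 1
      ext u
      obtain ⟨f, rfl⟩ := e.surjective u
      simp only [RingHom.coe_comp, Function.comp_apply, RingHom.coe_coe, AlgEquiv.symm_apply_apply,
        hi1]
      exact (ht.1.algebraMap_aevalEquiv f).symm
  have hfs : FaithfulSMul (MvPolynomial t ℤ) ℂ :=
    (faithfulSMul_iff_algebraMap_injective _ _).mpr hinj1
  let i2 : Algebra (FractionRing (MvPolynomial t ℤ)) ℂ :=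
    FractionRing.liftAlgebra (MvPolynomial t ℤ) ℂ
  have i3 : IsScalarTower (MvPolynomial t ℤ) (FractionRing (MvPolynomial t ℤ)) ℂ :=
    FractionRing.isScalarTower_liftAlgebra _ _
  have halgE : Algebra.IsAlgebraic (FractionRing (MvPolynomial t ℤ)) ℂ :=
    ⟨fun z => (halg.isAlgebraic z).extendScalars
      (IsFractionRing.injective (MvPolynomial t ℤ) (FractionRing (MvPolynomial t ℤ)))⟩
  have hchar : CharZero (FractionRing (MvPolynomial t ℤ)) := by
    exact charZero_of_injective_algebraMap (IsFractionRing.injective (MvPolynomial t ℤ)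
      (FractionRing (MvPolynomial t ℤ)))
  let F : IntermediateField (FractionRing (MvPolynomial t ℤ)) ℂ :=
    IntermediateField.adjoin (FractionRing (MvPolynomial t ℤ)) (A : Set ℂ)
  have hF : FiniteDimensional (FractionRing (MvPolynomial t ℤ)) F :=
    IntermediateField.finiteDimensional_adjoin (fun z _ => (halgE.isAlgebraic z).isIntegral)
  obtain ⟨θ₀, hθ₀⟩ := Field.exists_primitive_element (FractionRing (MvPolynomial t ℤ)) F
  -- a primitive element in `ℂ`, integral over the polynomial ring
  have hθ₁ : IntermediateField.adjoin (FractionRing (MvPolynomial t ℤ)) {(θ₀ : ℂ)} = F := by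
    have h1 := congrArg IntermediateField.lift hθ₀
    rw [IntermediateField.lift_adjoin_simple, IntermediateField.lift_top] at h1
    exact h1
  obtain ⟨c, hc, hcint⟩ := (halg.isAlgebraic (θ₀ : ℂ)).exists_integral_multiple
  obtain ⟨θ, hθdef⟩ : ∃ θ : ℂ, θ = c • (θ₀ : ℂ) := ⟨_, rfl⟩
  rw [← hθdef] at hcint
  have hθF : IntermediateField.adjoin (FractionRing (MvPolynomial t ℤ)) {θ} = F := by
    rw [← hθ₁]
    apply le_antisymm
    · rw [IntermediateField.adjoin_simple_le_iff, hθdef, Algebra.smul_def,
        IsScalarTower.algebraMap_apply (MvPolynomial t ℤ) (FractionRing (MvPolynomial t ℤ)) ℂ]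
      exact mul_mem (IntermediateField.algebraMap_mem _ _)
        (IntermediateField.mem_adjoin_simple_self _ _)
    · rw [IntermediateField.adjoin_simple_le_iff]
      have hc0 : algebraMap (FractionRing (MvPolynomial t ℤ)) ℂ
          (algebraMap (MvPolynomial t ℤ) (FractionRing (MvPolynomial t ℤ)) c) ≠ 0 := by
        rw [← IsScalarTower.algebraMap_apply, Ne, map_eq_zero_iff _ hinj1]
        exact hc
      have h2 : (θ₀ : ℂ) = (algebraMap (FractionRing (MvPolynomial t ℤ)) ℂ
          (algebraMap (MvPolynomial t ℤ) (FractionRing (MvPolynomial t ℤ)) c))⁻¹ * θ := by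
        rw [hθdef, Algebra.smul_def,
          IsScalarTower.algebraMap_apply (MvPolynomial t ℤ) (FractionRing (MvPolynomial t ℤ)) ℂ,
          inv_mul_cancel_left₀ hc0]
      rw [h2]
      exact mul_mem (inv_mem (IntermediateField.algebraMap_mem _ _))
        (IntermediateField.mem_adjoin_simple_self _ _)
  -- the minimal polynomial
  set g : Polynomial (MvPolynomial t ℤ) := minpoly (MvPolynomial t ℤ) θ with hg
  have hgm : g.Monic := minpoly.monic hcint
  have hgE : minpoly (FractionRing (MvPolynomial t ℤ)) θ =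
      g.map (algebraMap (MvPolynomial t ℤ) (FractionRing (MvPolynomial t ℤ))) :=
    minpoly.isIntegrallyClosed_eq_field_fractions' (FractionRing (MvPolynomial t ℤ)) hcint
  have hθE : IsIntegral (FractionRing (MvPolynomial t ℤ)) θ := hcint.tower_top
  have hcop : IsCoprime (g.map (algebraMap (MvPolynomial t ℤ) (FractionRing (MvPolynomial t ℤ))))
      (Polynomial.derivative
        (g.map (algebraMap (MvPolynomial t ℤ) (FractionRing (MvPolynomial t ℤ))))) := by
    rw [← hgE]
    exact (minpoly.irreducible hθE).separable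
  obtain ⟨U, V, D, hD, hUV⟩ := exists_bezout g hcop
  obtain ⟨a, ha, hint⟩ := Algebra.IsAlgebraic.exists_integral_multiples (MvPolynomial t ℤ) A
  obtain ⟨x, hx⟩ : ∃ x : t → ℤ, eval x (D * a) ≠ 0 := by
    by_contra hcon
    push Not at hcon
    apply mul_ne_zero hD ha
    apply MvPolynomial.funext
    intro x
    rw [hcon x, map_zero]
  -- the specialised polynomial and its root
  set gx : Polynomial ℤ := g.map (eval x) with hgx
  have hgxm : gx.Monic := hgm.map _
  have hdeg : gx.natDegree = g.natDegree := hgm.natDegree_map _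
  have hdeg0 : 0 < g.natDegree := minpoly.natDegree_pos hcint
  obtain ⟨β, hβ⟩ := IsAlgClosed.exists_root (gx.map (Int.castRingHom ℂ)) (by
    rw [hgxm.degree_map, Polynomial.degree_eq_natDegree hgxm.ne_zero, hdeg]
    exact_mod_cast hdeg0.ne')
  rw [Polynomial.IsRoot.def, Polynomial.eval_map] at hβ
  have hβint : IsIntegral ℤ β := ⟨gx, hgxm, hβ⟩
  have hβQ : IsIntegral ℚ β := hβint.tower_top
  have hfd : FiniteDimensional ℚ (IntermediateField.adjoin ℚ {β}) :=
    IntermediateField.adjoin.finiteDimensional hβQ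
  have hnf : NumberField (IntermediateField.adjoin ℚ {β}) := ⟨⟩
  let β₁ : IntermediateField.adjoin ℚ {β} := ⟨β, IntermediateField.mem_adjoin_simple_self ℚ β⟩
  have hβ₁ : Polynomial.eval₂ (Int.castRingHom (IntermediateField.adjoin ℚ {β})) β₁ gx = 0 := by
    apply (IntermediateField.adjoin ℚ {β}).val.toRingHom.injective
    rw [Polynomial.hom_eval₂, map_zero]
    have h1 : (IntermediateField.adjoin ℚ {β}).val.toRingHom.comp
      (Int.castRingHom (IntermediateField.adjoin ℚ {β})) = Int.castRingHom ℂ := RingHom.ext_int _ _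
    rw [h1]
    exact hβ
  let b₀ : 𝓞 (IntermediateField.adjoin ℚ {β}) := ⟨β₁, ⟨gx, hgxm, hβ₁⟩⟩
  have hb₀ : Polynomial.eval₂ (Int.castRingHom (𝓞 (IntermediateField.adjoin ℚ {β}))) b₀ gx = 0 := by
    apply RingOfIntegers.coe_injective
    change algebraMap (𝓞 (IntermediateField.adjoin ℚ {β})) (IntermediateField.adjoin ℚ {β}) _ =
      algebraMap (𝓞 (IntermediateField.adjoin ℚ {β})) (IntermediateField.adjoin ℚ {β}) 0
    rw [Polynomial.hom_eval₂, map_zero]
    have h1 : (algebraMap (𝓞 (IntermediateField.adjoin ℚ {β}))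
      (IntermediateField.adjoin ℚ {β})).comp
      (Int.castRingHom (𝓞 (IntermediateField.adjoin ℚ {β}))) =
      Int.castRingHom (IntermediateField.adjoin ℚ {β}) := RingHom.ext_int _ _
    rw [h1]
    exact hβ₁
  refine ⟨IntermediateField.adjoin ℚ {β}, inferInstance, hnf, (eval x (D * a)).natAbs, ?_⟩
  intro q hq hMq ⟨ψ⟩
  have hqp : q.Prime := hq.out
  have hb : Polynomial.eval₂ (Int.castRingHom (ZMod q)) (ψ b₀) gx = 0 := by
    have h1 := congrArg ψ hb₀
    rw [Polynomial.hom_eval₂, map_zero] at h1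
    have h2 : ψ.comp (Int.castRingHom (𝓞 (IntermediateField.adjoin ℚ {β}))) =
      Int.castRingHom (ZMod q) := RingHom.ext_int _ _
    rw [h2] at h1
    exact h1
  have hxq : ((eval x (D * a) : ℤ) : ZMod q) ≠ 0 := by
    intro h0
    rw [ZMod.intCast_zmod_eq_zero_iff_dvd] at h0
    have h1 := Int.le_of_dvd (Int.natAbs_pos.mpr hx |> fun h => by
      exact_mod_cast h : (0 : ℤ) < ((eval x (D * a)).natAbs : ℤ)) ((Int.dvd_natAbs).mpr h0)
    omega
  rw [map_mul, Int.cast_mul] at hxq
  have hDq : ((eval x D : ℤ) : ZMod q) ≠ 0 := left_ne_zero_of_mul hxq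
  have haq : ((eval x a : ℤ) : ZMod q) ≠ 0 := right_ne_zero_of_mul hxq
  -- the algebraically independent point
  obtain ⟨s, hs1, hs2, hs3⟩ := exists_big_family q
  obtain ⟨e⟩ : Nonempty (t ↪ s) := by
    rw [← Cardinal.le_def]
    have h1 : #t ≤ #ℂ := Cardinal.mk_set_le t
    rw [Cardinal.mk_complex] at h1
    exact h1.trans hs3
  let τ : t → ℤ_[q] := fun i => ⟨(e i : ℚ_[q]), (hs1 _ (e i).2).le⟩
  have hτ : ∀ i, PadicInt.toZMod (τ i) = 0 := by
    intro i
    rw [← RingHom.mem_ker, PadicInt.ker_toZMod, IsLocalRing.mem_maximalIdeal,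
      PadicInt.mem_nonunits]
    exact hs1 _ (e i).2
  let y : t → ℤ_[q] := fun i => (x i : ℤ_[q]) + τ i
  have hτind : AlgebraicIndependent ℤ τ := by
    have h1 : AlgebraicIndependent ℤ (fun i => ((e i : s) : ℚ_[q])) := hs2.comp e e.injective
    have h2 : AlgebraicIndependent ℤ ((PadicInt.Coe.ringHom (p := q)).toIntAlgHom ∘ τ) := h1
    exact AlgebraicIndependent.of_comp _ h2
  have hy : AlgebraicIndependent ℤ y := AlgebraicIndependent.add_int hτind x
  let i4 : Algebra (MvPolynomial t ℤ) ℤ_[q] := (aeval y).toRingHom.toAlgebra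
  have hi4 : ∀ f : MvPolynomial t ℤ, algebraMap (MvPolynomial t ℤ) ℤ_[q] f = aeval y f :=
    fun f => rfl
  let i5 : Algebra (MvPolynomial t ℤ) ℚ_[q] :=
    ((PadicInt.Coe.ringHom (p := q)).comp (aeval y).toRingHom).toAlgebra
  have hi5 : algebraMap (MvPolynomial t ℤ) ℚ_[q] =
    (PadicInt.Coe.ringHom (p := q)).comp (algebraMap (MvPolynomial t ℤ) ℤ_[q]) := rfl
  have hcoe : Function.Injective (PadicInt.Coe.ringHom (p := q)) := Subtype.val_injective
  have hinj5 : Function.Injective (algebraMap (MvPolynomial t ℤ) ℚ_[q]) :=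
    hcoe.comp (algebraicIndependent_iff_injective_aeval.mp hy)
  have hfs5 : FaithfulSMul (MvPolynomial t ℤ) ℚ_[q] :=
    (faithfulSMul_iff_algebraMap_injective _ _).mpr hinj5
  let i6 : Algebra (FractionRing (MvPolynomial t ℤ)) ℚ_[q] :=
    FractionRing.liftAlgebra (MvPolynomial t ℤ) ℚ_[q]
  have i7 : IsScalarTower (MvPolynomial t ℤ) (FractionRing (MvPolynomial t ℤ)) ℚ_[q] :=
    FractionRing.isScalarTower_liftAlgebra _ _
  -- reduction
  have hred : (PadicInt.toZMod (p := q)).comp (algebraMap (MvPolynomial t ℤ) ℤ_[q]) =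
      (Int.castRingHom (ZMod q)).comp (eval x) := by
    apply MvPolynomial.ringHom_ext
    · intro r
      rw [RingHom.comp_apply, hi4, RingHom.comp_apply, eval_C, aeval_C]
      simp
    · intro i
      rw [RingHom.comp_apply, hi4, RingHom.comp_apply, eval_X, aeval_X]
      change PadicInt.toZMod ((x i : ℤ_[q]) + τ i) = _
      rw [map_add, hτ, add_zero]
      simp
  obtain ⟨a₀, ha₀⟩ := ZMod.ringHom_surjective (PadicInt.toZMod (p := q)) (ψ b₀)
  have hevalred : ∀ P : Polynomial (MvPolynomial t ℤ),
      PadicInt.toZMod (Polynomial.aeval a₀ P) =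
        Polynomial.eval₂ (Int.castRingHom (ZMod q)) (ψ b₀) (P.map (eval x)) := by
    intro P
    rw [Polynomial.aeval_def, Polynomial.hom_eval₂, hred, ha₀, Polynomial.eval₂_map]
  have h0 : PadicInt.toZMod (Polynomial.aeval a₀ g) = 0 := by
    rw [hevalred]
    exact hb
  have h1 : PadicInt.toZMod (Polynomial.aeval a₀ (Polynomial.derivative g)) ≠ 0 := by
    intro h1
    have h2 := congrArg (fun P => PadicInt.toZMod (Polynomial.aeval a₀ P)) hUV
    rw [map_add, map_mul, map_mul, map_add, map_mul, map_mul, h0, h1, mul_zero, mul_zero,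
      add_zero, hevalred, Polynomial.map_C, Polynomial.eval₂_C] at h2
    exact hDq h2.symm
  have hnorm0 : ‖Polynomial.aeval a₀ g‖ < 1 := by
    rw [← PadicInt.mem_nonunits, ← IsLocalRing.mem_maximalIdeal, ← PadicInt.ker_toZMod,
      RingHom.mem_ker]
    exact h0
  have hnorm1 : ‖Polynomial.aeval a₀ (Polynomial.derivative g)‖ = 1 := by
    rw [← PadicInt.isUnit_iff]
    by_contra hnu
    apply h1
    rw [← RingHom.mem_ker, PadicInt.ker_toZMod, IsLocalRing.mem_maximalIdeal, mem_nonunits_iff]
    exact hnu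
  obtain ⟨z, hz, -⟩ := hensels_lemma (F := g) (a := a₀) (by rw [hnorm1]; simpa using hnorm0)
  -- the embedding of `F`
  have hroot : Polynomial.aeval (z : ℚ_[q]) (minpoly (FractionRing (MvPolynomial t ℤ)) θ) = 0 := by
    rw [hgE, Polynomial.aeval_map_algebraMap, Polynomial.aeval_def, hi5]
    have h2 := congrArg (PadicInt.Coe.ringHom (p := q)) hz
    rw [Polynomial.aeval_def, Polynomial.hom_eval₂, map_zero] at h2
    exact h2
  let σ : IntermediateField.adjoin (FractionRing (MvPolynomial t ℤ)) {θ}
      →ₐ[FractionRing (MvPolynomial t ℤ)] ℚ_[q] :=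
    (IntermediateField.algHomAdjoinIntegralEquiv (FractionRing (MvPolynomial t ℤ)) hθE).symm
      ⟨(z : ℚ_[q]), by
        rw [Polynomial.mem_aroots]
        exact ⟨minpoly.ne_zero hθE, hroot⟩⟩
  have hAF : ∀ r ∈ Subring.closure (A : Set ℂ),
      r ∈ IntermediateField.adjoin (FractionRing (MvPolynomial t ℤ)) {θ} := by
    intro r hr
    rw [hθF]
    have hle : Subring.closure (A : Set ℂ) ≤ F.toSubfield.toSubring := by
      rw [Subring.closure_le]
      exact IntermediateField.subset_adjoin _ _
    exact hle hr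
  let j : Subring.closure (A : Set ℂ) →+*
      IntermediateField.adjoin (FractionRing (MvPolynomial t ℤ)) {θ} :=
    { toFun := fun r => ⟨r.1, hAF r.1 r.2⟩
      map_one' := rfl
      map_mul' := fun _ _ => rfl
      map_zero' := rfl
      map_add' := fun _ _ => rfl }
  have hσS : ∀ f : MvPolynomial t ℤ, σ (algebraMap (FractionRing (MvPolynomial t ℤ)) _
      (algebraMap (MvPolynomial t ℤ) (FractionRing (MvPolynomial t ℤ)) f)) =
      ((algebraMap (MvPolynomial t ℤ) ℤ_[q] f : ℤ_[q]) : ℚ_[q]) := by
    intro f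
    rw [AlgHom.commutes, ← IsScalarTower.algebraMap_apply]
    rfl
  have hAint : ∀ r (hr : r ∈ Subring.closure (A : Set ℂ)),
      ‖σ ⟨r, hAF r hr⟩‖ ≤ 1 := by
    intro r hr
    induction hr using Subring.closure_induction with
    | mem r hr =>
      have hrA : r ∈ A := hr
      obtain ⟨P, hPm, hP⟩ := hint r hrA
      have hr' := hAF r (Subring.subset_closure hr)
      let w : IntermediateField.adjoin (FractionRing (MvPolynomial t ℤ)) {θ} := ⟨r, hr'⟩
      let w' : IntermediateField.adjoin (FractionRing (MvPolynomial t ℤ)) {θ} :=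
        algebraMap (FractionRing (MvPolynomial t ℤ)) _
          (algebraMap (MvPolynomial t ℤ) (FractionRing (MvPolynomial t ℤ)) a) * w
      have hw' : Polynomial.eval₂ ((algebraMap (FractionRing (MvPolynomial t ℤ))
          (IntermediateField.adjoin (FractionRing (MvPolynomial t ℤ)) {θ})).comp
          (algebraMap (MvPolynomial t ℤ) (FractionRing (MvPolynomial t ℤ)))) w' P = 0 := by
        apply (IntermediateField.adjoin (FractionRing (MvPolynomial t ℤ))
          {θ}).val.toRingHom.injective
        rw [Polynomial.hom_eval₂, map_zero, ← hP, Algebra.smul_def,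
          IsScalarTower.algebraMap_eq (MvPolynomial t ℤ) (FractionRing (MvPolynomial t ℤ)) ℂ]
        rfl
      have hσw' : IsIntegral ℤ_[q] (σ w') := by
        refine ⟨P.map (algebraMap (MvPolynomial t ℤ) ℤ_[q]), hPm.map _, ?_⟩
        rw [Polynomial.eval₂_map]
        have h2 := congrArg σ.toRingHom hw'
        rw [Polynomial.hom_eval₂, map_zero] at h2
        rw [← h2]
        congr 1
        exact RingHom.ext fun f => (hσS f).symm
      obtain ⟨v, hv⟩ := IsIntegrallyClosed.isIntegral_iff.1 hσw'
      have h3 : ‖σ w'‖ ≤ 1 := by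
        rw [← hv]
        exact v.2
      have h4 : σ w' = ((algebraMap (MvPolynomial t ℤ) ℤ_[q] a : ℤ_[q]) : ℚ_[q]) * σ w := by
        rw [map_mul, hσS]
      have h5 : ‖((algebraMap (MvPolynomial t ℤ) ℤ_[q] a : ℤ_[q]) : ℚ_[q])‖ = 1 := by
        change ‖(algebraMap (MvPolynomial t ℤ) ℤ_[q] a : ℤ_[q])‖ = 1
        rw [← PadicInt.isUnit_iff]
        by_contra hnu
        rw [← mem_nonunits_iff, ← IsLocalRing.mem_maximalIdeal, ← PadicInt.ker_toZMod,
          RingHom.mem_ker] at hnu
        have h6 := congrArg (fun φ => φ a) hred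
        rw [RingHom.comp_apply, hnu, RingHom.comp_apply] at h6
        exact haq h6.symm
      rw [h4, norm_mul, h5, one_mul] at h3
      exact h3
    | zero =>
      have h2 : (⟨0, hAF 0 (Subring.zero_mem _)⟩ :
        IntermediateField.adjoin (FractionRing (MvPolynomial t ℤ)) {θ}) = 0 := rfl
      rw [h2, map_zero, norm_zero]
      exact zero_le_one
    | one =>
      have h2 : (⟨1, hAF 1 (Subring.one_mem _)⟩ :
        IntermediateField.adjoin (FractionRing (MvPolynomial t ℤ)) {θ}) = 1 := rfl
      rw [h2, map_one, norm_one]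
    | add r r' hr hr' h h' =>
      have h2 : (⟨r + r', hAF _ (Subring.add_mem _ hr hr')⟩ :
        IntermediateField.adjoin (FractionRing (MvPolynomial t ℤ)) {θ}) =
        ⟨r, hAF r hr⟩ + ⟨r', hAF r' hr'⟩ := rfl
      rw [h2, map_add]
      exact (IsUltrametricDist.norm_add_le_max _ _).trans (max_le h h')
    | neg r hr h =>
      have h2 : (⟨-r, hAF _ (Subring.neg_mem _ hr)⟩ :
        IntermediateField.adjoin (FractionRing (MvPolynomial t ℤ)) {θ}) =
        -⟨r, hAF r hr⟩ := rfl
      rw [h2, map_neg, norm_neg]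
      exact h
    | mul r r' hr hr' h h' =>
      have h2 : (⟨r * r', hAF _ (Subring.mul_mem _ hr hr')⟩ :
        IntermediateField.adjoin (FractionRing (MvPolynomial t ℤ)) {θ}) =
        ⟨r, hAF r hr⟩ * ⟨r', hAF r' hr'⟩ := rfl
      rw [h2, map_mul, norm_mul]
      exact mul_le_one₀ h (norm_nonneg _) h'
  refine ⟨{ toFun := fun r => ⟨σ (j r), hAint r.1 r.2⟩
            map_one' := ?_
            map_mul' := ?_
            map_zero' := ?_
            map_add' := ?_ }, ?_⟩
  · exact Subtype.ext (by simp)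
  · intro r r'
    exact Subtype.ext (by simp)
  · exact Subtype.ext (by simp)
  · intro r r'
    exact Subtype.ext (by simp)
  · intro r r' h
    have h2 : σ (j r) = σ (j r') := congrArg Subtype.val h
    have h3 := σ.toRingHom.injective h2
    have h4 : ((j r : IntermediateField.adjoin (FractionRing (MvPolynomial t ℤ)) {θ}) : ℂ) =
      (j r' : IntermediateField.adjoin (FractionRing (MvPolynomial t ℤ)) {θ}) := by rw [h3]
    exact Subtype.ext h4

end Pool.Agent.Helper87.DMLP
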