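import Mathlib
import Pool.Agent.Helper87.DML.CountCyc

set_option autoImplicit false

namespace Pool.Agent.Helper87.DMLP

open Finset Function
open Pool.Agent.Helper87.DML (IsCyc card_labels)

section Count

variable {X : Type} [Fintype X] [DecidableEq X] {Y : Type} [Fintype Y] [DecidableEq Y]

/-- Triples of a self-map `f`, a labelling `D` and a starting point `a` such that all cyclic points
on the orbit of `a` have labels in `U`. -/
noncomputable def goodTriples (X Y : Type) [Fintype X] [DecidableEq X] [Fintype Y] [DecidableEq Y]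
    (U : Finset Y) : Finset (((X → X) × (X → Y)) × X) := by
  classical
  exact univ.filter (fun t => ∀ n, IsCyc t.1.1 (t.1.1^[n] t.2) → t.1.2 (t.1.1^[n] t.2) ∈ U)

/-- Triples with tail plus cycle length `m` and cycle length `k`, good labels on the cycle. -/
noncomputable def rho (X Y : Type) [Fintype X] [DecidableEq X] [Fintype Y] [DecidableEq Y]
    (U : Finset Y) (m k : ℕ) : Finset (((X → X) × (X → Y)) × X) := by
  classical
  exact univ.filter (fun t => (∀ i < m, ∀ j < m, t.1.1^[i] t.2 = t.1.1^[j] t.2 → i = j) ∧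
    t.1.1^[m] t.2 = t.1.1^[m - k] t.2 ∧ ∀ j, m - k ≤ j → j < m → t.1.2 (t.1.1^[j] t.2) ∈ U)

lemma mem_rho (U : Finset Y) (m k : ℕ) (t : ((X → X) × (X → Y)) × X) :
    t ∈ rho X Y U m k ↔ (∀ i < m, ∀ j < m, t.1.1^[i] t.2 = t.1.1^[j] t.2 → i = j) ∧
    t.1.1^[m] t.2 = t.1.1^[m - k] t.2 ∧ ∀ j, m - k ≤ j → j < m → t.1.2 (t.1.1^[j] t.2) ∈ U := by
  simp [rho]

lemma mem_goodTriples (U : Finset Y) (t : ((X → X) × (X → Y)) × X) :
    t ∈ goodTriples X Y U ↔ ∀ n, IsCyc t.1.1 (t.1.1^[n] t.2) → t.1.2 (t.1.1^[n] t.2) ∈ U := by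
  simp [goodTriples]

lemma rho_subset (U : Finset Y) (m k : ℕ) (hk : 1 ≤ k) (hkm : k ≤ m) :
    rho X Y U m k ⊆ goodTriples X Y U := by
  rintro ⟨⟨f, D⟩, a⟩ ht
  rw [mem_rho] at ht
  obtain ⟨_, h2, h3⟩ := ht
  rw [mem_goodTriples]
  simp only at h2 h3 ⊢
  -- all points from time `m - k` on have good labels
  have hper : ∀ n, m - k ≤ n → f^[n + k] a = f^[n] a := by
    intro n hn
    have e1 : n + k = (n - (m - k)) + m := by omega
    have e2 : n = (n - (m - k)) + (m - k) := by omega
    rw [e1, iterate_add_apply, h2, ← iterate_add_apply, ← e2]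
  have hlab : ∀ n, m - k ≤ n → D (f^[n] a) ∈ U := by
    intro n
    induction n using Nat.strong_induction_on with
    | _ n ih =>
      intro hn
      by_cases hnm : n < m
      · exact h3 n hn hnm
      · have e1 : n = (n - k) + k := by omega
        rw [e1, hper _ (by omega)]
        exact ih (n - k) (by omega) (by omega)
  intro n hcyc
  obtain ⟨r, hr, hrx⟩ := hcyc
  have h4 : ∀ q, f^[n + r * q] a = f^[n] a := by
    intro q
    rw [add_comm, iterate_add_apply, iterate_mul]
    exact iterate_fixed hrx q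
  have h5 := h4 (m - k)
  rw [← h5]
  apply hlab
  have : m - k ≤ r * (m - k) := Nat.le_mul_of_pos_left _ hr
  omega

lemma rho_disjoint (U : Finset Y) {m k m' k' : ℕ} (hk : 1 ≤ k) (hkm : k ≤ m) (hk' : 1 ≤ k')
    (hkm' : k' ≤ m') (hne : (m, k) ≠ (m', k')) : Disjoint (rho X Y U m k) (rho X Y U m' k') := by
  rw [disjoint_left]
  intro t ht ht'
  rw [mem_rho] at ht ht'
  obtain ⟨h1, h2, _⟩ := ht
  obtain ⟨h1', h2', _⟩ := ht'
  have hmm : m = m' := by
    rcases lt_trichotomy m m' with h | h | h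
    · have := h1' m h (m - k) (by omega) h2
      omega
    · exact h
    · have := h1 m' h (m' - k') (by omega) h2'
      omega
  subst hmm
  have h3 := h1 (m - k) (by omega) (m - k') (by omega) (h2.symm.trans h2')
  apply hne
  have : k = k' := by omega
  rw [this]

/-- Number of functions with prescribed values on `S`. -/
lemma card_fixed (S : Finset X) (g : X → X) :
    (univ.filter (fun f : X → X => ∀ x ∈ S, f x = g x)).card =
      Fintype.card X ^ (Fintype.card X - S.card) := by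
  classical
  have h1 : univ.filter (fun f : X → X => ∀ x ∈ S, f x = g x) =
      Fintype.piFinset (fun x => if x ∈ S then {g x} else univ) := by
    ext D
    rw [mem_filter, Fintype.mem_piFinset]
    simp only [mem_univ, true_and]
    constructor
    · intro h x
      by_cases hx : x ∈ S
      · simpa [hx] using h x hx
      · simp [hx]
    · intro h x hx
      simpa [hx] using h x
  rw [h1, Fintype.card_piFinset]
  have h2 : ∀ x, (if x ∈ S then {g x} else (univ : Finset X)).card =
      if x ∈ S then 1 else Fintype.card X := by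
    intro x; split_ifs <;> simp
  rw [prod_congr rfl (fun x _ => h2 x), prod_ite, prod_const, prod_const, one_pow, one_mul]
  congr 1
  have : univ.filter (fun x => x ∉ S) = Sᶜ := by ext x; simp
  rw [this, card_compl]

/-- The successor along a sequence closing up at distance `k` from the end. -/
def nxt (m k : ℕ) (hk : 1 ≤ k) (hkm : k ≤ m) (i : Fin m) : Fin m :=
  if h : (i : ℕ) + 1 < m then ⟨i + 1, h⟩ else ⟨m - k, by omega⟩

lemma card_rho_ge (U : Finset Y) (m k : ℕ) (hk : 1 ≤ k) (hkm : k ≤ m) :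
    (Fintype.card X).descFactorial m * (Fintype.card X ^ (Fintype.card X - m) *
      (U.card ^ k * Fintype.card Y ^ (Fintype.card X - k))) ≤ (rho X Y U m k).card := by
  classical
  rcases isEmpty_or_nonempty X with hX | hX
  · have h0 : Fintype.card X = 0 := Fintype.card_eq_zero
    have : (Fintype.card X).descFactorial m = 0 := by
      rw [h0, Nat.descFactorial_eq_zero_iff_lt]; omega
    rw [this]; simp
  have hm0 : 0 < m := by omega
  -- target function along `s`
  let G : (Fin m ↪ X) → X → X := fun s => Function.extend s (fun i => s (nxt m k hk hkm i)) id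
  let Sx : (Fin m ↪ X) → Finset X := fun s => univ.image s
  let Sl : (Fin m ↪ X) → Finset X := fun s => (univ.filter (fun i : Fin m => m - k ≤ (i : ℕ))).image s
  let A : (Fin m ↪ X) → Finset ((X → X) × (X → Y)) := fun s =>
    (univ.filter (fun f : X → X => ∀ x ∈ Sx s, f x = G s x)) ×ˢ
      (univ.filter (fun D : X → Y => ∀ x ∈ Sl s, D x ∈ U))
  have hcardA : ∀ s, (A s).card = Fintype.card X ^ (Fintype.card X - m) *
      (U.card ^ k * Fintype.card Y ^ (Fintype.card X - k)) := by
    intro s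
    have e1 : (Sx s).card = m := by
      simp only [Sx]
      rw [card_image_of_injective _ s.injective, card_univ, Fintype.card_fin]
    have e2 : (Sl s).card = k := by
      simp only [Sl]
      rw [card_image_of_injective _ s.injective]
      have : (univ.filter (fun i : Fin m => m - k ≤ (i : ℕ))) =
          Finset.Ici (⟨m - k, by omega⟩ : Fin m) := by
        ext i
        simp [Fin.le_def]
      rw [this, Fin.card_Ici]
      simp only
      omega
    simp only [A]
    rw [card_product, card_fixed, card_labels, e1, e2]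
  have hiter : ∀ (s : Fin m ↪ X) (f : X → X), (∀ x ∈ Sx s, f x = G s x) →
      (∀ i (hi : i < m), f^[i] (s ⟨0, hm0⟩) = s ⟨i, hi⟩) ∧
      f^[m] (s ⟨0, hm0⟩) = s ⟨m - k, by omega⟩ := by
    intro s f hf
    have hstep : ∀ i : Fin m, f (s i) = s (nxt m k hk hkm i) := by
      intro i
      rw [hf (s i) (by simp [Sx])]
      exact s.injective.extend_apply _ _ i
    have h1 : ∀ i (hi : i < m), f^[i] (s ⟨0, hm0⟩) = s ⟨i, hi⟩ := by
      intro i
      induction i with
      | zero => intro _; rfl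
      | succ i ih =>
        intro hi
        rw [iterate_succ_apply', ih (by omega), hstep]
        congr 1
        simp [nxt, hi]
    refine ⟨h1, ?_⟩
    obtain ⟨m', rfl⟩ : ∃ m', m = m' + 1 := ⟨m - 1, by omega⟩
    rw [iterate_succ_apply', h1 m' (by omega), hstep]
    congr 1
    simp [nxt]
  have hsig : ((univ : Finset (Fin m ↪ X)).sigma A).card = (Fintype.card X).descFactorial m *
      (Fintype.card X ^ (Fintype.card X - m) * (U.card ^ k * Fintype.card Y ^ (Fintype.card X - k))) := by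
    rw [card_sigma, sum_congr rfl (fun s _ => hcardA s), sum_const, smul_eq_mul, card_univ,
      Fintype.card_embedding_eq, Fintype.card_fin]
  rw [← hsig]
  apply card_le_card_of_injOn (fun x => (x.2, x.1 ⟨0, hm0⟩))
  · rintro ⟨s, f, D⟩ hx
    rw [mem_coe, mem_sigma] at hx
    obtain ⟨_, hx⟩ := hx
    simp only [A] at hx
    rw [mem_product, mem_filter, mem_filter] at hx
    obtain ⟨⟨_, hf⟩, ⟨_, hD⟩⟩ := hx
    simp only at hf hD
    obtain ⟨h1, h2⟩ := hiter s f hf
    rw [mem_coe, mem_rho]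
    simp only
    refine ⟨?_, ?_, ?_⟩
    · intro i hi j hj hij
      rw [h1 i hi, h1 j hj] at hij
      exact congrArg Fin.val (s.injective hij)
    · rw [h2, h1 (m - k) (by omega)]
    · intro j hj hjm
      rw [h1 j hjm]
      apply hD
      simp only [Sl]
      rw [mem_image]
      exact ⟨⟨j, hjm⟩, mem_filter.mpr ⟨mem_univ _, hj⟩, rfl⟩
  · rintro ⟨s, f, D⟩ hx ⟨s', f', D'⟩ hx' h
    rw [mem_coe, mem_sigma] at hx hx'
    obtain ⟨_, hx⟩ := hx
    obtain ⟨_, hx'⟩ := hx'
    simp only [A] at hx hx'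
    rw [mem_product, mem_filter, mem_filter] at hx hx'
    simp only [Prod.mk.injEq] at h
    obtain ⟨⟨rfl, rfl⟩, h0⟩ := h
    have h1 := (hiter s f hx.1.2).1
    have h1' := (hiter s' f hx'.1.2).1
    have : s = s' := by
      ext i
      rw [← h1 i.1 i.2, ← h1' i.1 i.2, h0]
    subst this
    rfl

/-- Lower bound for the number of good triples. -/
lemma prob_goodTriples_ge (U : Finset Y) (K m₁ : ℕ) (θ : ℝ) (hθ : 0 ≤ θ)
    (hX : 0 < Fintype.card X) (hY : 0 < Fintype.card Y) (hKm : K ≤ m₁ + 1)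
    (hm : 4 * (m₁ : ℝ) ^ 2 ≤ Fintype.card X)
    (hU : (1 - θ) * Fintype.card Y ≤ U.card) (hKθ : (K : ℝ) * θ ≤ 1 / 2) :
    ((m₁ : ℝ) + 1 - K) * K * (3 / 8) *
      ((Fintype.card X : ℝ) ^ (Fintype.card X) * (Fintype.card Y : ℝ) ^ (Fintype.card X)) ≤
      (goodTriples X Y U).card := by
  classical
  set M := Fintype.card X with hM
  set q := Fintype.card Y with hq
  have hMr : (0 : ℝ) < M := by exact_mod_cast hX
  have hqr : (0 : ℝ) < q := by exact_mod_cast hY
  have h0 : ∑ mk ∈ Icc K m₁ ×ˢ Icc 1 K, (rho X Y U mk.1 mk.2).card ≤ (goodTriples X Y U).card := by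
    rw [← card_biUnion]
    · apply card_le_card
      rw [biUnion_subset]
      intro mk hmk
      rw [mem_product, mem_Icc, mem_Icc] at hmk
      exact rho_subset U _ _ hmk.2.1 (by omega)
    · rintro ⟨m, k⟩ hmk ⟨m', k'⟩ hmk' hne
      rw [mem_coe, mem_product, mem_Icc, mem_Icc] at hmk hmk'
      simp only at hmk hmk'
      exact rho_disjoint U (by omega) (by omega) (by omega) (by omega) hne
  have hterm : ∀ mk ∈ Icc K m₁ ×ˢ Icc 1 K, (3 / 8 : ℝ) * ((M : ℝ) ^ M * (q : ℝ) ^ M) ≤
      ((rho X Y U mk.1 mk.2).card : ℝ) := by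
    rintro ⟨m, k⟩ hmk
    rw [mem_product, mem_Icc, mem_Icc] at hmk
    simp only at hmk ⊢
    obtain ⟨⟨hm1, hm2⟩, hk1, hk2⟩ := hmk
    have hmr : (m : ℝ) ≤ m₁ := by exact_mod_cast hm2
    have hkK : (k : ℝ) ≤ K := by exact_mod_cast hk2
    have hm0r : (0 : ℝ) ≤ m := Nat.cast_nonneg _
    have hm1r : (1 : ℝ) ≤ m := by
      have : 1 ≤ m := by omega
      exact_mod_cast this
    have hmM' : 4 * (m : ℝ) ^ 2 ≤ M := by nlinarith
    have hmMr : (m : ℝ) ≤ M := by nlinarith
    have hmM : m ≤ M := by exact_mod_cast hmMr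
    have hkM : k ≤ M := by omega
    have hc := card_rho_ge (X := X) U m k hk1 (by omega)
    rw [← hM, ← hq] at hc
    have hc' : ((M.descFactorial m : ℕ) : ℝ) * ((M : ℝ) ^ (M - m) *
        ((U.card : ℝ) ^ k * (q : ℝ) ^ (M - k))) ≤ ((rho X Y U m k).card : ℝ) := by
      exact_mod_cast hc
    refine le_trans ?_ hc'
    have h1 : ((M : ℝ) - m) ^ m ≤ ((M.descFactorial m : ℕ) : ℝ) := by
      have h2 : (M - m) ^ m ≤ M.descFactorial m :=
        le_trans (Nat.pow_le_pow_left (by omega) m) (Nat.pow_sub_le_descFactorial M m)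
      have h3 : (((M - m : ℕ) : ℝ)) ^ m ≤ ((M.descFactorial m : ℕ) : ℝ) := by exact_mod_cast h2
      rwa [Nat.cast_sub hmM] at h3
    have h2 : (3 / 4 : ℝ) * (M : ℝ) ^ m ≤ ((M : ℝ) - m) ^ m := by
      have h3 : ((M : ℝ) - m) = M * (1 + (-(m / M))) := by field_simp; ring
      rw [h3, mul_pow]
      have h4 : 1 + (m : ℝ) * (-(m / M)) ≤ (1 + (-(m / M : ℝ))) ^ m := by
        apply one_add_mul_le_pow
        have : (m : ℝ) / M ≤ 1 := by rw [div_le_one hMr]; exact hmMr
        linarith
      have h5 : (3 / 4 : ℝ) ≤ 1 + (m : ℝ) * (-(m / M)) := by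
        have : (m : ℝ) * (m / M) ≤ 1 / 4 := by
          rw [← mul_div_assoc, div_le_iff₀ hMr]
          nlinarith
        linarith
      have h6 : (0 : ℝ) < (M : ℝ) ^ m := pow_pos hMr m
      nlinarith
    have h3 : (1 / 2 : ℝ) * (q : ℝ) ^ k ≤ (U.card : ℝ) ^ k := by
      have h4 : 1 + (k : ℝ) * (-θ) ≤ (1 + (-θ)) ^ k := by
        apply one_add_mul_le_pow
        have hk1r : (1 : ℝ) ≤ k := by exact_mod_cast hk1
        nlinarith
      have h5 : (1 / 2 : ℝ) ≤ 1 + (k : ℝ) * (-θ) := by nlinarith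
      have h6 : (0 : ℝ) ≤ (1 + -θ) := by
        have hk1r : (1 : ℝ) ≤ K := by
          have : 1 ≤ K := by omega
          exact_mod_cast this
        nlinarith
      have h7 : ((1 + -θ) * (q : ℝ)) ^ k ≤ (U.card : ℝ) ^ k := by
        apply pow_le_pow_left₀ (mul_nonneg h6 hqr.le)
        linarith
      rw [mul_pow] at h7
      have h8 : (0 : ℝ) < (q : ℝ) ^ k := pow_pos hqr k
      nlinarith
    have hMk : (M : ℝ) ^ M = (M : ℝ) ^ m * (M : ℝ) ^ (M - m) := by
      rw [← pow_add]; congr 1; omega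
    have hqk : (q : ℝ) ^ M = (q : ℝ) ^ k * (q : ℝ) ^ (M - k) := by
      rw [← pow_add]; congr 1; omega
    have h9 : (3 / 4 : ℝ) * (M : ℝ) ^ m ≤ ((M.descFactorial m : ℕ) : ℝ) := h2.trans h1
    calc (3 / 8 : ℝ) * ((M : ℝ) ^ M * (q : ℝ) ^ M)
        = ((M : ℝ) ^ (M - m) * (q : ℝ) ^ (M - k)) *
          (((3 / 4 : ℝ) * (M : ℝ) ^ m) * ((1 / 2 : ℝ) * (q : ℝ) ^ k)) := by
          rw [hMk, hqk]; ring
      _ ≤ ((M : ℝ) ^ (M - m) * (q : ℝ) ^ (M - k)) *
          (((M.descFactorial m : ℕ) : ℝ) * ((U.card : ℝ) ^ k)) := by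
          apply mul_le_mul_of_nonneg_left
          · apply mul_le_mul h9 h3 (by positivity) (by positivity)
          · positivity
      _ = _ := by ring
  have h1 : (∑ _mk ∈ Icc K m₁ ×ˢ Icc 1 K, (3 / 8 : ℝ) * ((M : ℝ) ^ M * (q : ℝ) ^ M)) ≤
      (goodTriples X Y U).card := by
    refine (sum_le_sum hterm).trans ?_
    exact_mod_cast h0
  rw [sum_const, card_product, Nat.card_Icc, Nat.card_Icc, nsmul_eq_mul] at h1
  have h2 : (((m₁ + 1 - K) * (K + 1 - 1) : ℕ) : ℝ) = ((m₁ : ℝ) + 1 - K) * K := by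
    rw [Nat.cast_mul, Nat.cast_sub hKm, Nat.add_sub_cancel]
    push_cast
    ring
  rw [h2] at h1
  linarith

end Count

end Pool.Agent.Helper87.DMLP
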