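import Mathlib
import Pool.Agent.Helper87.DMLP.Good
import Pool.Agent.Helper87.DML.StatMain

set_option autoImplicit false

namespace Pool.Agent.Helper87.DMLP

open MvPolynomial
open Pool.Agent.Helper87.DML (IsCyc goodPairs prob_goodPairs_ge boxSet boxSet_finite isBox_boxSet
  exists_small_surj exists_primes_sum IsBox)

/-- A set of primes with divergent reciprocal sum contains finite sets of primes at least `3` with
large reciprocal sum. -/
lemma exists_primes_sum_of (Pri : Set ℕ) (hdiv : ¬ Summable (fun q : Pri => (1 : ℝ) / (q : ℕ)))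
    (hPri : ∀ q ∈ Pri, q.Prime) (A : ℝ) : ∃ P : Finset ℕ, (∀ q ∈ P, q ∈ Pri ∧ 3 ≤ q) ∧
    A ≤ ∑ q ∈ P, (1 : ℝ) / q := by
  classical
  have h1 : ∃ u : Finset Pri, A + 1 < ∑ q ∈ u, (1 : ℝ) / (q : ℕ) := by
    by_contra h
    push Not at h
    exact hdiv (summable_of_sum_le (fun q => by positivity) h)
  obtain ⟨u, hu⟩ := h1
  refine ⟨(u.image (fun q : Pri => (q : ℕ))).erase 2, ?_, ?_⟩
  · intro q hq
    rw [Finset.mem_erase, Finset.mem_image] at hq
    obtain ⟨h2, r, _, rfl⟩ := hq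
    exact ⟨r.2, lt_of_le_of_ne (hPri r.1 r.2).two_le (Ne.symm h2)⟩
  · have h2 : ∑ q ∈ u, (1 : ℝ) / (q : ℕ) = ∑ q ∈ u.image (fun q : Pri => (q : ℕ)), (1 : ℝ) / q := by
      rw [Finset.sum_image]
      intro a _ b _ hab
      exact Subtype.ext hab
    rw [h2] at hu
    by_cases h3 : 2 ∈ u.image (fun q : Pri => (q : ℕ))
    · rw [← Finset.add_sum_erase _ _ h3] at hu
      have : (1 : ℝ) / (2 : ℕ) ≤ 1 := by norm_num
      linarith
    · rw [Finset.erase_eq_of_notMem h3]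
      linarith

section

variable {σ : Type} [Fintype σ] [DecidableEq σ]

/-- Jets all of whose cyclic points are noncritical. -/
noncomputable def goodJet (σ : Type) [Fintype σ] [DecidableEq σ] (p : ℕ) [Fact p.Prime] :
    Finset (Jet σ p) := by
  classical
  exact goodPairs (σ → ZMod p) (Matrix σ σ (ZMod p)) (Finset.univ.filter (fun A => IsUnit A))

lemma mem_goodJet (p : ℕ) [Fact p.Prime] (J : Jet σ p) :
    J ∈ goodJet σ p ↔ ∀ x, IsCyc J.1 x → IsUnit (J.2 x) := by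
  classical
  simp [goodJet, goodPairs]

theorem stat_main (c : ℝ) (hc : 0 < c)
    (hδ : ∀ (p : ℕ) [Fact p.Prime], 3 ≤ p →
      c / p * (Fintype.card (Jet σ p) : ℝ) ≤ (goodJet σ p).card)
    (Pri : Set ℕ) (hdiv : ¬ Summable (fun q : Pri => (1 : ℝ) / (q : ℕ))) (hPri : ∀ q ∈ Pri, q.Prime)
    (ε : ℝ) (hε : 0 < ε) :
    ∃ (P : Finset ℕ) (L K : ℕ), (∀ q ∈ P, q ∈ Pri) ∧ 0 < L ∧ ∀ d B : ℕ, K ≤ d → K ≤ B →
      (1 - ε) * ((boxSet σ d B).ncard : ℝ) ≤
        (({Φ | Φ ∈ boxSet σ d B ∧ ∃ q ∈ P, ∃ _ : Fact q.Prime, 3 ≤ q ∧ PadicDML q L Φ} :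
          Set (σ → MvPolynomial σ ℤ)).ncard : ℝ) := by
  classical
  -- choose primes
  obtain ⟨P, hPPri, hsum⟩ := exists_primes_sum_of Pri hdiv hPri (-Real.log (ε / 2) / c)
  have hP : ∀ q ∈ P, q.Prime ∧ 3 ≤ q := fun q hq => ⟨hPri q (hPPri q hq).1, (hPPri q hq).2⟩
  have hPp : ∀ k : {q // q ∈ P}, Fact (k.1).Prime := fun k => ⟨(hP k.1 k.2).1⟩
  set p : {q // q ∈ P} → ℕ := fun k => k.1 with hp
  have hinj : Function.Injective p := Subtype.val_injective
  -- good jets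
  set 𝒢 : Finset (∀ k : {q // q ∈ P}, Jet σ (p k)) :=
    Finset.univ.filter (fun ω => ∃ k, ω k ∈ goodJet σ (p k)) with h𝒢
  set bad : ∀ k : {q // q ∈ P}, Finset (Jet σ (p k)) :=
    fun k => Finset.univ.filter (fun J => J ∉ goodJet σ (p k)) with hbad
  have hbadcard : ∀ k, (goodJet σ (p k)).card + (bad k).card = Fintype.card (Jet σ (p k)) := by
    intro k
    have h1 : goodJet σ (p k) = Finset.univ.filter (fun J => J ∈ goodJet σ (p k)) := by
      ext J; simp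
    rw [hbad]
    conv_lhs => rw [h1]
    simp only [Finset.mem_filter, Finset.mem_univ, true_and]
    rw [Finset.card_filter_add_card_filter_not, Finset.card_univ]
  set 𝒢' : Finset (∀ k : {q // q ∈ P}, Jet σ (p k)) :=
    Finset.univ.filter (fun ω => ¬ ∃ k, ω k ∈ goodJet σ (p k)) with h𝒢'
  have hG : 𝒢.card + 𝒢'.card = Fintype.card (∀ k : {q // q ∈ P}, Jet σ (p k)) := by
    rw [h𝒢, h𝒢', Finset.card_filter_add_card_filter_not, Finset.card_univ]
  have hcompl : 𝒢'.card = ∏ k : {q // q ∈ P}, (bad k).card := by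
    have : 𝒢' = Fintype.piFinset bad := by
      ext ω
      rw [h𝒢', Finset.mem_filter, Fintype.mem_piFinset]
      simp [hbad]
    rw [this, Fintype.card_piFinset]
  have hΩ : Fintype.card (∀ k : {q // q ∈ P}, Jet σ (p k)) =
      ∏ k : {q // q ∈ P}, Fintype.card (Jet σ (p k)) := Fintype.card_pi
  have hratio : (𝒢'.card : ℝ) ≤ ε / 2 * (Fintype.card (∀ k : {q // q ∈ P}, Jet σ (p k)) : ℝ) := by
    rw [hcompl, hΩ]
    push_cast
    have h1 : ∀ k ∈ (Finset.univ : Finset {q // q ∈ P}), ((bad k).card : ℝ) ≤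
        Real.exp (-(c / (p k))) * (Fintype.card (Jet σ (p k)) : ℝ) := by
      intro k _
      have h0 : ((goodJet σ (p k)).card : ℝ) + (bad k).card = Fintype.card (Jet σ (p k)) := by
        exact_mod_cast hbadcard k
      have h2 := hδ (p k) (hP k.1 k.2).2
      have h3 : 1 - c / (p k) ≤ Real.exp (-(c / (p k))) := by
        have := Real.add_one_le_exp (-(c / (p k)))
        linarith
      have h4 : (0 : ℝ) ≤ (Fintype.card (Jet σ (p k)) : ℝ) := Nat.cast_nonneg _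
      nlinarith
    have h2 : ∏ k : {q // q ∈ P}, ((bad k).card : ℝ) ≤
        ∏ k : {q // q ∈ P}, (Real.exp (-(c / (p k))) * (Fintype.card (Jet σ (p k)) : ℝ)) :=
      Finset.prod_le_prod (fun _ _ => Nat.cast_nonneg _) h1
    refine h2.trans ?_
    rw [Finset.prod_mul_distrib, ← Real.exp_sum]
    apply mul_le_mul_of_nonneg_right _ (Finset.prod_nonneg fun _ _ => Nat.cast_nonneg _)
    have h3 : ∑ k : {q // q ∈ P}, -(c / (p k : ℝ)) = -(c * ∑ q ∈ P, (1 : ℝ) / q) := by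
      rw [Finset.sum_neg_distrib, Finset.mul_sum, ← Finset.sum_coe_sort P]
      congr 1
      apply Finset.sum_congr rfl
      intro k _
      rw [mul_one_div]
    rw [h3]
    have h4 : -Real.log (ε / 2) ≤ c * ∑ q ∈ P, (1 : ℝ) / q := by
      rw [div_le_iff₀ hc] at hsum
      linarith
    calc Real.exp (-(c * ∑ q ∈ P, (1 : ℝ) / q)) ≤ Real.exp (Real.log (ε / 2)) := by
          apply Real.exp_le_exp.mpr; linarith
      _ = ε / 2 := Real.exp_log (by positivity)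
  -- the modulus
  set Q : ℕ := ∏ q ∈ P, q with hQ
  have hQpos : 0 < Q := Finset.prod_pos (fun q hq => (hP q hq).1.pos)
  obtain ⟨S₀, hS₀⟩ := exists_small_surj (jets (σ := σ) p) (jets_surjective p hinj) Q hQpos (by
    intro Φ Ψ h
    funext k
    rw [jets_apply, jets_apply]
    apply jet_eq_of_dvd
    intro i s
    refine dvd_trans ?_ (h i s)
    have : (p k) ∣ Q := Finset.dvd_prod_of_mem _ k.2
    exact_mod_cast this)
  set d₀ : ℕ := S₀.sup Finsupp.degree with hd₀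
  set B₀ : ℕ := ⌈(Fintype.card (σ × S₀) * Q : ℝ) / ε⌉₊ with hB₀
  set L : ℕ := ∏ k : {q // q ∈ P}, perOf σ (p k) with hL
  have hLpos : 0 < L := Finset.prod_pos (fun k _ => perOf_pos (p k))
  refine ⟨P, L, max d₀ B₀, fun q hq => (hPPri q hq).1, hLpos, fun d B hd hB => ?_⟩
  have hd' : ∀ s ∈ S₀, s.degree ≤ d := fun s hs =>
    (Finset.le_sup hs).trans ((le_max_left _ _).trans hd)
  have hbox := isBox_boxSet S₀ d B hd'
  have hprop := hbox.proportion (jets (σ := σ) p) Q hS₀ 𝒢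
  -- compare cardinalities
  have hfilt : ((boxSet_finite (σ := σ) d B).toFinset.filter (fun v => jets (σ := σ) p v ∈ 𝒢)).card ≤
      ({Φ | Φ ∈ boxSet σ d B ∧ ∃ q ∈ P, ∃ _ : Fact q.Prime, 3 ≤ q ∧ PadicDML q L Φ} :
        Set (σ → MvPolynomial σ ℤ)).ncard := by
    rw [← Set.ncard_coe_finset]
    apply Set.ncard_le_ncard
    · intro Φ hΦ
      rw [Finset.mem_coe, Finset.mem_filter, Set.Finite.mem_toFinset, h𝒢, Finset.mem_filter] at hΦ
      obtain ⟨h1, _, k, hk⟩ := hΦ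
      refine ⟨h1, k.1, k.2, hPp k, (hP k.1 k.2).2, ?_⟩
      rw [jets_apply, mem_goodJet] at hk
      have hLk : L = perOf σ (p k) * ∏ j ∈ Finset.univ.erase k, perOf σ (p j) :=
        (Finset.mul_prod_erase _ _ (Finset.mem_univ k)).symm
      rw [hLk]
      exact padicDML_of_good (p k) (hP k.1 k.2).2 Φ hk _
        (Finset.prod_pos (fun j _ => perOf_pos (p j)))
    · exact (boxSet_finite (σ := σ) d B).subset (fun Φ hΦ => hΦ.1)
  have hcard : ((boxSet_finite (σ := σ) d B).toFinset.card : ℝ) = ((boxSet σ d B).ncard : ℝ) := by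
    rw [Set.ncard_eq_toFinset_card _ (boxSet_finite (σ := σ) d B)]
  rw [hcard] at hprop
  refine le_trans ?_ (hprop.trans (by exact_mod_cast hfilt))
  apply mul_le_mul_of_nonneg_right _ (Nat.cast_nonneg _)
  -- (1 - ε) ≤ (|𝒢|/|Ω|) (1 - ...)
  have hΩpos : (0 : ℝ) < (Fintype.card (∀ k : {q // q ∈ P}, Jet σ (p k)) : ℝ) := by
    have : 0 < Fintype.card (∀ k : {q // q ∈ P}, Jet σ (p k)) := Fintype.card_pos_iff.mpr ⟨0⟩
    exact_mod_cast this
  have h1 : 1 - ε / 2 ≤ (𝒢.card : ℝ) / (Fintype.card (∀ k : {q // q ∈ P}, Jet σ (p k)) : ℝ) := by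
    rw [le_div_iff₀ hΩpos]
    have h2 : (𝒢.card : ℝ) + 𝒢'.card = Fintype.card (∀ k : {q // q ∈ P}, Jet σ (p k)) := by
      exact_mod_cast hG
    linarith
  have h2 : (Fintype.card (σ × S₀) * Q : ℝ) / (2 * B + 1) ≤ ε / 2 := by
    have hBB : (B₀ : ℝ) ≤ B := by exact_mod_cast (le_max_right _ _).trans hB
    have h3 : (Fintype.card (σ × S₀) * Q : ℝ) / ε ≤ B := (Nat.le_ceil _).trans hBB
    rw [div_le_iff₀ hε] at h3
    rw [div_le_iff₀ (by positivity)]
    nlinarith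
  by_cases hε1 : ε ≤ 1
  · have h3 : 0 ≤ 1 - (Fintype.card (σ × S₀) * Q : ℝ) / (2 * B + 1) := by linarith
    calc 1 - ε ≤ (1 - ε / 2) * (1 - ε / 2) := by nlinarith
      _ ≤ (1 - ε / 2) * (1 - (Fintype.card (σ × S₀) * Q : ℝ) / (2 * B + 1)) := by
          apply mul_le_mul_of_nonneg_left <;> linarith
      _ ≤ _ := mul_le_mul_of_nonneg_right h1 h3
  · -- ε > 1: the left side is negative
    push Not at hε1
    by_cases h3 : 0 ≤ 1 - (Fintype.card (σ × S₀) * Q : ℝ) / (2 * B + 1)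
    · have : (0 : ℝ) ≤ (𝒢.card : ℝ) / (Fintype.card (∀ k : {q // q ∈ P}, Jet σ (p k)) : ℝ) *
        (1 - (Fintype.card (σ × S₀) * Q : ℝ) / (2 * B + 1)) := by positivity
      linarith
    · push Not at h3
      have h4 : (𝒢.card : ℝ) / (Fintype.card (∀ k : {q // q ∈ P}, Jet σ (p k)) : ℝ) ≤ 1 := by
        rw [div_le_one hΩpos]
        exact_mod_cast Finset.card_le_univ 𝒢
      nlinarith

end

/-- Statistical dynamical Mordell-Lang in dimension three, uniform form. -/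
theorem stat_three (Pri : Set ℕ) (hdiv : ¬ Summable (fun q : Pri => (1 : ℝ) / (q : ℕ)))
    (hPri : ∀ q ∈ Pri, q.Prime) (ε : ℝ) (hε : 0 < ε) :
    ∃ (P : Finset ℕ) (L K : ℕ), (∀ q ∈ P, q ∈ Pri) ∧ 0 < L ∧ ∀ d B : ℕ, K ≤ d → K ≤ B →
      (1 - ε) * ((boxSet (Fin 3) d B).ncard : ℝ) ≤
        (({Φ | Φ ∈ boxSet (Fin 3) d B ∧ ∃ q ∈ P, ∃ _ : Fact q.Prime, 3 ≤ q ∧ PadicDML q L Φ} :
          Set (Fin 3 → MvPolynomial (Fin 3) ℤ)).ncard : ℝ) :=
  stat_main (1 / 200) (by norm_num)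
    (fun p _ hp3 => Pool.Agent.Helper87.DML.goodJet_three p hp3) Pri hdiv hPri ε hε

end Pool.Agent.Helper87.DMLP
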