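import Mathlib
import Pool.Agent.Helper87.DMLP.StatMain
import Pool.Agent.Helper87.DMLP.PairCount
import Pool.Agent.Helper87.DMLP.BoxVar

set_option autoImplicit false

namespace Pool.Agent.Helper87.DMLP

open MvPolynomial
open Pool.Agent.Helper87.DML (IsCyc boxSet boxSet_finite isBox_boxSet exists_small_surj IsBox coordP
  dirP coordP_apply dirP_apply)

section

variable {σ : Type} [Fintype σ] [DecidableEq σ]

/-- The sample space of pairs of an integer polynomial map and an integer point. -/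
abbrev MapPt (σ : Type) : Type := (σ → MvPolynomial σ ℤ) × (σ → ℤ)

/-- Jets together with a point. -/
def PJet (σ : Type) (p : ℕ) : Type := Jet σ p × (σ → ZMod p)

noncomputable instance (p : ℕ) : AddCommGroup (PJet σ p) :=
  inferInstanceAs (AddCommGroup (Jet σ p × (σ → ZMod p)))

noncomputable instance (p : ℕ) [Fact p.Prime] : Fintype (PJet σ p) :=
  inferInstanceAs (Fintype (Jet σ p × (σ → ZMod p)))

/-- Reduction of an integer point. -/
def ptRed (p : ℕ) : (σ → ℤ) →+ (σ → ZMod p) where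
  toFun α i := (α i : ZMod p)
  map_zero' := by ext; simp
  map_add' α β := by ext; simp

/-- Jet of the map and reduction of the point. -/
noncomputable def pairJet (p : ℕ) : MapPt σ →+ PJet σ p :=
  AddMonoidHom.prodMap (jet p) (ptRed p)

omit [Fintype σ] [DecidableEq σ] in
lemma pairJet_fst (p : ℕ) (Φ : σ → MvPolynomial σ ℤ) (α : σ → ℤ) :
    (pairJet p (Φ, α)).1 = jet p Φ := rfl

omit [Fintype σ] [DecidableEq σ] in
lemma pairJet_snd (p : ℕ) (Φ : σ → MvPolynomial σ ℤ) (α : σ → ℤ) :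
    (pairJet p (Φ, α)).2 = fun i => (α i : ZMod p) := rfl

/-- Joint version. -/
noncomputable def pairJets {κ : Type} (p : κ → ℕ) :
    MapPt σ →+ (∀ k, PJet σ (p k)) :=
  AddMonoidHom.mk' (fun v k => pairJet (p k) v) (by intro a b; funext k; simp)

omit [Fintype σ] [DecidableEq σ] in
lemma pairJets_apply {κ : Type} (p : κ → ℕ) (v : MapPt σ) (k : κ) :
    pairJets p v k = pairJet (p k) v := rfl

/-- The box of pairs. -/
noncomputable def pairBox (σ : Type) [Fintype σ] [DecidableEq σ] (d B A : ℕ) :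
    Finset (MapPt σ) :=
  (boxSet_finite (σ := σ) d B).toFinset ×ˢ
    Fintype.piFinset (fun _ : σ => Finset.Icc (-(A : ℤ)) A)

/-- Directions. -/
noncomputable def dirQ (S₀ : Finset (σ →₀ ℕ)) : (σ × S₀) ⊕ σ → MapPt σ
  | Sum.inl is => (dirP S₀ is, 0)
  | Sum.inr i => (0, Pi.single i 1)

/-- Coordinates. -/
noncomputable def coordQ (S₀ : Finset (σ →₀ ℕ)) : (σ × S₀) ⊕ σ → (MapPt σ →+ ℤ)
  | Sum.inl is => (coordP S₀ is).comp (AddMonoidHom.fst _ _)
  | Sum.inr i => (Pi.evalAddMonoidHom (fun _ : σ => ℤ) i).comp (AddMonoidHom.snd _ _)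

/-- Side lengths. -/
def lenQ (S₀ : Finset (σ →₀ ℕ)) (B A : ℕ) : (σ × S₀) ⊕ σ → ℕ
  | Sum.inl _ => B
  | Sum.inr _ => A

lemma isBox_pairBox (S₀ : Finset (σ →₀ ℕ)) (d B A : ℕ) (hd : ∀ s ∈ S₀, s.degree ≤ d) :
    IsBoxV (pairBox σ d B A) (dirQ S₀) (coordQ S₀) (lenQ S₀ B A) := by
  classical
  have hb := isBox_boxSet S₀ d B hd
  constructor
  · rintro (is | i) (js | j)
    · simp only [coordQ, dirQ, AddMonoidHom.comp_apply, AddMonoidHom.coe_fst, hb.dual]
      simp
    · simp [coordQ, dirQ]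
    · simp [coordQ, dirQ]
    · simp only [coordQ, dirQ, AddMonoidHom.comp_apply, AddMonoidHom.coe_snd,
        Pi.evalAddMonoidHom_apply, Pi.single_apply]
      simp
  · rintro ⟨Φ, α⟩ hv (is | i)
    · rw [pairBox, Finset.mem_product] at hv
      exact hb.bound _ hv.1 is
    · rw [pairBox, Finset.mem_product] at hv
      have := (Fintype.mem_piFinset.mp hv.2) i
      rw [Finset.mem_Icc] at this
      exact abs_le.mpr this
  · rintro ⟨Φ, α⟩ hv (is | i) c hc
    · rw [pairBox, Finset.mem_product] at hv ⊢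
      simp only [coordQ, dirQ, AddMonoidHom.comp_apply, AddMonoidHom.coe_fst, Prod.smul_mk,
        Prod.mk_add_mk, smul_zero, add_zero]
      exact ⟨hb.move _ hv.1 is c hc, hv.2⟩
    · rw [pairBox, Finset.mem_product] at hv ⊢
      simp only [coordQ, dirQ, AddMonoidHom.comp_apply, AddMonoidHom.coe_snd, Prod.smul_mk,
        Prod.mk_add_mk, smul_zero, add_zero, Pi.evalAddMonoidHom_apply]
      refine ⟨hv.1, Fintype.mem_piFinset.mpr fun j => ?_⟩
      by_cases hj : j = i
      · subst hj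
        rw [Pi.add_apply, Pi.smul_apply, Pi.single_eq_same]
        have := abs_le.mp hc
        simp only [lenQ] at this
        rw [Finset.mem_Icc]
        constructor <;> simp <;> linarith [this.1, this.2]
      · rw [Pi.add_apply, Pi.smul_apply, Pi.single_eq_of_ne hj, smul_zero, add_zero]
        exact (Fintype.mem_piFinset.mp hv.2) j

lemma exists_small_surj_pair {κ : Type} [Fintype κ] [DecidableEq κ] (p : κ → ℕ)
    [∀ k, Fact (p k).Prime] (hinj : Function.Injective p) (Q : ℕ) (hQ : 0 < Q)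
    (hpQ : ∀ k, p k ∣ Q) :
    ∃ S₀ : Finset (σ →₀ ℕ), ∀ ω : (∀ k, PJet σ (p k)),
      ∃ a : (σ × S₀) ⊕ σ → ℕ, (∀ is, a is ≤ Q) ∧
      pairJets p (∑ is, a is • dirQ S₀ is) = ω := by
  classical
  obtain ⟨S₀, hS₀⟩ := exists_small_surj (jets (σ := σ) p) (jets_surjective p hinj) Q hQ (by
    intro Φ Ψ h
    funext k
    rw [jets_apply, jets_apply]
    apply jet_eq_of_dvd
    intro i s
    refine dvd_trans ?_ (h i s)
    exact_mod_cast hpQ k)
  refine ⟨S₀, fun ω => ?_⟩
  obtain ⟨a, ha, hω⟩ := hS₀ (fun k => (ω k).1)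
  -- a point with given residues
  choose e he he' using crt_idem p hinj
  have hz : ∀ i : σ, ∃ c : ℕ, c ≤ Q ∧ ∀ k, ((c : ℕ) : ZMod (p k)) = (ω k).2 i := by
    intro i
    have h1 : ∀ k, ∃ z : ℤ, ((z : ℤ) : ZMod (p k)) = (ω k).2 i := fun k => ZMod.intCast_surjective _
    choose z hz using h1
    set t : ℤ := ∑ k, e k * z k with ht
    have htk : ∀ k, ((t : ℤ) : ZMod (p k)) = (ω k).2 i := by
      intro k
      rw [ht]
      push_cast
      rw [Finset.sum_eq_single k]
      · rw [he k, hz k, one_mul]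
      · intro l _ hl
        rw [he' l k (Ne.symm hl), zero_mul]
      · intro h; exact absurd (Finset.mem_univ k) h
    have hQ' : (0 : ℤ) < Q := by exact_mod_cast hQ
    refine ⟨(t % (Q : ℤ)).toNat, ?_, fun k => ?_⟩
    · have h2 : t % (Q : ℤ) < Q := Int.emod_lt_of_pos _ hQ'
      omega
    · rw [← htk k]
      have h2 : (((t % (Q : ℤ)).toNat : ℕ) : ZMod (p k)) =
          (((((t % (Q : ℤ)).toNat : ℕ) : ℤ)) : ZMod (p k)) := by push_cast; rfl
      rw [h2, Int.toNat_of_nonneg (Int.emod_nonneg _ hQ'.ne')]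
      rw [ZMod.intCast_eq_intCast_iff_dvd_sub]
      have h3 : (Q : ℤ) ∣ t - t % (Q : ℤ) := Int.dvd_self_sub_emod
      refine dvd_trans ?_ h3
      exact_mod_cast hpQ k
  choose c hcQ hc using hz
  refine ⟨Sum.elim a c, ?_, ?_⟩
  · rintro (is | i)
    · exact ha is
    · exact hcQ i
  · rw [Fintype.sum_sum_type]
    simp only [Sum.elim_inl, Sum.elim_inr, dirQ]
    have h1 : (∑ x : σ × S₀, a x • ((dirP S₀ x, 0) : MapPt σ)) = (∑ x, a x • dirP S₀ x, 0) := by
      rw [Prod.ext_iff]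
      constructor
      · rw [Prod.fst_sum]; rfl
      · rw [Prod.snd_sum]; simp
    have h2 : (∑ x : σ, c x • ((0, Pi.single x 1) : MapPt σ)) = (0, fun i => (c i : ℤ)) := by
      rw [Prod.ext_iff]
      constructor
      · rw [Prod.fst_sum]; simp
      · rw [Prod.snd_sum]
        funext i
        rw [Finset.sum_apply, Finset.sum_eq_single i]
        · simp
        · intro j _ hj
          simp only [Prod.smul_snd, Pi.smul_apply]
          rw [Pi.single_eq_of_ne (Ne.symm hj), smul_zero]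
        · intro h; exact absurd (Finset.mem_univ i) h
    rw [h1, h2, Prod.mk_add_mk, add_zero, zero_add]
    funext k
    rw [pairJets_apply]
    refine Prod.ext (α := Jet σ (p k)) (β := σ → ZMod (p k)) ?_ ?_
    · rw [pairJet_fst]
      have := congrFun hω k
      rwa [jets_apply] at this
    · rw [pairJet_snd]
      funext i
      have := hc i k
      simpa using this

/-- Good pairs of jets and points. -/
noncomputable def goodPt (σ : Type) [Fintype σ] [DecidableEq σ] (p : ℕ) [Fact p.Prime] :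
    Finset (PJet σ p) := by
  classical
  exact goodTriples (σ → ZMod p) (Matrix σ σ (ZMod p)) (Finset.univ.filter (fun A => IsUnit A))

lemma mem_goodPt (p : ℕ) [Fact p.Prime] (J : PJet σ p) :
    J ∈ goodPt σ p ↔ ∀ n, IsCyc J.1.1 (J.1.1^[n] J.2) → IsUnit (J.1.2 (J.1.1^[n] J.2)) := by
  classical
  have := mem_goodTriples (X := σ → ZMod p) (Y := Matrix σ σ (ZMod p))
    (Finset.univ.filter (fun A => IsUnit A)) J
  simp only [Finset.mem_filter, Finset.mem_univ, true_and] at this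
  exact this

/-- The conclusion of the dynamical Mordell-Lang conjecture with period `L` for an integer point. -/
def PointDML (L : ℕ) (Φ : σ → MvPolynomial σ ℤ) (α : σ → ℤ) : Prop :=
  ∀ V : Set (MvPolynomial σ ℂ), ∃ E A : Finset ℕ,
    returnSet Φ (fun i => (α i : ℂ)) V = {n : ℕ | n ∈ E ∨ ∃ a ∈ A, ∃ k : ℕ, n = a + L * k}

lemma pointDML_of_good (p : ℕ) [hp : Fact p.Prime] (hp3 : 3 ≤ p) (Φ : σ → MvPolynomial σ ℤ)
    (α : σ → ℤ) (h : pairJet p (Φ, α) ∈ goodPt σ p) (m : ℕ) (hm : 0 < m) :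
    PointDML (perOf σ p * m) Φ α := by
  intro V
  rw [mem_goodPt, pairJet_fst, pairJet_snd] at h
  set M := Fintype.card (σ → ZMod p) with hM
  have hinj : Function.Injective (Int.castRingHom ℂ) := Int.cast_injective
  let e : ℤ ≃+* (Int.castRingHom ℂ).range := RingEquiv.ofBijective (Int.castRingHom ℂ).rangeRestrict
    ⟨fun a b h => hinj (congrArg Subtype.val h), (Int.castRingHom ℂ).rangeRestrict_surjective⟩
  set ι : (Int.castRingHom ℂ).range →+* ℤ_[p] := (Int.castRingHom ℤ_[p]).comp (e.symm : _ →+* ℤ) with hι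
  have hιinj : Function.Injective ι :=
    Function.Injective.comp (g := Int.castRingHom ℤ_[p]) Int.cast_injective e.symm.injective
  have hιe : ∀ z : ℤ, ι (e z) = (z : ℤ_[p]) := by
    intro z
    simp [hι]
  have hred : (fun i => PadicInt.toZMod (ι (e (α i)))) = fun i => ((α i : ℤ) : ZMod p) := by
    funext i
    rw [hιe, map_intCast]
  have hgood : GoodOrbit p Φ (fun i => PadicInt.toZMod (ι (e (α i)))) M M.factorial := by
    rw [hred]
    intro n hn
    obtain ⟨h1, h2⟩ := iterate_periodic (jet p Φ).1 (fun i => ((α i : ℤ) : ZMod p)) n hn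
    exact ⟨h n h1, h2⟩
  have h1 := goodOrbit_returnSet p hp3 Φ _ ι hιinj (fun i => e (α i)) M M.factorial hgood V
  exact (h1.mul hm).explicit (Nat.mul_pos (perOf_pos p) hm)

theorem stat_pair [Nonempty σ] (c : ℝ) (hc : 0 < c)
    (hδ : ∀ (p : ℕ) [Fact p.Prime], 3 ≤ p →
      c / p * (Fintype.card (PJet σ p) : ℝ) ≤ (goodPt σ p).card)
    (Pri : Set ℕ) (hdiv : ¬ Summable (fun q : Pri => (1 : ℝ) / (q : ℕ))) (hPri : ∀ q ∈ Pri, q.Prime)
    (ε : ℝ) (hε : 0 < ε) :
    ∃ (L K : ℕ), 0 < L ∧ ∀ d B A : ℕ, K ≤ d → K ≤ B → K ≤ A →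
      (1 - ε) * ((pairBox σ d B A).card : ℝ) ≤
        (({v | v ∈ pairBox σ d B A ∧ PointDML L v.1 v.2} : Set (MapPt σ)).ncard : ℝ) := by
  classical
  -- choose primes
  obtain ⟨P, hPPri, hsum⟩ := exists_primes_sum_of Pri hdiv hPri (-Real.log (ε / 2) / c)
  have hP : ∀ q ∈ P, q.Prime ∧ 3 ≤ q := fun q hq => ⟨hPri q (hPPri q hq).1, (hPPri q hq).2⟩
  have hPp : ∀ k : {q // q ∈ P}, Fact (k.1).Prime := fun k => ⟨(hP k.1 k.2).1⟩
  set p : {q // q ∈ P} → ℕ := fun k => k.1 with hp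
  have hinj : Function.Injective p := Subtype.val_injective
  -- good jets
  set 𝒢 : Finset (∀ k : {q // q ∈ P}, PJet σ (p k)) :=
    Finset.univ.filter (fun ω => ∃ k, ω k ∈ goodPt σ (p k)) with h𝒢
  set bad : ∀ k : {q // q ∈ P}, Finset (PJet σ (p k)) :=
    fun k => Finset.univ.filter (fun J => J ∉ goodPt σ (p k)) with hbad
  have hbadcard : ∀ k, (goodPt σ (p k)).card + (bad k).card =
      Fintype.card (PJet σ (p k)) := by
    intro k
    have h1 : goodPt σ (p k) = Finset.univ.filter (fun J => J ∈ goodPt σ (p k)) := by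
      ext J; simp
    rw [hbad]
    conv_lhs => rw [h1]
    simp only [Finset.mem_filter, Finset.mem_univ, true_and]
    rw [Finset.card_filter_add_card_filter_not, Finset.card_univ]
  set 𝒢' : Finset (∀ k : {q // q ∈ P}, PJet σ (p k)) :=
    Finset.univ.filter (fun ω => ¬ ∃ k, ω k ∈ goodPt σ (p k)) with h𝒢'
  have hG : 𝒢.card + 𝒢'.card =
      Fintype.card (∀ k : {q // q ∈ P}, PJet σ (p k)) := by
    rw [h𝒢, h𝒢', Finset.card_filter_add_card_filter_not, Finset.card_univ]
  have hcompl : 𝒢'.card = ∏ k : {q // q ∈ P}, (bad k).card := by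
    have : 𝒢' = Fintype.piFinset bad := by
      ext ω
      rw [h𝒢', Finset.mem_filter, Fintype.mem_piFinset]
      simp [hbad]
    rw [this, Fintype.card_piFinset]
  have hΩ : Fintype.card (∀ k : {q // q ∈ P}, PJet σ (p k)) =
      ∏ k : {q // q ∈ P}, Fintype.card (PJet σ (p k)) := Fintype.card_pi
  have hratio : (𝒢'.card : ℝ) ≤ ε / 2 *
      (Fintype.card (∀ k : {q // q ∈ P}, PJet σ (p k)) : ℝ) := by
    rw [hcompl, hΩ]
    push_cast
    have h1 : ∀ k ∈ (Finset.univ : Finset {q // q ∈ P}), ((bad k).card : ℝ) ≤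
        Real.exp (-(c / (p k))) * (Fintype.card (PJet σ (p k)) : ℝ) := by
      intro k _
      have h0 : ((goodPt σ (p k)).card : ℝ) + (bad k).card =
          Fintype.card (PJet σ (p k)) := by
        exact_mod_cast hbadcard k
      have h2 := hδ (p k) (hP k.1 k.2).2
      have h3 : 1 - c / (p k) ≤ Real.exp (-(c / (p k))) := by
        have := Real.add_one_le_exp (-(c / (p k)))
        linarith
      have h4 : (0 : ℝ) ≤ (Fintype.card (PJet σ (p k)) : ℝ) := Nat.cast_nonneg _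
      nlinarith
    have h2 : ∏ k : {q // q ∈ P}, ((bad k).card : ℝ) ≤
        ∏ k : {q // q ∈ P}, (Real.exp (-(c / (p k))) *
          (Fintype.card (PJet σ (p k)) : ℝ)) :=
      Finset.prod_le_prod (fun _ _ => Nat.cast_nonneg _) h1
    refine h2.trans ?_
    rw [Finset.prod_mul_distrib, ← Real.exp_sum]
    apply mul_le_mul_of_nonneg_right _ (Finset.prod_nonneg fun _ _ => by positivity)
    have h3 : ∑ k : {q // q ∈ P}, -(c / (p k : ℝ)) = -(c * ∑ q ∈ P, (1 : ℝ) / q) := by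
      rw [Finset.sum_neg_distrib, Finset.mul_sum, ← Finset.sum_coe_sort P]
      congr 1
      apply Finset.sum_congr rfl
      intro k _
      rw [mul_one_div]
    rw [h3]
    have h4 : -Real.log (ε / 2) ≤ c * ∑ q ∈ P, (1 : ℝ) / q := by
      rw [div_le_iff₀ hc] at hsum
      linarith
    calc Real.exp (-(c * ∑ q ∈ P, (1 : ℝ) / q)) ≤ Real.exp (Real.log (ε / 2)) := by
          apply Real.exp_le_exp.mpr; linarith
      _ = ε / 2 := Real.exp_log (by positivity)
  -- the modulus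
  set Q : ℕ := ∏ q ∈ P, q with hQ
  have hQpos : 0 < Q := Finset.prod_pos (fun q hq => (hP q hq).1.pos)
  obtain ⟨S₀, hS₀⟩ := exists_small_surj_pair (σ := σ) p hinj Q hQpos
    (fun k => Finset.dvd_prod_of_mem _ k.2)
  set d₀ : ℕ := S₀.sup Finsupp.degree with hd₀
  set B₀ : ℕ := ⌈(Fintype.card ((σ × S₀) ⊕ σ) * Q : ℝ) / ε⌉₊ with hB₀
  set L : ℕ := ∏ k : {q // q ∈ P}, perOf σ (p k) with hL
  have hLpos : 0 < L := Finset.prod_pos (fun k _ => perOf_pos (p k))
  refine ⟨L, max d₀ B₀, hLpos, fun d B A hd hB hA => ?_⟩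
  have hd' : ∀ s ∈ S₀, s.degree ≤ d := fun s hs =>
    (Finset.le_sup hs).trans ((le_max_left _ _).trans hd)
  have hbox := isBox_pairBox S₀ d B A hd'
  have hprop := hbox.proportion (pairJets (σ := σ) p) Q hS₀ 𝒢
  -- compare cardinalities
  have hfilt : ((pairBox σ d B A).filter (fun v => pairJets (σ := σ) p v ∈ 𝒢)).card ≤
      ({v | v ∈ pairBox σ d B A ∧ PointDML L v.1 v.2} : Set (MapPt σ)).ncard := by
    rw [← Set.ncard_coe_finset]
    apply Set.ncard_le_ncard
    · rintro ⟨Φ, α⟩ hΦ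
      rw [Finset.mem_coe, Finset.mem_filter, h𝒢, Finset.mem_filter] at hΦ
      obtain ⟨h1, _, k, hk⟩ := hΦ
      refine ⟨h1, ?_⟩
      rw [pairJets_apply] at hk
      have hLk : L = perOf σ (p k) * ∏ j ∈ Finset.univ.erase k, perOf σ (p j) :=
        (Finset.mul_prod_erase _ _ (Finset.mem_univ k)).symm
      rw [hLk]
      exact pointDML_of_good (p k) (hP k.1 k.2).2 Φ α hk _
        (Finset.prod_pos (fun j _ => perOf_pos (p j)))
    · exact (Finset.finite_toSet (pairBox σ d B A)).subset (fun v hv => hv.1)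
  refine le_trans ?_ (hprop.trans (by exact_mod_cast hfilt))
  apply mul_le_mul_of_nonneg_right _ (Nat.cast_nonneg _)
  -- (1 - ε) ≤ (|𝒢|/|Ω|) (1 - ...)
  have hΩpos : (0 : ℝ) < (Fintype.card (∀ k : {q // q ∈ P}, PJet σ (p k)) : ℝ) := by
    have : 0 < Fintype.card (∀ k : {q // q ∈ P}, PJet σ (p k)) :=
      Fintype.card_pos_iff.mpr ⟨0⟩
    exact_mod_cast this
  have h1 : 1 - ε / 2 ≤ (𝒢.card : ℝ) /
      (Fintype.card (∀ k : {q // q ∈ P}, PJet σ (p k)) : ℝ) := by
    rw [le_div_iff₀ hΩpos]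
    have h2 : (𝒢.card : ℝ) + 𝒢'.card =
        Fintype.card (∀ k : {q // q ∈ P}, PJet σ (p k)) := by
      exact_mod_cast hG
    linarith
  have h2 : ∑ i : (σ × S₀) ⊕ σ, (Q : ℝ) / (2 * (lenQ S₀ B A i : ℝ) + 1) ≤ ε / 2 := by
    have hBB : (B₀ : ℝ) ≤ B := by exact_mod_cast (le_max_right _ _).trans hB
    have hAA : (B₀ : ℝ) ≤ A := by exact_mod_cast (le_max_right _ _).trans hA
    have h3 : (Fintype.card ((σ × S₀) ⊕ σ) * Q : ℝ) / ε ≤ B₀ := Nat.le_ceil _
    have hcpos : (0 : ℝ) < Fintype.card ((σ × S₀) ⊕ σ) := by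
      have : 0 < Fintype.card ((σ × S₀) ⊕ σ) := Fintype.card_pos
      exact_mod_cast this
    rw [div_le_iff₀ hε] at h3
    have h4 : ∀ i : (σ × S₀) ⊕ σ, (Q : ℝ) / (2 * (lenQ S₀ B A i : ℝ) + 1) ≤
        ε / (2 * Fintype.card ((σ × S₀) ⊕ σ)) := by
      intro i
      have h5 : (B₀ : ℝ) ≤ lenQ S₀ B A i := by
        rcases i with i | i
        · exact hBB
        · exact hAA
      have h7 : (0 : ℝ) ≤ B₀ := Nat.cast_nonneg _
      rw [div_le_div_iff₀ (by positivity) (by positivity)]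
      nlinarith
    refine (Finset.sum_le_sum (fun i _ => h4 i)).trans ?_
    rw [Finset.sum_const, Finset.card_univ, nsmul_eq_mul]
    field_simp
    exact le_rfl
  by_cases hε1 : ε ≤ 1
  · have h3 : 0 ≤ 1 - ∑ i : (σ × S₀) ⊕ σ, (Q : ℝ) / (2 * (lenQ S₀ B A i : ℝ) + 1) := by linarith
    calc 1 - ε ≤ (1 - ε / 2) * (1 - ε / 2) := by nlinarith
      _ ≤ (1 - ε / 2) * (1 - ∑ i : (σ × S₀) ⊕ σ, (Q : ℝ) / (2 * (lenQ S₀ B A i : ℝ) + 1)) := by
          apply mul_le_mul_of_nonneg_left <;> linarith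
      _ ≤ _ := mul_le_mul_of_nonneg_right h1 h3
  · -- ε > 1: the left side is negative
    push Not at hε1
    by_cases h3 : 0 ≤ 1 - ∑ i : (σ × S₀) ⊕ σ, (Q : ℝ) / (2 * (lenQ S₀ B A i : ℝ) + 1)
    · have : (0 : ℝ) ≤ (𝒢.card : ℝ) /
        (Fintype.card (∀ k : {q // q ∈ P}, PJet σ (p k)) : ℝ) *
        (1 - ∑ i : (σ × S₀) ⊕ σ, (Q : ℝ) / (2 * (lenQ S₀ B A i : ℝ) + 1)) :=
        mul_nonneg (by positivity) h3
      linarith
    · push Not at h3
      have h4 : (𝒢.card : ℝ) /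
          (Fintype.card (∀ k : {q // q ∈ P}, PJet σ (p k)) : ℝ) ≤ 1 := by
        rw [div_le_one hΩpos]
        exact_mod_cast Finset.card_le_univ 𝒢
      nlinarith

end

end Pool.Agent.Helper87.DMLP
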