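import Mathlib
import Pool.Agent.Helper87.DMLP.Pair

set_option autoImplicit false

namespace Pool.Agent.Helper87.DMLP

open MvPolynomial

/-- A lower bound for the number of invertible `4 × 4` matrices over `F_p`. -/
lemma card_units_four (p : ℕ) [hp : Fact p.Prime] (hp3 : 3 ≤ p) :
    (1 - 3 / (2 * (p : ℝ))) * (Fintype.card (Matrix (Fin 4) (Fin 4) (ZMod p)) : ℝ) ≤
      ((Finset.univ.filter (fun A : Matrix (Fin 4) (Fin 4) (ZMod p) => IsUnit A)).card : ℝ) := by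
  classical
  have h1 : (Finset.univ.filter (fun A : Matrix (Fin 4) (Fin 4) (ZMod p) => IsUnit A)).card =
      Nat.card (GL (Fin 4) (ZMod p)) := by
    rw [← Fintype.card_subtype, ← Nat.card_eq_fintype_card]
    exact Nat.card_congr ⟨fun A => A.2.unit, fun u => ⟨u.1, u.isUnit⟩, fun A => rfl,
      fun u => Units.ext rfl⟩
  have h0 : Fintype.card (Matrix (Fin 4) (Fin 4) (ZMod p)) = (p ^ 4) ^ 4 := by
    have : Fintype.card (Matrix (Fin 4) (Fin 4) (ZMod p)) = Fintype.card (Fin 4 → Fin 4 → ZMod p) :=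
      rfl
    rw [this, Fintype.card_fun, Fintype.card_fun, ZMod.card, Fintype.card_fin]
  rw [h1, Matrix.card_GL_field, h0, ZMod.card]
  rw [Fin.prod_univ_four]
  have hpp : 1 ≤ p := hp.out.one_lt.le
  have e0 : p ^ 0 ≤ p ^ 4 := Nat.pow_le_pow_right hpp (by norm_num)
  have e1 : p ^ 1 ≤ p ^ 4 := Nat.pow_le_pow_right hpp (by norm_num)
  have e2 : p ^ 2 ≤ p ^ 4 := Nat.pow_le_pow_right hpp (by norm_num)
  have e3 : p ^ 3 ≤ p ^ 4 := Nat.pow_le_pow_right hpp (by norm_num)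
  have f3 : ((3 : Fin 4) : ℕ) = 3 := rfl
  simp only [Fin.val_zero, Fin.val_one, Fin.val_two, f3]
  rw [Nat.cast_mul, Nat.cast_mul, Nat.cast_mul, Nat.cast_sub e0, Nat.cast_sub e1, Nat.cast_sub e2,
    Nat.cast_sub e3]
  push_cast
  have hp3' : (3 : ℝ) ≤ p := by exact_mod_cast hp3
  set t : ℝ := (p : ℝ) with ht
  have ht0 : 0 < t := by linarith
  have h2 : (1 - 3 / (2 * t)) * (t ^ 4) ^ 4 = (2 * t - 3) * t ^ 15 / 2 := by
    field_simp
  rw [h2, div_le_iff₀ (by norm_num)]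
  have h3 : ((t ^ 4 - t ^ 0) * (t ^ 4 - t ^ 1) * (t ^ 4 - t ^ 2) * (t ^ 4 - t ^ 3)) * 2 -
      (2 * t - 3) * t ^ 15 =
      t ^ 6 * (t ^ 8 * (t - 2) + (4 * t ^ 5 - 2 * t ^ 2 - 2 * t + 2)) := by ring
  have h4 : 0 ≤ t ^ 8 * (t - 2) := by apply mul_nonneg <;> [positivity; linarith]
  have h5 : 0 ≤ 4 * t ^ 5 - 2 * t ^ 2 - 2 * t + 2 := by
    have h6 : 1 ≤ t ^ 3 := one_le_pow₀ (by linarith)
    have h7 : t ^ 2 ≤ t ^ 5 := pow_le_pow_right₀ (by linarith) (by norm_num)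
    have h8 : t ≤ t ^ 5 := le_self_pow₀ (by linarith) (by norm_num)
    linarith
  have h6 : 0 ≤ t ^ 6 * (t ^ 8 * (t - 2) + (4 * t ^ 5 - 2 * t ^ 2 - 2 * t + 2)) := by
    apply mul_nonneg (by positivity); linarith
  linarith

lemma goodPt_four (p : ℕ) [hp : Fact p.Prime] (hp3 : 3 ≤ p) :
    (1 / 60 : ℝ) / p * (Fintype.card (PJet (Fin 4) p) : ℝ) ≤ (goodPt (Fin 4) p).card := by
  classical
  have hpr : (3 : ℝ) ≤ p := by exact_mod_cast hp3
  have hp0 : (0 : ℝ) < p := by linarith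
  have hX : Fintype.card (Fin 4 → ZMod p) = p ^ 4 := by
    rw [Fintype.card_fun, ZMod.card, Fintype.card_fin]
  set K : ℕ := p / 3 with hK
  set m₁ : ℕ := p ^ 2 / 2 with hm₁
  have hK3 : (K : ℝ) ≤ p / 3 := by
    have : K * 3 ≤ p := Nat.div_mul_le_self p 3
    have : (K : ℝ) * 3 ≤ p := by exact_mod_cast this
    linarith
  have hK5 : (p : ℝ) / 5 ≤ K := by
    have : p ≤ 5 * K := by omega
    have : (p : ℝ) ≤ 5 * K := by exact_mod_cast this
    linarith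
  have hK0 : (0 : ℝ) ≤ K := Nat.cast_nonneg _
  have hm2 : (m₁ : ℝ) ≤ (p : ℝ) ^ 2 / 2 := by
    have : m₁ * 2 ≤ p ^ 2 := Nat.div_mul_le_self _ 2
    have : (m₁ : ℝ) * 2 ≤ (p : ℝ) ^ 2 := by exact_mod_cast this
    linarith
  have hm3 : (p : ℝ) ^ 2 / 2 ≤ m₁ + 1 := by
    have : p ^ 2 ≤ 2 * (m₁ + 1) := by omega
    have : (p : ℝ) ^ 2 ≤ 2 * (m₁ + 1) := by exact_mod_cast this
    linarith
  have hKm : K ≤ m₁ + 1 := by
    have : (K : ℝ) ≤ m₁ + 1 := by nlinarith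
    exact_mod_cast this
  have hmain := prob_goodTriples_ge (X := Fin 4 → ZMod p) (Y := Matrix (Fin 4) (Fin 4) (ZMod p))
    (Finset.univ.filter (fun A => IsUnit A)) K m₁ (3 / (2 * (p : ℝ))) (by positivity)
    Fintype.card_pos Fintype.card_pos hKm (by
      rw [hX]
      push_cast
      have h1 : (m₁ : ℝ) ^ 2 ≤ ((p : ℝ) ^ 2 / 2) ^ 2 := pow_le_pow_left₀ (Nat.cast_nonneg _) hm2 2
      nlinarith) (card_units_four p hp3) (by
      calc (K : ℝ) * (3 / (2 * (p : ℝ))) ≤ (p / 3) * (3 / (2 * (p : ℝ))) := by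
            apply mul_le_mul_of_nonneg_right hK3; positivity
        _ = 1 / 2 := by field_simp)
  have hJ : (Fintype.card (PJet (Fin 4) p) : ℝ) = (p : ℝ) ^ 4 *
      ((Fintype.card (Fin 4 → ZMod p) : ℝ) ^ (Fintype.card (Fin 4 → ZMod p)) *
      (Fintype.card (Matrix (Fin 4) (Fin 4) (ZMod p)) : ℝ) ^ (Fintype.card (Fin 4 → ZMod p))) := by
    have e1 : Fintype.card (PJet (Fin 4) p) = Fintype.card (Jet (Fin 4) p) *
        Fintype.card (Fin 4 → ZMod p) := Fintype.card_prod _ _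
    have e2 : Fintype.card (Jet (Fin 4) p) =
        Fintype.card ((Fin 4 → ZMod p) → (Fin 4 → ZMod p)) *
        Fintype.card ((Fin 4 → ZMod p) → Matrix (Fin 4) (Fin 4) (ZMod p)) := Fintype.card_prod _ _
    rw [e1, e2, Fintype.card_fun (α := Fin 4 → ZMod p) (β := Fin 4 → ZMod p),
      Fintype.card_fun (α := Fin 4 → ZMod p) (β := Matrix (Fin 4) (Fin 4) (ZMod p))]
    rw [Nat.cast_mul, Nat.cast_mul, Nat.cast_pow, Nat.cast_pow]
    have e3 : ((Fintype.card (Fin 4 → ZMod p) : ℕ) : ℝ) = (p : ℝ) ^ 4 := by rw [hX]; push_cast; rfl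
    rw [e3]
    ring
  rw [hJ]
  have hg : (goodPt (Fin 4) p).card = (goodTriples (Fin 4 → ZMod p)
      (Matrix (Fin 4) (Fin 4) (ZMod p)) (Finset.univ.filter (fun A => IsUnit A))).card := by
    unfold goodPt
    congr!
  rw [hg]
  refine le_trans ?_ hmain
  rw [← mul_assoc]
  apply mul_le_mul_of_nonneg_right _ (by positivity)
  have e1 : (1 / 60 : ℝ) / p * (p : ℝ) ^ 4 = (p : ℝ) ^ 3 / 60 := by field_simp
  rw [e1]
  have h1 : (p : ℝ) ^ 2 * (7 / 18) ≤ (m₁ : ℝ) + 1 - K := by nlinarith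
  have h2 : ((p : ℝ) ^ 2 * (7 / 18)) * ((p : ℝ) / 5) ≤ ((m₁ : ℝ) + 1 - K) * K := by
    apply mul_le_mul h1 hK5 (by positivity)
    nlinarith
  have h3 : (0 : ℝ) < (p : ℝ) ^ 3 := by positivity
  nlinarith

/-- Statistical dynamical Mordell-Lang in dimension four. -/
theorem stat_four (Pri : Set ℕ) (hdiv : ¬ Summable (fun q : Pri => (1 : ℝ) / (q : ℕ)))
    (hPri : ∀ q ∈ Pri, q.Prime) (ε : ℝ) (hε : 0 < ε) :
    ∃ (L K : ℕ), 0 < L ∧ ∀ d B A : ℕ, K ≤ d → K ≤ B → K ≤ A →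
      (1 - ε) * ((pairBox (Fin 4) d B A).card : ℝ) ≤
        (({v | v ∈ pairBox (Fin 4) d B A ∧ PointDML L v.1 v.2} : Set (MapPt (Fin 4))).ncard : ℝ) :=
  stat_pair (1 / 60) (by norm_num) (fun p _ hp3 => goodPt_four p hp3) Pri hdiv hPri ε hε

end Pool.Agent.Helper87.DMLP
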