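import Pool.Agent.Helper87.DMLP.StatMain
import Pool.Agent.Helper87.DMLP.PairFour

/-!
# A general density statement, and the count for a fixed starting point
-/

set_option autoImplicit false

namespace Pool.Agent.Helper87.DMLP

open MvPolynomial
open Pool.Agent.Helper87.DML (IsCyc goodPairs prob_goodPairs_ge boxSet boxSet_finite isBox_boxSet
  exists_small_surj exists_primes_sum IsBox)

section

variable {σ : Type} [Fintype σ] [DecidableEq σ]

/-- The general form of `stat_main`: for every choice of sets `GJ q` of good jets which contain at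
least the proportion `c / q` of all jets, almost all maps have a good jet at one of the primes. -/
theorem stat_gen (c : ℝ) (hc : 0 < c)
    (Pri : Set ℕ) (hdiv : ¬ Summable (fun q : Pri => (1 : ℝ) / (q : ℕ))) (hPri : ∀ q ∈ Pri, q.Prime)
    (ε : ℝ) (hε : 0 < ε) :
    ∃ (P : Finset ℕ) (K : ℕ), (∀ q ∈ P, q ∈ Pri ∧ q.Prime ∧ 3 ≤ q) ∧
      ∀ (GJ : ∀ (q : ℕ) [Fact q.Prime], Finset (Jet σ q)),
        (∀ (q : ℕ) [Fact q.Prime], q ∈ P →
          c / q * (Fintype.card (Jet σ q) : ℝ) ≤ (GJ q).card) →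
      ∀ d B : ℕ, K ≤ d → K ≤ B →
      (1 - ε) * ((boxSet σ d B).ncard : ℝ) ≤
        (({Φ | Φ ∈ boxSet σ d B ∧ ∃ q ∈ P, ∃ _ : Fact q.Prime, jet q Φ ∈ GJ q} :
          Set (σ → MvPolynomial σ ℤ)).ncard : ℝ) := by
  classical
  -- choose primes
  obtain ⟨P, hPPri, hsum⟩ := exists_primes_sum_of Pri hdiv hPri (-Real.log (ε / 2) / c)
  have hP : ∀ q ∈ P, q.Prime ∧ 3 ≤ q := fun q hq => ⟨hPri q (hPPri q hq).1, (hPPri q hq).2⟩
  have hPp : ∀ k : {q // q ∈ P}, Fact (k.1).Prime := fun k => ⟨(hP k.1 k.2).1⟩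
  set p : {q // q ∈ P} → ℕ := fun k => k.1 with hp
  have hinj : Function.Injective p := Subtype.val_injective
  -- the modulus
  set Q : ℕ := ∏ q ∈ P, q with hQ
  have hQpos : 0 < Q := Finset.prod_pos (fun q hq => (hP q hq).1.pos)
  obtain ⟨S₀, hS₀⟩ := exists_small_surj (jets (σ := σ) p) (jets_surjective p hinj) Q hQpos (by
    intro Φ Ψ h
    funext k
    rw [jets_apply, jets_apply]
    apply jet_eq_of_dvd
    intro i s
    refine dvd_trans ?_ (h i s)
    have : (p k) ∣ Q := Finset.dvd_prod_of_mem _ k.2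
    exact_mod_cast this)
  set d₀ : ℕ := S₀.sup Finsupp.degree with hd₀
  set B₀ : ℕ := ⌈(Fintype.card (σ × S₀) * Q : ℝ) / ε⌉₊ with hB₀
  refine ⟨P, max d₀ B₀, fun q hq => ⟨(hPPri q hq).1, hP q hq⟩, ?_⟩
  intro GJ hδ d B hd hB
  -- good jets
  set 𝒢 : Finset (∀ k : {q // q ∈ P}, Jet σ (p k)) :=
    Finset.univ.filter (fun ω => ∃ k, ω k ∈ GJ (p k)) with h𝒢
  set bad : ∀ k : {q // q ∈ P}, Finset (Jet σ (p k)) :=
    fun k => Finset.univ.filter (fun J => J ∉ GJ (p k)) with hbad
  have hbadcard : ∀ k, (GJ (p k)).card + (bad k).card = Fintype.card (Jet σ (p k)) := by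
    intro k
    have h1 : GJ (p k) = Finset.univ.filter (fun J => J ∈ GJ (p k)) := by
      ext J; simp
    rw [hbad]
    conv_lhs => rw [h1]
    simp only [Finset.mem_filter, Finset.mem_univ, true_and]
    rw [Finset.card_filter_add_card_filter_not, Finset.card_univ]
  set 𝒢' : Finset (∀ k : {q // q ∈ P}, Jet σ (p k)) :=
    Finset.univ.filter (fun ω => ¬ ∃ k, ω k ∈ GJ (p k)) with h𝒢'
  have hG : 𝒢.card + 𝒢'.card = Fintype.card (∀ k : {q // q ∈ P}, Jet σ (p k)) := by
    rw [h𝒢, h𝒢', Finset.card_filter_add_card_filter_not, Finset.card_univ]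
  have hcompl : 𝒢'.card = ∏ k : {q // q ∈ P}, (bad k).card := by
    have : 𝒢' = Fintype.piFinset bad := by
      ext ω
      rw [h𝒢', Finset.mem_filter, Fintype.mem_piFinset]
      simp [hbad]
    rw [this, Fintype.card_piFinset]
  have hΩ : Fintype.card (∀ k : {q // q ∈ P}, Jet σ (p k)) =
      ∏ k : {q // q ∈ P}, Fintype.card (Jet σ (p k)) := Fintype.card_pi
  have hratio : (𝒢'.card : ℝ) ≤ ε / 2 * (Fintype.card (∀ k : {q // q ∈ P}, Jet σ (p k)) : ℝ) := by
    rw [hcompl, hΩ]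
    push_cast
    have h1 : ∀ k ∈ (Finset.univ : Finset {q // q ∈ P}), ((bad k).card : ℝ) ≤
        Real.exp (-(c / (p k))) * (Fintype.card (Jet σ (p k)) : ℝ) := by
      intro k _
      have h0 : ((GJ (p k)).card : ℝ) + (bad k).card = Fintype.card (Jet σ (p k)) := by
        exact_mod_cast hbadcard k
      have h2 := hδ (p k) k.2
      have h3 : 1 - c / (p k) ≤ Real.exp (-(c / (p k))) := by
        have := Real.add_one_le_exp (-(c / (p k)))
        linarith
      have h4 : (0 : ℝ) ≤ (Fintype.card (Jet σ (p k)) : ℝ) := Nat.cast_nonneg _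
      nlinarith
    have h2 : ∏ k : {q // q ∈ P}, ((bad k).card : ℝ) ≤
        ∏ k : {q // q ∈ P}, (Real.exp (-(c / (p k))) * (Fintype.card (Jet σ (p k)) : ℝ)) :=
      Finset.prod_le_prod (fun _ _ => Nat.cast_nonneg _) h1
    refine h2.trans ?_
    rw [Finset.prod_mul_distrib, ← Real.exp_sum]
    apply mul_le_mul_of_nonneg_right _ (Finset.prod_nonneg fun _ _ => Nat.cast_nonneg _)
    have h3 : ∑ k : {q // q ∈ P}, -(c / (p k : ℝ)) = -(c * ∑ q ∈ P, (1 : ℝ) / q) := by
      rw [Finset.sum_neg_distrib, Finset.mul_sum, ← Finset.sum_coe_sort P]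
      congr 1
      apply Finset.sum_congr rfl
      intro k _
      rw [mul_one_div]
    rw [h3]
    have h4 : -Real.log (ε / 2) ≤ c * ∑ q ∈ P, (1 : ℝ) / q := by
      rw [div_le_iff₀ hc] at hsum
      linarith
    calc Real.exp (-(c * ∑ q ∈ P, (1 : ℝ) / q)) ≤ Real.exp (Real.log (ε / 2)) := by
          apply Real.exp_le_exp.mpr; linarith
      _ = ε / 2 := Real.exp_log (by positivity)
  have hd' : ∀ s ∈ S₀, s.degree ≤ d := fun s hs =>
    (Finset.le_sup hs).trans ((le_max_left _ _).trans hd)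
  have hbox := isBox_boxSet S₀ d B hd'
  have hprop := hbox.proportion (jets (σ := σ) p) Q hS₀ 𝒢
  -- compare cardinalities
  have hfilt : ((boxSet_finite (σ := σ) d B).toFinset.filter (fun v => jets (σ := σ) p v ∈ 𝒢)).card ≤
      ({Φ | Φ ∈ boxSet σ d B ∧ ∃ q ∈ P, ∃ _ : Fact q.Prime, jet q Φ ∈ GJ q} :
        Set (σ → MvPolynomial σ ℤ)).ncard := by
    rw [← Set.ncard_coe_finset]
    apply Set.ncard_le_ncard
    · intro Φ hΦ
      rw [Finset.mem_coe, Finset.mem_filter, Set.Finite.mem_toFinset, h𝒢, Finset.mem_filter] at hΦ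
      obtain ⟨h1, _, k, hk⟩ := hΦ
      refine ⟨h1, k.1, k.2, hPp k, ?_⟩
      rw [jets_apply] at hk
      exact hk
    · exact (boxSet_finite (σ := σ) d B).subset (fun Φ hΦ => hΦ.1)
  have hcard : ((boxSet_finite (σ := σ) d B).toFinset.card : ℝ) = ((boxSet σ d B).ncard : ℝ) := by
    rw [Set.ncard_eq_toFinset_card _ (boxSet_finite (σ := σ) d B)]
  rw [hcard] at hprop
  refine le_trans ?_ (hprop.trans (by exact_mod_cast hfilt))
  apply mul_le_mul_of_nonneg_right _ (Nat.cast_nonneg _)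
  -- (1 - ε) ≤ (|𝒢|/|Ω|) (1 - ...)
  have hΩpos : (0 : ℝ) < (Fintype.card (∀ k : {q // q ∈ P}, Jet σ (p k)) : ℝ) := by
    have : 0 < Fintype.card (∀ k : {q // q ∈ P}, Jet σ (p k)) := Fintype.card_pos_iff.mpr ⟨0⟩
    exact_mod_cast this
  have h1 : 1 - ε / 2 ≤ (𝒢.card : ℝ) / (Fintype.card (∀ k : {q // q ∈ P}, Jet σ (p k)) : ℝ) := by
    rw [le_div_iff₀ hΩpos]
    have h2 : (𝒢.card : ℝ) + 𝒢'.card = Fintype.card (∀ k : {q // q ∈ P}, Jet σ (p k)) := by
      exact_mod_cast hG
    linarith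
  have h2 : (Fintype.card (σ × S₀) * Q : ℝ) / (2 * B + 1) ≤ ε / 2 := by
    have hBB : (B₀ : ℝ) ≤ B := by exact_mod_cast (le_max_right _ _).trans hB
    have h3 : (Fintype.card (σ × S₀) * Q : ℝ) / ε ≤ B := (Nat.le_ceil _).trans hBB
    rw [div_le_iff₀ hε] at h3
    rw [div_le_iff₀ (by positivity)]
    nlinarith
  by_cases hε1 : ε ≤ 1
  · have h3 : 0 ≤ 1 - (Fintype.card (σ × S₀) * Q : ℝ) / (2 * B + 1) := by linarith
    calc 1 - ε ≤ (1 - ε / 2) * (1 - ε / 2) := by nlinarith
      _ ≤ (1 - ε / 2) * (1 - (Fintype.card (σ × S₀) * Q : ℝ) / (2 * B + 1)) := by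
          apply mul_le_mul_of_nonneg_left <;> linarith
      _ ≤ _ := mul_le_mul_of_nonneg_right h1 h3
  · -- ε > 1: the left side is negative
    push Not at hε1
    by_cases h3 : 0 ≤ 1 - (Fintype.card (σ × S₀) * Q : ℝ) / (2 * B + 1)
    · have : (0 : ℝ) ≤ (𝒢.card : ℝ) / (Fintype.card (∀ k : {q // q ∈ P}, Jet σ (p k)) : ℝ) *
        (1 - (Fintype.card (σ × S₀) * Q : ℝ) / (2 * B + 1)) := by positivity
      linarith
    · push Not at h3
      have h4 : (𝒢.card : ℝ) / (Fintype.card (∀ k : {q // q ∈ P}, Jet σ (p k)) : ℝ) ≤ 1 := by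
        rw [div_le_one hΩpos]
        exact_mod_cast Finset.card_le_univ 𝒢
      nlinarith

end


section slice

variable {X Y : Type} [Fintype X] [DecidableEq X] [Fintype Y] [DecidableEq Y]

/-- The pairs which are good for the starting point `z`. -/
noncomputable def slice (U : Finset Y) (z : X) : Finset ((X → X) × (X → Y)) := by
  classical
  exact Finset.univ.filter (fun fD => (fD, z) ∈ goodTriples X Y U)

lemma mem_slice (U : Finset Y) (z : X) (fD : (X → X) × (X → Y)) :
    fD ∈ slice U z ↔ ∀ n, IsCyc fD.1 (fD.1^[n] z) → fD.2 (fD.1^[n] z) ∈ U := by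
  classical
  simp [slice, mem_goodTriples]

/-- Conjugation by a permutation. -/
def conjPair (e : X ≃ X) : ((X → X) × (X → Y)) ≃ ((X → X) × (X → Y)) :=
  Equiv.prodCongr (Equiv.arrowCongr e e) (Equiv.arrowCongr e (Equiv.refl Y))

lemma conj_iterate (e : X ≃ X) (f : X → X) (n : ℕ) (x : X) :
    (Equiv.arrowCongr e e f)^[n] (e x) = e (f^[n] x) := by
  induction n with
  | zero => rfl
  | succ n ih =>
    rw [Function.iterate_succ_apply', Function.iterate_succ_apply', ih]
    simp [Equiv.arrowCongr]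

lemma conj_isCyc (e : X ≃ X) (f : X → X) (x : X) :
    IsCyc (Equiv.arrowCongr e e f) (e x) ↔ IsCyc f x := by
  unfold IsCyc
  refine exists_congr fun n => and_congr Iff.rfl ?_
  rw [conj_iterate, e.apply_eq_iff_eq]

lemma mem_slice_conj (U : Finset Y) (z : X) (e : X ≃ X) (fD : (X → X) × (X → Y)) :
    conjPair e fD ∈ slice U (e z) ↔ fD ∈ slice U z := by
  rw [mem_slice, mem_slice]
  refine forall_congr' fun n => ?_
  change (IsCyc (Equiv.arrowCongr e e fD.1) ((Equiv.arrowCongr e e fD.1)^[n] (e z)) →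
    (Equiv.arrowCongr e (Equiv.refl Y) fD.2) ((Equiv.arrowCongr e e fD.1)^[n] (e z)) ∈ U) ↔ _
  rw [conj_iterate, conj_isCyc]
  have : (Equiv.arrowCongr e (Equiv.refl Y) fD.2) (e (fD.1^[n] z)) = fD.2 (fD.1^[n] z) := by
    simp [Equiv.arrowCongr]
  rw [this]

lemma card_slice_eq (U : Finset Y) (z z' : X) : (slice U z).card = (slice U z').card := by
  classical
  refine Finset.card_bij' (fun fD _ => conjPair (Equiv.swap z z') fD)
    (fun fD _ => (conjPair (Equiv.swap z z')).symm fD) ?_ ?_ ?_ ?_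
  · intro fD h
    have := (mem_slice_conj U z (Equiv.swap z z') fD).2 h
    rwa [Equiv.swap_apply_left] at this
  · intro fD h
    rw [← mem_slice_conj U z (Equiv.swap z z'), Equiv.swap_apply_left, Equiv.apply_symm_apply]
    exact h
  · intro fD _
    exact Equiv.symm_apply_apply _ _
  · intro fD _
    exact Equiv.apply_symm_apply _ _

lemma card_goodTriples (U : Finset Y) (z : X) :
    (goodTriples X Y U).card = Fintype.card X * (slice U z).card := by
  classical
  have h1 : (goodTriples X Y U).card = ∑ w : X, (slice U w).card := by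
    rw [Finset.card_eq_sum_card_fiberwise (f := Prod.snd) (t := Finset.univ)
      (fun _ _ => Finset.mem_coe.2 (Finset.mem_univ _))]
    refine Finset.sum_congr rfl fun w _ => ?_
    refine Finset.card_bij' (fun t _ => t.1) (fun fD _ => (fD, w)) ?_ ?_ ?_ ?_
    · rintro ⟨fD, x⟩ h
      rw [Finset.mem_filter] at h
      obtain ⟨h1, rfl⟩ := h
      simp only [slice, Finset.mem_filter, Finset.mem_univ, true_and]
      exact h1
    · intro fD h
      simp only [slice, Finset.mem_filter, Finset.mem_univ, true_and] at h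
      rw [Finset.mem_filter]
      exact ⟨h, rfl⟩
    · rintro ⟨fD, x⟩ h
      rw [Finset.mem_filter] at h
      obtain ⟨h1, rfl⟩ := h
      rfl
    · intro fD _
      rfl
  rw [h1, Finset.sum_congr rfl fun w _ => card_slice_eq U w z, Finset.sum_const, smul_eq_mul,
    Finset.card_univ]

end slice

/-- The jets which are good for the starting point `z`. -/
noncomputable def goodAt (p : ℕ) [Fact p.Prime] (z : Fin 4 → ZMod p) : Finset (Jet (Fin 4) p) := by
  classical
  exact slice (X := Fin 4 → ZMod p) (Y := Matrix (Fin 4) (Fin 4) (ZMod p))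
    (Finset.univ.filter (fun A => IsUnit A)) z

lemma mem_goodAt (p : ℕ) [Fact p.Prime] (z : Fin 4 → ZMod p) (J : Jet (Fin 4) p) :
    J ∈ goodAt p z ↔ ∀ n, IsCyc J.1 (J.1^[n] z) → IsUnit (J.2 (J.1^[n] z)) := by
  classical
  have := mem_slice (X := Fin 4 → ZMod p) (Y := Matrix (Fin 4) (Fin 4) (ZMod p))
    (Finset.univ.filter (fun A => IsUnit A)) z J
  simp only [Finset.mem_filter, Finset.mem_univ, true_and] at this
  exact this

lemma card_goodAt (p : ℕ) [hp : Fact p.Prime] (hp3 : 3 ≤ p) (z : Fin 4 → ZMod p) :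
    (1 / 60 : ℝ) / p * (Fintype.card (Jet (Fin 4) p) : ℝ) ≤ (goodAt p z).card := by
  classical
  have h1 := goodPt_four p hp3
  have h2 : (goodPt (Fin 4) p).card = Fintype.card (Fin 4 → ZMod p) * (goodAt p z).card := by
    have h3 := card_goodTriples (X := Fin 4 → ZMod p) (Y := Matrix (Fin 4) (Fin 4) (ZMod p))
      (Finset.univ.filter (fun A => IsUnit A)) z
    have h4 : (goodPt (Fin 4) p).card = (goodTriples (Fin 4 → ZMod p)
        (Matrix (Fin 4) (Fin 4) (ZMod p)) (Finset.univ.filter (fun A => IsUnit A))).card := by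
      unfold goodPt
      congr!
    rw [h4, h3]
    unfold goodAt
    congr!
  have h3 : Fintype.card (PJet (Fin 4) p) = Fintype.card (Jet (Fin 4) p) *
      Fintype.card (Fin 4 → ZMod p) := Fintype.card_prod _ _
  rw [h2, h3] at h1
  push_cast at h1
  have h4 : (0 : ℝ) < (Fintype.card (Fin 4 → ZMod p) : ℝ) := by
    exact_mod_cast (Fintype.card_pos : 0 < Fintype.card (Fin 4 → ZMod p))
  have h5 : (1 / 60 : ℝ) / p * (Fintype.card (Jet (Fin 4) p) : ℝ) *
      (Fintype.card (Fin 4 → ZMod p) : ℝ) ≤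
      (goodAt p z).card * (Fintype.card (Fin 4 → ZMod p) : ℝ) := by
    linarith
  exact le_of_mul_le_mul_right h5 h4

/-- The conclusion for one starting point with coordinates in `R`. -/
lemma pointDML_of_goodAt (p : ℕ) [hp : Fact p.Prime] (hp3 : 3 ≤ p)
    (Φ : Fin 4 → MvPolynomial (Fin 4) ℤ) (R : Subring ℂ) (ι : R →+* ℤ_[p])
    (hι : Function.Injective ι) (α : Fin 4 → R)
    (h : jet p Φ ∈ goodAt p (fun i => PadicInt.toZMod (ι (α i)))) (m : ℕ) (hm : 0 < m)
    (V : Set (MvPolynomial (Fin 4) ℂ)) :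
    ∃ E A : Finset ℕ, returnSet Φ (fun i => (α i : ℂ)) V =
      {n : ℕ | n ∈ E ∨ ∃ a ∈ A, ∃ k : ℕ, n = a + perOf (Fin 4) p * m * k} := by
  rw [mem_goodAt] at h
  set M := Fintype.card (Fin 4 → ZMod p) with hM
  have hgood : GoodOrbit p Φ (fun i => PadicInt.toZMod (ι (α i))) M M.factorial := by
    intro n hn
    obtain ⟨h1, h2⟩ := iterate_periodic (jet p Φ).1 (fun i => PadicInt.toZMod (ι (α i))) n hn
    exact ⟨h n h1, h2⟩
  have h1 := goodOrbit_returnSet p hp3 Φ R ι hι α M M.factorial hgood V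
  exact (h1.mul hm).explicit (Nat.mul_pos (perOf_pos p) hm)

end Pool.Agent.Helper87.DMLP
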