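import Pool.Agent.Helper87.DMLP.LechA
import Pool.Agent.Helper87.DMLP.LechB
import Pool.Agent.Helper87.DMLP.StatGen

/-!
# Statistical dynamical Mordell-Lang for points over finitely generated subrings of `ℂ`
-/

set_option autoImplicit false

namespace Pool.Agent.Helper87.DMLP

open MvPolynomial
open Pool.Agent.Helper87.DML (boxSet boxSet_finite)

/-- The primes `q` for which the subring of `ℂ` generated by `A` embeds into `ℤ_q`. -/
def primesFor (A : Finset ℂ) : Set ℕ :=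
  {q | ∃ _ : Fact q.Prime, ∃ ι : Subring.closure (A : Set ℂ) →+* ℤ_[q], Function.Injective ι}

theorem not_summable_primesFor (A : Finset ℂ) :
    ¬ Summable (fun q : primesFor A => (1 : ℝ) / (q : ℕ)) := by
  obtain ⟨K, hK, hN, M, h⟩ := exists_number_field A
  refine not_summable_degree_one K M (primesFor A) ?_
  intro q hq hM hc
  haveI : Fact q.Prime := ⟨hq⟩
  exact ⟨⟨hq⟩, h q hM (exists_hom_zmod K hq hc)⟩

theorem prime_of_mem_primesFor (A : Finset ℂ) : ∀ q ∈ primesFor A, q.Prime := by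
  rintro q ⟨⟨hq⟩, -⟩
  exact hq

/-- Dimension three: almost all maps satisfy the conclusion for all starting points over the
finitely generated ring and all subvarieties, with one period. -/
theorem stat_three_all (A : Finset ℂ) (ε : ℝ) (hε : 0 < ε) :
    ∃ L K : ℕ, 0 < L ∧ ∀ d B : ℕ, K ≤ d → K ≤ B →
      (1 - ε) * ((boxSet (Fin 3) d B).ncard : ℝ) ≤
        (({Φ | Φ ∈ boxSet (Fin 3) d B ∧
          ∀ α : Fin 3 → ℂ, (∀ i, α i ∈ Subring.closure (A : Set ℂ)) →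
          ∀ V : Set (MvPolynomial (Fin 3) ℂ), ∃ E T : Finset ℕ, returnSet Φ α V =
            {n : ℕ | n ∈ E ∨ ∃ a ∈ T, ∃ k : ℕ, n = a + L * k}} :
          Set (Fin 3 → MvPolynomial (Fin 3) ℤ)).ncard : ℝ) := by
  obtain ⟨P, L, K, hP, hL, h⟩ := stat_three (primesFor A) (not_summable_primesFor A)
    (prime_of_mem_primesFor A) ε hε
  refine ⟨L, K, hL, fun d B hd hB => (h d B hd hB).trans ?_⟩
  have hsub : ({Φ | Φ ∈ boxSet (Fin 3) d B ∧
      ∃ q ∈ P, ∃ _ : Fact q.Prime, 3 ≤ q ∧ PadicDML q L Φ} :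
      Set (Fin 3 → MvPolynomial (Fin 3) ℤ)) ⊆
      {Φ | Φ ∈ boxSet (Fin 3) d B ∧
          ∀ α : Fin 3 → ℂ, (∀ i, α i ∈ Subring.closure (A : Set ℂ)) →
          ∀ V : Set (MvPolynomial (Fin 3) ℂ), ∃ E T : Finset ℕ, returnSet Φ α V =
            {n : ℕ | n ∈ E ∨ ∃ a ∈ T, ∃ k : ℕ, n = a + L * k}} := by
    rintro Φ ⟨h1, q, hq, hF, _, h3⟩
    refine ⟨h1, fun α hα V => ?_⟩
    obtain ⟨_, ι, hι⟩ := hP q hq
    exact h3 _ ι hι α hα V
  exact_mod_cast Set.ncard_le_ncard hsub ((boxSet_finite d B).subset (fun Φ hΦ => hΦ.1))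

/-- Dimension four: for every starting point over the finitely generated ring almost all maps
satisfy the conclusion for all subvarieties, with one period and one bound for all points. -/
theorem stat_four_pt (A : Finset ℂ) (ε : ℝ) (hε : 0 < ε) :
    ∃ L K : ℕ, 0 < L ∧ ∀ d B : ℕ, K ≤ d → K ≤ B →
      ∀ α : Fin 4 → ℂ, (∀ i, α i ∈ Subring.closure (A : Set ℂ)) →
      (1 - ε) * ((boxSet (Fin 4) d B).ncard : ℝ) ≤
        (({Φ | Φ ∈ boxSet (Fin 4) d B ∧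
          ∀ V : Set (MvPolynomial (Fin 4) ℂ), ∃ E T : Finset ℕ, returnSet Φ α V =
            {n : ℕ | n ∈ E ∨ ∃ a ∈ T, ∃ k : ℕ, n = a + L * k}} :
          Set (Fin 4 → MvPolynomial (Fin 4) ℤ)).ncard : ℝ) := by
  classical
  obtain ⟨P, K, hP, h⟩ := stat_gen (σ := Fin 4) (1 / 60) (by norm_num) (primesFor A)
    (not_summable_primesFor A) (prime_of_mem_primesFor A) ε hε
  have hPp : ∀ k : {q // q ∈ P}, Fact (k.1).Prime := fun k => ⟨(hP k.1 k.2).2.1⟩
  set L : ℕ := ∏ k : {q // q ∈ P}, @perOf (Fin 4) _ _ k.1 (hPp k) with hL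
  have hLpos : 0 < L := Finset.prod_pos (fun k _ => @perOf_pos (Fin 4) _ _ k.1 (hPp k))
  refine ⟨L, K, hLpos, fun d B hd hB α hα => ?_⟩
  set GJ : ∀ (q : ℕ) [Fact q.Prime], Finset (Jet (Fin 4) q) := fun q _ =>
    if hq : ∃ ι : Subring.closure (A : Set ℂ) →+* ℤ_[q], Function.Injective ι then
      goodAt q (fun i => PadicInt.toZMod (hq.choose ⟨α i, hα i⟩)) else ∅ with hGJ
  have h1 := h GJ (by
    intro q hF hq
    obtain ⟨⟨_, hι⟩, _, h3⟩ := hP q hq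
    rw [hGJ]
    dsimp only
    rw [dif_pos hι]
    exact card_goodAt q h3 _) d B hd hB
  refine h1.trans ?_
  have hsub : ({Φ | Φ ∈ boxSet (Fin 4) d B ∧ ∃ q ∈ P, ∃ _ : Fact q.Prime, jet q Φ ∈ GJ q} :
      Set (Fin 4 → MvPolynomial (Fin 4) ℤ)) ⊆
      {Φ | Φ ∈ boxSet (Fin 4) d B ∧
          ∀ V : Set (MvPolynomial (Fin 4) ℂ), ∃ E T : Finset ℕ, returnSet Φ α V =
            {n : ℕ | n ∈ E ∨ ∃ a ∈ T, ∃ k : ℕ, n = a + L * k}} := by
    rintro Φ ⟨h1, q, hq, hF, h3⟩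
    refine ⟨h1, fun V => ?_⟩
    obtain ⟨⟨_, hι⟩, _, hq3⟩ := hP q hq
    rw [hGJ] at h3
    dsimp only at h3
    rw [dif_pos hι] at h3
    have hLk : L = @perOf (Fin 4) _ _ q hF *
        ∏ j ∈ Finset.univ.erase (⟨q, hq⟩ : {q // q ∈ P}), @perOf (Fin 4) _ _ j.1 (hPp j) :=
      (Finset.mul_prod_erase (Finset.univ : Finset {q // q ∈ P})
        (fun k => @perOf (Fin 4) _ _ k.1 (hPp k)) (Finset.mem_univ ⟨q, hq⟩)).symm
    rw [hLk]
    exact pointDML_of_goodAt q hq3 Φ _ hι.choose hι.choose_spec (fun i => ⟨α i, hα i⟩) h3 _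
      (Finset.prod_pos (fun j _ => @perOf_pos (Fin 4) _ _ j.1 (hPp j))) V
  exact_mod_cast Set.ncard_le_ncard hsub ((boxSet_finite d B).subset (fun Φ hΦ => hΦ.1))

end Pool.Agent.Helper87.DMLP
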