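import Mathlib
import Pool.Agent.Helper87.DMLP.PairFour

set_option autoImplicit false

namespace Pool.Agent.Helper87.DMLP.StatDMLFour

open MvPolynomial

/-- The self-map of `𝔸⁴(ℂ) = ℂ⁴` given by four polynomials with integer coefficients. -/
noncomputable def polyMap (Φ : Fin 4 → MvPolynomial (Fin 4) ℤ) (x : Fin 4 → ℂ) : Fin 4 → ℂ :=
  fun i => aeval x (Φ i)

/-- The return set `{n : Φⁿ(α) ∈ V}` for the closed subvariety `V` of `𝔸⁴` over `ℂ` cut out by the
polynomials of the set `V`. -/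
def returnSet (Φ : Fin 4 → MvPolynomial (Fin 4) ℤ) (α : Fin 4 → ℂ)
    (V : Set (MvPolynomial (Fin 4) ℂ)) : Set ℕ :=
  {n | ∀ F ∈ V, eval ((polyMap Φ)^[n] α) F = 0}

/-- Pairs of a polynomial self-map of `𝔸⁴` over `ℤ` of degree at most `d` with all coefficients
in `[-B, B]`, and an integer point of `[-A, A]⁴`. -/
def box (d B A : ℕ) : Set ((Fin 4 → MvPolynomial (Fin 4) ℤ) × (Fin 4 → ℤ)) :=
  {v | (∀ i, (v.1 i).totalDegree ≤ d ∧ ∀ s, |coeff s (v.1 i)| ≤ (B : ℤ)) ∧
    ∀ i, |v.2 i| ≤ (A : ℤ)}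

/-- The conclusion of the dynamical Mordell-Lang conjecture for `Φ`, the starting point `α` and every
subvariety, with one common difference `L` for all infinite progressions. -/
def DMLWith (L : ℕ) (Φ : Fin 4 → MvPolynomial (Fin 4) ℤ) (α : Fin 4 → ℤ) : Prop :=
  ∀ V : Set (MvPolynomial (Fin 4) ℂ), ∃ E A : Finset ℕ,
    returnSet Φ (fun i => (α i : ℂ)) V = {n : ℕ | n ∈ E ∨ ∃ a ∈ A, ∃ k : ℕ, n = a + L * k}

/-- **The dynamical Mordell-Lang conjecture holds for one hundred percent of the pairs of a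
polynomial self-map of affine four-space over the integers and an integer point.** -/
theorem result (ε : ℝ) (hε : 0 < ε) :
    ∃ L K : ℕ, 0 < L ∧ ∀ d B A : ℕ, K ≤ d → K ≤ B → K ≤ A →
      (box d B A).Finite ∧
      (1 - ε) * ((box d B A).ncard : ℝ) ≤
        (({v ∈ box d B A | DMLWith L v.1 v.2}).ncard : ℝ) := by
  have hdiv : ¬ Summable (fun q : {q : ℕ | q.Prime} => (1 : ℝ) / (q : ℕ)) :=
    Nat.Primes.not_summable_one_div
  obtain ⟨L, K, hL, h⟩ := Pool.Agent.Helper87.DMLP.stat_four {q | q.Prime} hdiv (fun q hq => hq) ε hε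
  refine ⟨L, K, hL, fun d B A hd hB hA => ?_⟩
  have hbox : box d B A = (Pool.Agent.Helper87.DMLP.pairBox (Fin 4) d B A :
      Set ((Fin 4 → MvPolynomial (Fin 4) ℤ) × (Fin 4 → ℤ))) := by
    ext v
    rw [Pool.Agent.Helper87.DMLP.pairBox, Finset.coe_product, Set.mem_prod, Set.Finite.coe_toFinset,
      Finset.mem_coe, Fintype.mem_piFinset]
    refine and_congr Iff.rfl (forall_congr' fun i => ?_)
    rw [Finset.mem_Icc, abs_le]
  refine ⟨by rw [hbox]; exact Finset.finite_toSet _, ?_⟩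
  have h1 := h d B A hd hB hA
  have hc : (box d B A).ncard = (Pool.Agent.Helper87.DMLP.pairBox (Fin 4) d B A).card := by
    rw [hbox, Set.ncard_coe_finset]
  rw [hc]
  refine h1.trans ?_
  have hsub : ({v | v ∈ Pool.Agent.Helper87.DMLP.pairBox (Fin 4) d B A ∧
      Pool.Agent.Helper87.DMLP.PointDML L v.1 v.2} :
      Set ((Fin 4 → MvPolynomial (Fin 4) ℤ) × (Fin 4 → ℤ))) ⊆
      {v ∈ box d B A | DMLWith L v.1 v.2} := by
    rintro ⟨Φ, α⟩ ⟨h1, h3⟩
    refine ⟨by rw [hbox]; exact h1, ?_⟩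
    intro V
    obtain ⟨E, A', hEA⟩ := h3 V
    refine ⟨E, A', ?_⟩
    rw [← hEA]
    have hmap : polyMap Φ =
        Pool.Agent.Helper87.DMLP.evalMap (Pool.Agent.Helper87.DMLP.baseMap ℂ Φ) := by
      funext x i
      simp only [polyMap, Pool.Agent.Helper87.DMLP.evalMap, Pool.Agent.Helper87.DMLP.baseMap]
      rw [eval_map, aeval_def]
      rfl
    ext n
    simp only [returnSet, Pool.Agent.Helper87.DMLP.returnSet, hmap]
  have hfin : ({v ∈ box d B A | DMLWith L v.1 v.2} :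
      Set ((Fin 4 → MvPolynomial (Fin 4) ℤ) × (Fin 4 → ℤ))).Finite := by
    refine Set.Finite.subset ?_ (fun v hv => hv.1)
    rw [hbox]
    exact Finset.finite_toSet _
  exact_mod_cast Set.ncard_le_ncard hsub hfin

end Pool.Agent.Helper87.DMLP.StatDMLFour
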